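import Mathlib

/-!
# Cube complexes, weighted clique counts (helper28's file CubicalManifolds, definitions and lemmas)

`L` is the clique complex of a finite graph `G`; for a clique `σ` its link is the clique complex on
the common neighbourhood `N(σ)`, and `κ(S)` is the sum of `(-1/2)^|τ|` over the cliques in `S`.
A closed nonpositively curved cubical manifold has flag links and `χ(X) = ∑ κ(link x)`.
-/

open Finset

namespace Pool.Agent.Helper51.CD.Cube

variable {V : Type}

open scoped Classical in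
/-- The cliques of the graph `G` all of whose vertices lie in `S`. -/
noncomputable def cliquesIn (G : SimpleGraph V) (S : Finset V) : Finset (Finset V) :=
  S.powerset.filter (fun τ => G.IsClique (τ : Set V))

open scoped Classical in
/-- The vertices adjacent to every vertex of `σ` (the vertices of the link of `σ`). -/
noncomputable def commonNbrs [Fintype V] (G : SimpleGraph V) (σ : Finset V) : Finset V :=
  Finset.univ.filter (fun v => ∀ u ∈ σ, G.Adj u v)

open scoped Classical in
/-- The vertices of `S` different from `v` and not adjacent to `v`. -/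
noncomputable def far (G : SimpleGraph V) (S : Finset V) (v : V) : Finset V :=
  S.filter (fun u => u ≠ v ∧ ¬ G.Adj v u)

/-- The sum of `(-1/2)^|τ|` over the cliques `τ` of `G` inside `S`. -/
noncomputable def kappa (G : SimpleGraph V) (S : Finset V) : ℚ :=
  ∑ τ ∈ cliquesIn G S, (-1 / 2 : ℚ) ^ τ.card

theorem mem_cliquesIn {G : SimpleGraph V} {S τ : Finset V} :
    τ ∈ cliquesIn G S ↔ τ ⊆ S ∧ G.IsClique (τ : Set V) := by
  classical
  simp [cliquesIn]

theorem mem_commonNbrs [Fintype V] {G : SimpleGraph V} {σ : Finset V} {v : V} :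
    v ∈ commonNbrs G σ ↔ ∀ u ∈ σ, G.Adj u v := by
  classical
  simp [commonNbrs]

theorem mem_far {G : SimpleGraph V} {S : Finset V} {u v : V} :
    u ∈ far G S v ↔ u ∈ S ∧ u ≠ v ∧ ¬ G.Adj v u := by
  classical
  simp [far]

/-- The flag complex of `G` is pure of dimension `2k-1` and Eulerian: every maximal clique has
`2k` elements, and the link of every clique has the Euler characteristic of a sphere. -/
structure EulerianFlag [Fintype V] (G : SimpleGraph V) (k : ℕ) : Prop where
  pure : ∀ σ : Finset V, G.IsClique (σ : Set V) → commonNbrs G σ = ∅ → σ.card = 2 * k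
  euler : ∀ σ : Finset V, G.IsClique (σ : Set V) →
    ∑ τ ∈ cliquesIn G (commonNbrs G σ), (-1 : ℤ) ^ τ.card = (-1) ^ σ.card

/-- Exchange of summation: cliques of `S` with a distinguished part inside `U`, against cliques
of `U` and cliques of `S` in their common neighbourhood. -/
theorem sum_exchange [Fintype V] (G : SimpleGraph V) (S U : Finset V) (hU : U ⊆ S)
    (F : Finset V → Finset V → ℚ) [DecidableEq V] :
    ∑ π ∈ cliquesIn G S, ∑ τ ∈ (π ∩ U).powerset, F τ π =
      ∑ τ ∈ cliquesIn G U, ∑ ρ ∈ cliquesIn G (S ∩ commonNbrs G τ), F τ (τ ∪ ρ) := by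
  rw [Finset.sum_sigma', Finset.sum_sigma']
  refine Finset.sum_bij' (fun p _ => ⟨p.2, p.1 \ p.2⟩) (fun q _ => ⟨q.1 ∪ q.2, q.1⟩) ?_ ?_ ?_ ?_ ?_
  · rintro ⟨π, τ⟩ h
    simp only [mem_sigma, mem_cliquesIn, mem_powerset] at h ⊢
    obtain ⟨⟨h1, h2⟩, h3⟩ := h
    have hτπ : τ ⊆ π := h3.trans inter_subset_left
    refine ⟨⟨h3.trans inter_subset_right, h2.subset (by exact_mod_cast hτπ)⟩, ?_, ?_⟩
    · intro x hx
      rw [mem_sdiff] at hx
      rw [mem_inter, mem_commonNbrs]
      refine ⟨h1 hx.1, fun u hu => ?_⟩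
      exact h2 (by exact_mod_cast hτπ hu) (by exact_mod_cast hx.1) (fun e => hx.2 (e ▸ hu))
    · exact h2.subset (by exact_mod_cast sdiff_subset)
  · rintro ⟨τ, ρ⟩ h
    simp only [mem_sigma, mem_cliquesIn, mem_powerset] at h ⊢
    obtain ⟨⟨h1, h2⟩, h3, h4⟩ := h
    refine ⟨⟨union_subset (h1.trans hU) (h3.trans inter_subset_left), ?_⟩,
      subset_inter subset_union_left h1⟩
    rw [coe_union]
    intro x hx y hy hxy
    rcases hx with hx | hx <;> rcases hy with hy | hy
    · exact h2 hx hy hxy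
    · have := h3 (by exact_mod_cast hy)
      rw [mem_inter, mem_commonNbrs] at this
      exact this.2 x (by exact_mod_cast hx)
    · have := h3 (by exact_mod_cast hx)
      rw [mem_inter, mem_commonNbrs] at this
      exact (this.2 y (by exact_mod_cast hy)).symm
    · exact h4 hx hy hxy
  · rintro ⟨π, τ⟩ h
    simp only [mem_sigma, mem_cliquesIn, mem_powerset] at h ⊢
    have hτπ : τ ⊆ π := h.2.trans inter_subset_left
    simp [union_sdiff_of_subset hτπ]
  · rintro ⟨τ, ρ⟩ h
    simp only [mem_sigma, mem_cliquesIn] at h ⊢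
    have hd : Disjoint τ ρ := by
      rw [Finset.disjoint_left]
      intro x hx hx'
      have := h.2.1 hx'
      rw [mem_inter, mem_commonNbrs] at this
      exact G.loopless.irrefl x (this.2 x hx)
    simp only [Sigma.mk.injEq, heq_eq_eq, true_and]
    exact Finset.union_sdiff_cancel_left hd
  · rintro ⟨π, τ⟩ h
    simp only [mem_sigma, mem_cliquesIn, mem_powerset] at h ⊢
    have hτπ : τ ⊆ π := h.2.trans inter_subset_left
    simp [union_sdiff_of_subset hτπ]

theorem disjoint_of_mem [Fintype V] {G : SimpleGraph V} {S τ ρ : Finset V} [DecidableEq V]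
    (h : ρ ∈ cliquesIn G (S ∩ commonNbrs G τ)) : Disjoint τ ρ := by
  rw [Finset.disjoint_left]
  intro x hx hx'
  have := (mem_cliquesIn.1 h).1 hx'
  rw [mem_inter, mem_commonNbrs] at this
  exact G.loopless.irrefl x (this.2 x hx)

/-- Inclusion and exclusion for the weighted clique count. -/
theorem kappa_sdiff [Fintype V] (G : SimpleGraph V) (S U : Finset V) (hU : U ⊆ S)
    [DecidableEq V] :
    kappa G (S \ U) = ∑ τ ∈ cliquesIn G U, (1 / 2 : ℚ) ^ τ.card * kappa G (S ∩ commonNbrs G τ) := by
  have key := sum_exchange G S U hU (fun τ π => (-1 : ℚ) ^ τ.card * (-1 / 2 : ℚ) ^ π.card)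
  have hl : ∑ π ∈ cliquesIn G S, ∑ τ ∈ (π ∩ U).powerset,
      (-1 : ℚ) ^ τ.card * (-1 / 2 : ℚ) ^ π.card = kappa G (S \ U) := by
    have h1 : ∀ π ∈ cliquesIn G S, ∑ τ ∈ (π ∩ U).powerset,
        (-1 : ℚ) ^ τ.card * (-1 / 2 : ℚ) ^ π.card =
        if π ∩ U = ∅ then (-1 / 2 : ℚ) ^ π.card else 0 := by
      intro π _
      rw [← Finset.sum_mul]
      have h2 : ∑ τ ∈ (π ∩ U).powerset, (-1 : ℚ) ^ τ.card =
          ((∑ τ ∈ (π ∩ U).powerset, (-1 : ℤ) ^ τ.card : ℤ) : ℚ) := by
        push_cast; rfl
      rw [h2, Finset.sum_powerset_neg_one_pow_card]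
      split_ifs <;> simp
    rw [Finset.sum_congr rfl h1, ← Finset.sum_filter]
    unfold kappa
    refine Finset.sum_congr ?_ (fun _ _ => rfl)
    ext π
    simp only [mem_filter, mem_cliquesIn, subset_sdiff, Finset.disjoint_iff_inter_eq_empty]
    tauto
  rw [← hl, key]
  refine Finset.sum_congr rfl (fun τ _ => ?_)
  unfold kappa
  rw [Finset.mul_sum]
  refine Finset.sum_congr rfl (fun ρ hρ => ?_)
  rw [Finset.card_union_of_disjoint (disjoint_of_mem hρ), pow_add, ← mul_assoc, ← mul_pow]
  norm_num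

theorem commonNbrs_union [Fintype V] (G : SimpleGraph V) (σ τ : Finset V) [DecidableEq V] :
    commonNbrs G (σ ∪ τ) = commonNbrs G σ ∩ commonNbrs G τ := by
  ext v
  simp only [mem_commonNbrs, mem_inter, mem_union]
  constructor
  · intro h
    exact ⟨fun u hu => h u (Or.inl hu), fun u hu => h u (Or.inr hu)⟩
  · rintro ⟨h1, h2⟩ u (hu | hu)
    · exact h1 u hu
    · exact h2 u hu

theorem isClique_union [Fintype V] {G : SimpleGraph V} {σ τ : Finset V} [DecidableEq V]
    (hσ : G.IsClique (σ : Set V)) (hτ : τ ∈ cliquesIn G (commonNbrs G σ)) :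
    G.IsClique ((σ ∪ τ : Finset V) : Set V) ∧ (σ ∪ τ).card = σ.card + τ.card := by
  obtain ⟨h1, h2⟩ := mem_cliquesIn.1 hτ
  constructor
  · rw [coe_union]
    intro x hx y hy hxy
    rcases hx with hx | hx <;> rcases hy with hy | hy
    · exact hσ hx hy hxy
    · exact mem_commonNbrs.1 (h1 (by exact_mod_cast hy)) x (by exact_mod_cast hx)
    · exact (mem_commonNbrs.1 (h1 (by exact_mod_cast hx)) y (by exact_mod_cast hy)).symm
    · exact h2 hx hy hxy
  · apply Finset.card_union_of_disjoint
    rw [Finset.disjoint_left]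
    intro x hx hx'
    exact G.loopless.irrefl x (mem_commonNbrs.1 (h1 hx') x hx)

/-- The Dehn-Sommerville relation at `-1/2`. -/
theorem kappa_reflect [Fintype V] {G : SimpleGraph V} {k : ℕ} (hE : EulerianFlag G k)
    {σ : Finset V} (hσ : G.IsClique (σ : Set V)) [DecidableEq V] :
    kappa G (commonNbrs G σ) = (-1) ^ σ.card * kappa G (commonNbrs G σ) := by
  set S := commonNbrs G σ with hS
  have key := sum_exchange G S S (subset_refl S)
    (fun τ π => (-1 : ℚ) ^ π.card * (-1 / 2 : ℚ) ^ τ.card)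
  have hl : ∑ π ∈ cliquesIn G S, ∑ τ ∈ (π ∩ S).powerset,
      (-1 : ℚ) ^ π.card * (-1 / 2 : ℚ) ^ τ.card = kappa G S := by
    unfold kappa
    refine Finset.sum_congr rfl (fun π hπ => ?_)
    rw [inter_eq_left.2 (mem_cliquesIn.1 hπ).1, ← Finset.mul_sum]
    have h3 := Finset.sum_pow_mul_eq_add_pow (-1 / 2 : ℚ) 1 π
    simp only [one_pow, mul_one] at h3
    rw [h3, ← mul_pow]
    norm_num
  conv_lhs => rw [← hl, key]
  unfold kappa
  rw [Finset.mul_sum]
  refine Finset.sum_congr rfl (fun τ hτ => ?_)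
  have h4 := isClique_union hσ hτ
  have h5 := hE.euler (σ ∪ τ) h4.1
  rw [commonNbrs_union, ← hS, h4.2] at h5
  have h6 : ∑ ρ ∈ cliquesIn G (S ∩ commonNbrs G τ), (-1 : ℚ) ^ ρ.card =
      (-1) ^ (σ.card + τ.card) := by exact_mod_cast h5
  have h7 : ∀ ρ ∈ cliquesIn G (S ∩ commonNbrs G τ),
      (-1 : ℚ) ^ (τ ∪ ρ).card * (-1 / 2 : ℚ) ^ τ.card =
      ((-1 : ℚ) ^ τ.card * (-1 / 2 : ℚ) ^ τ.card) * (-1 : ℚ) ^ ρ.card := by
    intro ρ hρ
    rw [Finset.card_union_of_disjoint (disjoint_of_mem hρ), pow_add]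
    ring
  rw [Finset.sum_congr rfl h7, ← Finset.mul_sum, h6, pow_add]
  have h8 : (-1 : ℚ) ^ τ.card * (-1 : ℚ) ^ τ.card = 1 := by
    rw [← mul_pow]; norm_num
  calc (-1 : ℚ) ^ τ.card * (-1 / 2) ^ τ.card * ((-1) ^ σ.card * (-1) ^ τ.card)
      = ((-1 : ℚ) ^ τ.card * (-1 : ℚ) ^ τ.card) * ((-1) ^ σ.card * (-1 / 2) ^ τ.card) := by ring
    _ = (-1) ^ σ.card * (-1 / 2) ^ τ.card := by rw [h8, one_mul]

theorem kappa_odd [Fintype V] {G : SimpleGraph V} {k : ℕ} (hE : EulerianFlag G k)
    {σ : Finset V} (hσ : G.IsClique (σ : Set V)) (ho : Odd σ.card) :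
    kappa G (commonNbrs G σ) = 0 := by
  classical
  have h := kappa_reflect hE hσ
  rw [ho.neg_one_pow] at h
  linarith

/-- A closed star has half the value of the link. -/
theorem kappa_star [Fintype V] (G : SimpleGraph V) (S : Finset V) {v : V} (hv : v ∈ S)
    [DecidableEq V] :
    kappa G (S \ far G S v) = 1 / 2 * kappa G (S ∩ commonNbrs G {v}) := by
  set T := S \ far G S v with hT
  have hvT : v ∈ T := by
    rw [hT, mem_sdiff, mem_far]
    exact ⟨hv, fun h => h.2.1 rfl⟩
  have h1 := kappa_sdiff G T {v} (by simpa using hvT)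
  have h2 : cliquesIn G {v} = {∅, {v}} := by
    ext τ
    simp only [mem_cliquesIn, subset_singleton_iff, mem_insert, mem_singleton]
    constructor
    · rintro ⟨h, _⟩; exact h
    · rintro (h | h)
      · subst h; simp
      · subst h; simp
  have h3 : T ∩ commonNbrs G {v} = S ∩ commonNbrs G {v} := by
    ext x
    simp only [hT, mem_inter, mem_sdiff, mem_far, mem_commonNbrs, mem_singleton, forall_eq]
    tauto
  have h4 : T \ {v} = S ∩ commonNbrs G {v} := by
    ext x
    simp only [hT, mem_inter, mem_sdiff, mem_far, mem_commonNbrs, mem_singleton, forall_eq]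
    constructor
    · rintro ⟨⟨h5, h6⟩, h7⟩
      refine ⟨h5, ?_⟩
      by_contra h8
      exact h6 ⟨h5, h7, h8⟩
    · rintro ⟨h5, h6⟩
      exact ⟨⟨h5, fun h7 => h7.2.2 h6⟩, fun h7 => G.loopless.irrefl v (h7 ▸ h6)⟩
  have h5 : T ∩ commonNbrs G ∅ = T := by
    ext x
    simp [mem_commonNbrs]
  rw [h2, Finset.sum_pair (by simp), h4, h3, h5] at h1
  simp only [card_empty, pow_zero, one_mul, card_singleton, pow_one] at h1
  linarith

/-- The recursion of the theorem. -/
theorem kappa_step [Fintype V] {G : SimpleGraph V} {k : ℕ} (hE : EulerianFlag G k)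
    {σ : Finset V} (hσ : G.IsClique (σ : Set V)) (he : Even σ.card) {v : V}
    (hv : v ∈ commonNbrs G σ) [DecidableEq V] :
    kappa G (commonNbrs G σ) =
      - ∑ τ ∈ (cliquesIn G (far G (commonNbrs G σ) v)).filter (fun τ => τ.card ≠ 0),
        (1 / 2 : ℚ) ^ τ.card * kappa G (commonNbrs G (σ ∪ τ)) := by
  set S := commonNbrs G σ with hS
  have hU : far G S v ⊆ S := fun x hx => (mem_far.1 hx).1
  have h1 := kappa_sdiff G S (far G S v) hU
  have h2 : kappa G (S \ far G S v) = 0 := by
    rw [kappa_star G S hv]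
    have h3 : ({v} : Finset V) ∈ cliquesIn G (commonNbrs G σ) := by
      rw [mem_cliquesIn]
      exact ⟨by simpa using hv, by simp⟩
    have h4 := isClique_union hσ h3
    have h5 := kappa_odd hE h4.1 (by
      rw [h4.2, card_singleton]; exact he.add_one)
    rw [commonNbrs_union] at h5
    rw [h5, mul_zero]
  rw [h2, ← Finset.sum_filter_add_sum_filter_not _ (fun τ => τ.card ≠ 0)] at h1
  have h6 : ∑ τ ∈ (cliquesIn G (far G S v)).filter (fun τ => ¬ τ.card ≠ 0),
      (1 / 2 : ℚ) ^ τ.card * kappa G (S ∩ commonNbrs G τ) = kappa G S := by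
    have h7 : (cliquesIn G (far G S v)).filter (fun τ => ¬ τ.card ≠ 0) = {∅} := by
      ext τ
      simp only [mem_filter, mem_cliquesIn, not_not, card_eq_zero, mem_singleton]
      constructor
      · exact fun h => h.2
      · intro h; subst h; simp
    have h8 : S ∩ commonNbrs G ∅ = S := by
      ext x
      simp [mem_commonNbrs]
    rw [h7, Finset.sum_singleton, h8]
    simp
  rw [h6] at h1
  have h9 : ∀ τ ∈ (cliquesIn G (far G S v)).filter (fun τ => τ.card ≠ 0),
      (1 / 2 : ℚ) ^ τ.card * kappa G (commonNbrs G (σ ∪ τ)) =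
      (1 / 2 : ℚ) ^ τ.card * kappa G (S ∩ commonNbrs G τ) := by
    intro τ _
    rw [commonNbrs_union]
  rw [Finset.sum_congr rfl h9]
  linarith

/-- A finite cube complex with flag vertex links, recorded by its corners. A cell of dimension
`i` is a cube with `2^i` corners; the germ of the complex at the vertex `x` is described by a
finite graph `link x` on the set `Dir x` of edges starting at `x`, and the corners at `x` of
cells of dimension `i` correspond bijectively to the `i`-cliques of `link x` (so the link of `x`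
is the clique complex of `link x`). -/
structure CubeComplex where
  /-- the vertices -/
  Vert : Type
  /-- the cells of all dimensions, vertices included -/
  Cell : Type
  finVert : Fintype Vert
  finCell : Fintype Cell
  /-- the dimension of a cell -/
  dim : Cell → ℕ
  /-- the edges starting at a vertex -/
  Dir : Vert → Type
  finDir : ∀ x, Fintype (Dir x)
  /-- two edges at `x` are adjacent when they span a square with corner `x` -/
  link : ∀ x, SimpleGraph (Dir x)
  /-- the corner of a cube belonging to one of its vertices, as a simplex of the link -/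
  corner : (Σ c : Cell, (Fin (dim c) → Bool)) ≃
    (Σ x : Vert, {σ : Finset (Dir x) // (link x).IsClique (σ : Set (Dir x))})
  corner_card : ∀ p, (corner p).2.1.card = dim p.1

attribute [instance] CubeComplex.finVert CubeComplex.finCell CubeComplex.finDir

/-- The Euler characteristic: the alternating sum of the numbers of cells. -/
def CubeComplex.euler (X : CubeComplex) : ℤ := ∑ c : X.Cell, (-1) ^ X.dim c

theorem CubeComplex.euler_eq (X : CubeComplex) :
    (X.euler : ℚ) = ∑ x : X.Vert, kappa (X.link x) (commonNbrs (X.link x) ∅) := by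
  classical
  have h1 : (X.euler : ℚ) =
      ∑ p : (Σ c : X.Cell, (Fin (X.dim c) → Bool)), (-1 / 2 : ℚ) ^ X.dim p.1 := by
    rw [Fintype.sum_sigma, CubeComplex.euler]
    push_cast
    refine Finset.sum_congr rfl (fun c _ => ?_)
    rw [Finset.sum_const, Finset.card_univ, Fintype.card_fun, Fintype.card_bool, Fintype.card_fin,
      nsmul_eq_mul]
    push_cast
    rw [← mul_pow]
    norm_num
  rw [h1]
  have h2 : ∑ p : (Σ c : X.Cell, (Fin (X.dim c) → Bool)), (-1 / 2 : ℚ) ^ X.dim p.1 =
      ∑ q : (Σ x : X.Vert, {σ : Finset (X.Dir x) // (X.link x).IsClique (σ : Set (X.Dir x))}),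
        (-1 / 2 : ℚ) ^ q.2.1.card := by
    refine Fintype.sum_equiv X.corner _ _ (fun p => ?_)
    rw [X.corner_card p]
  rw [h2, Fintype.sum_sigma]
  refine Finset.sum_congr rfl (fun x _ => ?_)
  have h3 : commonNbrs (X.link x) ∅ = Finset.univ := by
    ext v
    simp [mem_commonNbrs]
  rw [h3]
  unfold kappa
  refine Finset.sum_bij (fun σ _ => σ.1) ?_ ?_ ?_ ?_
  · intro σ _
    rw [mem_cliquesIn]
    exact ⟨subset_univ _, σ.2⟩
  · intro a _ b _ h
    exact Subtype.ext h
  · intro b hb
    exact ⟨⟨b, (mem_cliquesIn.1 hb).2⟩, mem_univ _, rfl⟩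
  · intro σ _
    rfl

end Pool.Agent.Helper51.CD.Cube
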