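import Pool.Agent.Helper51.CD.Defs2
import Pool.Agent.Helper51.CD.Cube

/-!
# Certificates for the links of a cubical manifold
-/

open Finset

namespace Pool.Agent.Helper51.CD

open Pool.Agent.Helper51.CD.Cube

variable {X : Type}

/-- Exactness of the reduced rational cochain complex of the link of `σ` at the cliques of
size `j`. -/
def ExactLink [Fintype X] [LinearOrder X] (G : SimpleGraph X) (σ : Finset X) (j : ℕ) : Prop :=
  ∀ f : Finset X → ℚ,
    (∀ τ ∈ cliquesIn G (commonNbrs G σ), τ.card = j + 1 → ∑ x ∈ τ, sg x τ * f (τ.erase x) = 0) →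
    ∃ g : Finset X → ℚ, ∀ τ ∈ cliquesIn G (commonNbrs G σ), τ.card = j →
      f τ = ∑ x ∈ τ, sg x τ * g (τ.erase x)

open scoped Classical in
/-- `Cert G k σ`: a certificate for the sign of the weighted clique count of the link of the
even clique `σ` in a flag complex of dimension `2k-1`. Either (`tame`) the links of all odd cliques
containing `σ` are tame and the links of the even cliques containing `σ` have no reduced rational
cohomology below the middle (this holds in a homology sphere); or (`step`) for some vertex `v` of
the link and every nonempty clique `τ` of vertices of the link different from and not adjacent to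
`v`: the link of `σ ∪ τ` has a certificate if `|τ|` is `2` modulo `4`, and weighted clique count
zero if `|τ|` is divisible by `4`. -/
inductive Cert [Fintype X] (G : SimpleGraph X) (k : ℕ) : Finset X → Prop
  | tame (σ : Finset X)
      (hT : ∀ ρ : Finset X, G.IsClique (ρ : Set X) → σ ⊆ ρ → Odd ρ.card →
        TameK G ↑(cliquesIn G (commonNbrs G ρ)))
      (hL : ∃ _ : LinearOrder X, ∀ ρ : Finset X, G.IsClique (ρ : Set X) → σ ⊆ ρ → Even ρ.card →
        ∀ j : ℕ, 2 * j + ρ.card < 2 * k → ExactLink G ρ j) : Cert G k σ
  | step (σ : Finset X) (v : X) (hv : v ∈ commonNbrs G σ)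
      (h2 : ∀ τ ∈ cliquesIn G (far G (commonNbrs G σ) v), τ.card % 4 = 2 → Cert G k (σ ∪ τ))
      (h0 : ∀ τ ∈ cliquesIn G (far G (commonNbrs G σ) v), τ.card % 4 = 0 → τ.card ≠ 0 →
        kappa G (commonNbrs G (σ ∪ τ)) = 0) : Cert G k σ

end Pool.Agent.Helper51.CD
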