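import Pool.Agent.Helper51.CD.Basic

/-!
# CD5: Euler characteristic

For fixed signs S (write s for tw S s) and F = all cliques: dim CC F s j = sum over the cliques t of
size j of dim Fix(t), Fix(t) = the vectors fixed by s x for all x in t. Rank and nullity for
Di : CC j to CC (j+1): dim CC j = z_j + b_(j+1), z_j = dim of the cocycles, b_j = dim of the
coboundaries in degree j; z_j = b_j for j not n and z_n ≥ b_n. So
(-1)^n * sum over j of (-1)^j dim CC j = z_n - b_n ≥ 0.
Sum over all finite sets S: the sum over S of dim Fix_S(t) is 2^(|X| - |t|) dim V, because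
Fix_S(t + x) for x in S and for x not in S are complementary in Fix_S(t) (s x commutes with the
s y, y in t, t + x a clique; s x is an involution). So the sum over S is
2^|X| dim V * sum over cliques of (-1/2)^|t|, and dim V > 0.
-/

open Finset

namespace Pool.Agent.Helper51.CD

variable {X : Type} [LinearOrder X]
variable {V : Type} [AddCommGroup V] [Module ℚ V]
variable {F F1 : Set (Finset X)} {s : X → Module.End ℚ V} {d : ℤ}

/-- The vectors fixed by all members of `t`. -/
def eulFx (s : X → Module.End ℚ V) (t : Finset X) : Submodule ℚ V where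
  carrier := {v | ∀ x ∈ t, s x v = v}
  add_mem' := by
    intro a b ha hb x hx
    rw [map_add, ha x hx, hb x hx]
  zero_mem' := by
    intro x _
    rw [map_zero]
  smul_mem' := by
    intro r a ha x hx
    rw [map_smul, ha x hx]

theorem eul_mem_Fx {s : X → Module.End ℚ V} {t : Finset X} {v : V} :
    v ∈ eulFx s t ↔ ∀ x ∈ t, s x v = v := Iff.rfl

omit [LinearOrder X] in
theorem eul_tw_inv (hs : ∀ x, s x * s x = 1) (S : Set X) (x : X) :
    tw S s x * tw S s x = 1 := by
  unfold tw
  split_ifs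
  · rw [neg_mul_neg]; exact hs x
  · exact hs x

omit [LinearOrder X] in
theorem eul_tw_comm (S : Set X) {x y : X}
    (h1 : s x * s y = s y * s x) : tw S s x * tw S s y = tw S s y * tw S s x := by
  unfold tw
  split_ifs <;> simp [h1]

omit [LinearOrder X] in
theorem eul_mem_fam [Fintype X] {G : SimpleGraph X} {τ : Finset X} :
    τ ∈ fam G ∅ univ ↔ G.IsClique (τ : Set X) := by
  simp [fam]

omit [LinearOrder X] in
theorem eul_ok_fam [Fintype X] {G : SimpleGraph X} (hs : IsSys G s) :
    Ok (fam G ∅ univ) s where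
  conv := by
    intro τ hτ ρ _ π _ h2
    rw [eul_mem_fam] at hτ ⊢
    exact hτ.subset (by exact_mod_cast h2)
  inv := hs.inv
  comm := by
    intro τ hτ x hx y hy
    rw [eul_mem_fam] at hτ
    by_cases h : x = y
    · rw [h]
    · exact hs.comm x y (hτ (by exact_mod_cast hx) (by exact_mod_cast hy) h)

omit [LinearOrder X] in
theorem eul_ok (h : Ok F s) (S : Set X) : Ok F (tw S s) where
  conv := h.conv
  inv := eul_tw_inv h.inv S
  comm := fun τ hτ x hx y hy => eul_tw_comm S (h.comm τ hτ x hx y hy)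

/-- The identification of the cochains of degree `j`. -/
noncomputable def eulEquiv [Fintype X] (F : Set (Finset X)) (s : X → Module.End ℚ V) (j : ℕ)
    (K : Finset (Finset X)) (hK : ∀ τ, τ ∈ K ↔ τ ∈ F) :
    CC F s (j : ℤ) ≃ₗ[ℚ]
      (∀ t : {t // t ∈ K.filter (fun t => t.card = j)}, eulFx s t.1) where
  toFun c := fun t => ⟨c.1 t.1, fun x hx => c.2.2.2 t.1 x hx⟩
  map_add' := by intro a b; rfl
  map_smul' := by intro r a; rfl
  invFun f := ⟨fun τ => if h : τ ∈ K.filter (fun t => t.card = j) then (f ⟨τ, h⟩ : V) else 0, by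
    refine ⟨fun τ h => ?_, fun τ h => ?_, fun τ x hx => ?_⟩
    · dsimp only
      rw [dif_neg]
      intro h1
      rw [mem_filter] at h1
      exact h ((hK τ).1 h1.1)
    · dsimp only
      rw [dif_neg]
      intro h1
      rw [mem_filter] at h1
      exact h (by exact_mod_cast h1.2)
    · by_cases h : τ ∈ K.filter (fun t => t.card = j)
      · simp only [dif_pos h]
        exact (f ⟨τ, h⟩).2 x hx
      · simp only [dif_neg h]
        exact map_zero _⟩
  left_inv := by
    intro c
    apply Subtype.ext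
    funext τ
    by_cases h : τ ∈ K.filter (fun t => t.card = j)
    · simp only [dif_pos h]
    · simp only [dif_neg h]
      rw [mem_filter, not_and_or] at h
      rcases h with h | h
      · refine (c.2.1 τ ?_).symm
        rw [← hK]
        exact h
      · refine (c.2.2.1 τ ?_).symm
        exact_mod_cast h
  right_inv := by
    intro f
    funext t
    apply Subtype.ext
    simp only [dif_pos t.2]

theorem eul_finrank_CC [Fintype X] [FiniteDimensional ℚ V] (F : Set (Finset X))
    (s : X → Module.End ℚ V) (j : ℕ)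
    (K : Finset (Finset X)) (hK : ∀ τ, τ ∈ K ↔ τ ∈ F) :
    Module.finrank ℚ (CC F s (j : ℤ)) =
      ∑ t ∈ K.filter (fun t => t.card = j), Module.finrank ℚ (eulFx s t) := by
  rw [(eulEquiv F s j K hK).finrank_eq, Module.finrank_pi_fintype]
  exact Finset.sum_coe_sort (K.filter (fun t => t.card = j))
    (fun t => Module.finrank ℚ (eulFx s t))

/-- Cocycles. -/
noncomputable def eulZ (F : Set (Finset X)) (s : X → Module.End ℚ V) (d : ℤ) :
    Submodule ℚ (Finset X → V) := CC F s d ⊓ LinearMap.ker (Di F s)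

/-- Coboundaries. -/
noncomputable def eulB (F : Set (Finset X)) (s : X → Module.End ℚ V) (d : ℤ) :
    Submodule ℚ (Finset X → V) := (CC F s (d - 1)).map (Di F s)

theorem eul_rank [Fintype X] [FiniteDimensional ℚ V] (F : Set (Finset X))
    (s : X → Module.End ℚ V) (d : ℤ) :
    Module.finrank ℚ (CC F s d) =
      Module.finrank ℚ (eulZ F s d) + Module.finrank ℚ (eulB F s (d + 1)) := by
  have h1 := LinearMap.finrank_range_add_finrank_ker ((Di F s).domRestrict (CC F s d))
  rw [LinearMap.range_domRestrict, LinearMap.ker_domRestrict] at h1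
  have h2 : Module.finrank ℚ (Submodule.comap (CC F s d).subtype (LinearMap.ker (Di F s))) =
      Module.finrank ℚ (eulZ F s d) := by
    have h3 : Submodule.comap (CC F s d).subtype (LinearMap.ker (Di F s)) =
        Submodule.comap (CC F s d).subtype (eulZ F s d) := by
      ext c
      simp [eulZ]
    rw [h3]
    exact (Submodule.comapSubtypeEquivOfLe (inf_le_left : eulZ F s d ≤ CC F s d)).finrank_eq
  unfold eulB
  rw [add_sub_cancel_right]
  omega

theorem eul_B_le_Z (h : Ok F s) : eulB F s d ≤ eulZ F s d := by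
  rintro c hc
  obtain ⟨b, hb, rfl⟩ := Submodule.mem_map.1 hc
  refine Submodule.mem_inf.2 ⟨?_, ?_⟩
  · have h1 := Di_mem h hb
    rwa [sub_add_cancel] at h1
  · rw [LinearMap.mem_ker]
    exact Di_Di h hb

theorem eul_Z_le_B (h : ExAt F s d) : eulZ F s d ≤ eulB F s d := by
  intro c hc
  obtain ⟨h1, h2⟩ := Submodule.mem_inf.1 hc
  obtain ⟨b, hb, hb2⟩ := h c h1 (LinearMap.mem_ker.1 h2)
  exact Submodule.mem_map.2 ⟨b, hb, hb2⟩

omit [LinearOrder X] in
theorem eul_CC_neg (F : Set (Finset X)) (s : X → Module.End ℚ V) :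
    CC F s (-1) = ⊥ := by
  rw [eq_bot_iff]
  intro c hc
  rw [Submodule.mem_bot]
  funext τ
  refine hc.2.1 τ ?_
  have : (0 : ℤ) ≤ τ.card := by positivity
  omega

omit [LinearOrder X] in
theorem eul_CC_big [Fintype X] (F : Set (Finset X)) (s : X → Module.End ℚ V) {j : ℕ}
    (hj : Fintype.card X < j) : CC F s (j : ℤ) = ⊥ := by
  rw [eq_bot_iff]
  intro c hc
  rw [Submodule.mem_bot]
  funext τ
  refine hc.2.1 τ ?_
  have h1 := Finset.card_le_univ τ
  intro h2
  have h3 : τ.card = j := by exact_mod_cast h2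
  omega

/-- The Euler characteristic of a truncated complex. -/
theorem eul_sum (z b D : ℕ → ℤ) (n : ℕ) (hD : ∀ j, D j = z j + b (j + 1))
    (hz : ∀ j, j ≠ n → z j = b j) (hb0 : b 0 = 0) (M : ℕ) (hM : n < M) :
    ∑ j ∈ range M, (-1 : ℤ) ^ j * D j = (-1) ^ n * (z n - b n) - (-1) ^ M * b M := by
  have key : ∀ M, ∑ j ∈ range M, (-1 : ℤ) ^ j * D j =
      (if n < M then (-1) ^ n * (z n - b n) else 0) - (-1) ^ M * b M := by
    intro M
    induction M with
    | zero => simp [hb0]
    | succ M ih =>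
      rw [sum_range_succ, ih, hD, pow_succ]
      rcases lt_trichotomy n M with h | h | h
      · rw [if_pos h, if_pos (by omega), hz M (by omega)]
        ring
      · subst h
        rw [if_neg (lt_irrefl _), if_pos (by omega)]
        ring
      · rw [if_neg (by omega), if_neg (by omega), hz M (by omega)]
        ring
  rw [key M, if_pos hM]

theorem eul_one [Fintype X] [FiniteDimensional ℚ V] {F : Set (Finset X)}
    {s : X → Module.End ℚ V} (hok : Ok F s) (n : ℕ)
    (hex : ∀ (d : ℤ), d ≠ n → ExAt F s d) (K : Finset (Finset X))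
    (hK : ∀ τ, τ ∈ K ↔ τ ∈ F) :
    0 ≤ (-1 : ℤ) ^ n * ∑ τ ∈ K, (-1 : ℤ) ^ τ.card * (Module.finrank ℚ (eulFx s τ) : ℤ) := by
  have h1 := eul_sum (fun j => (Module.finrank ℚ (eulZ F s (j : ℤ)) : ℤ))
    (fun j => (Module.finrank ℚ (eulB F s (j : ℤ)) : ℤ))
    (fun j => (Module.finrank ℚ (CC F s (j : ℤ)) : ℤ)) n ?_ ?_ ?_ (n + Fintype.card X + 2)
    (by omega)
  · have hbM : Module.finrank ℚ (eulB F s ((n + Fintype.card X + 2 : ℕ) : ℤ)) = 0 := by
      have h2 : (((n + Fintype.card X + 2 : ℕ) : ℤ) - 1) = ((n + Fintype.card X + 1 : ℕ) : ℤ) := by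
        push_cast; ring
      have h3 : eulB F s ((n + Fintype.card X + 2 : ℕ) : ℤ) = ⊥ := by
        unfold eulB
        rw [h2, eul_CC_big F s (by omega), Submodule.map_bot]
      rw [h3, finrank_bot]
    have h3 : ∑ τ ∈ K, (-1 : ℤ) ^ τ.card * (Module.finrank ℚ (eulFx s τ) : ℤ) =
        ∑ j ∈ range (n + Fintype.card X + 2),
          (-1 : ℤ) ^ j * (Module.finrank ℚ (CC F s (j : ℤ)) : ℤ) := by
      rw [← Finset.sum_fiberwise_of_maps_to (s := K) (t := range (n + Fintype.card X + 2))
        (g := fun τ => τ.card)]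
      · refine Finset.sum_congr rfl fun j _ => ?_
        rw [eul_finrank_CC F s j K hK]
        push_cast
        rw [Finset.mul_sum]
        refine Finset.sum_congr rfl fun τ hτ => ?_
        rw [(mem_filter.1 hτ).2]
      · intro τ _
        rw [mem_range]
        have := Finset.card_le_univ τ
        omega
    rw [h3, h1]
    simp only [hbM]
    have h4 : ((-1 : ℤ) ^ n) * (-1) ^ n = 1 := by
      rw [← mul_pow]; simp
    have h5 : Module.finrank ℚ (eulB F s (n : ℤ)) ≤ Module.finrank ℚ (eulZ F s (n : ℤ)) :=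
      Submodule.finrank_mono (eul_B_le_Z hok)
    have h6 : (Module.finrank ℚ (eulB F s (n : ℤ)) : ℤ) ≤ Module.finrank ℚ (eulZ F s (n : ℤ)) := by
      exact_mod_cast h5
    have h7 : (-1 : ℤ) ^ n * ((-1) ^ n * ((Module.finrank ℚ (eulZ F s (n : ℤ)) : ℤ) -
        Module.finrank ℚ (eulB F s (n : ℤ))) - (-1) ^ (n + Fintype.card X + 2) * ((0 : ℕ) : ℤ)) =
        ((-1 : ℤ) ^ n * (-1) ^ n) * ((Module.finrank ℚ (eulZ F s (n : ℤ)) : ℤ) -
        Module.finrank ℚ (eulB F s (n : ℤ))) := by
      push_cast; ring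
    rw [h7, h4]
    linarith
  · intro j
    have h8 := eul_rank F s (j : ℤ)
    rw [h8]
    push_cast
    rfl
  · intro j hj
    have hj2 : (j : ℤ) ≠ n := by exact_mod_cast hj
    rw [le_antisymm (eul_Z_le_B (hex j hj2)) (eul_B_le_Z hok)]
  · have h2 : (((0 : ℕ) : ℤ) - 1) = -1 := by norm_num
    have h3 : eulB F s ((0 : ℕ) : ℤ) = ⊥ := by
      unfold eulB
      rw [h2, eul_CC_neg, Submodule.map_bot]
    rw [h3, finrank_bot]
    rfl

omit [LinearOrder X] in
theorem eul_tw_toggle_ne [DecidableEq X] (S : Finset X) (s : X → Module.End ℚ V) {x y : X}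
    (h : y ≠ x) : tw ((symmDiff S {x} : Finset X) : Set X) s y = tw (S : Set X) s y := by
  unfold tw
  have h1 : (y ∈ ((symmDiff S {x} : Finset X) : Set X)) ↔ y ∈ (S : Set X) := by
    rw [Finset.mem_coe, Finset.mem_coe, Finset.mem_symmDiff, Finset.mem_singleton]
    tauto
  by_cases h2 : y ∈ (S : Set X)
  · rw [if_pos h2, if_pos (h1.2 h2)]
  · rw [if_neg h2, if_neg (fun h3 => h2 (h1.1 h3))]

omit [LinearOrder X] in
theorem eul_tw_toggle_eq [DecidableEq X] (S : Finset X) (s : X → Module.End ℚ V) (x : X) :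
    tw ((symmDiff S {x} : Finset X) : Set X) s x = - tw (S : Set X) s x := by
  unfold tw
  have h1 : (x ∈ ((symmDiff S {x} : Finset X) : Set X)) ↔ x ∉ (S : Set X) := by
    rw [Finset.mem_coe, Finset.mem_coe, Finset.mem_symmDiff, Finset.mem_singleton]
    tauto
  by_cases h2 : x ∈ (S : Set X)
  · rw [if_pos h2, if_neg (fun h3 => (h1.1 h3) h2), neg_neg]
  · rw [if_neg h2, if_pos (h1.2 h2)]

theorem eul_split [Fintype X] [FiniteDimensional ℚ V] (hs : ∀ x, s x * s x = 1)
    (S : Finset X) {t : Finset X} {x : X} (hx : x ∉ t)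
    (hcl : ∀ y ∈ insert x t, ∀ z ∈ insert x t, s y * s z = s z * s y) :
    Module.finrank ℚ (eulFx (tw (S : Set X) s) (insert x t)) +
      Module.finrank ℚ (eulFx (tw ((symmDiff S {x} : Finset X) : Set X) s) (insert x t)) =
      Module.finrank ℚ (eulFx (tw (S : Set X) s) t) := by
  have hA : ∀ v, v ∈ eulFx (tw (S : Set X) s) (insert x t) ↔
      tw (S : Set X) s x v = v ∧ v ∈ eulFx (tw (S : Set X) s) t := by
    intro v
    rw [eul_mem_Fx, eul_mem_Fx, Finset.forall_mem_insert]
  have hB : ∀ v, v ∈ eulFx (tw ((symmDiff S {x} : Finset X) : Set X) s) (insert x t) ↔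
      tw (S : Set X) s x v = - v ∧ v ∈ eulFx (tw (S : Set X) s) t := by
    intro v
    rw [eul_mem_Fx, eul_mem_Fx, Finset.forall_mem_insert, eul_tw_toggle_eq]
    have h1 : (∀ y ∈ t, tw ((symmDiff S {x} : Finset X) : Set X) s y v = v) ↔
        ∀ y ∈ t, tw (S : Set X) s y v = v := by
      refine forall₂_congr fun y hy => ?_
      rw [eul_tw_toggle_ne]
      rintro rfl
      exact hx hy
    rw [h1, LinearMap.neg_apply, neg_eq_iff_eq_neg]
  have hinf : eulFx (tw (S : Set X) s) (insert x t) ⊓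
      eulFx (tw ((symmDiff S {x} : Finset X) : Set X) s) (insert x t) = ⊥ := by
    rw [eq_bot_iff]
    intro v hv
    obtain ⟨h1, h2⟩ := Submodule.mem_inf.1 hv
    rw [hA] at h1
    rw [hB] at h2
    rw [Submodule.mem_bot]
    have h3 : v = - v := h1.1.symm.trans h2.1
    have h4 : (2 : ℚ) • v = 0 := by
      rw [two_smul]
      nth_rewrite 1 [h3]
      exact neg_add_cancel v
    rcases smul_eq_zero.1 h4 with h5 | h5
    · norm_num at h5
    · exact h5
  have hsup : eulFx (tw (S : Set X) s) (insert x t) ⊔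
      eulFx (tw ((symmDiff S {x} : Finset X) : Set X) s) (insert x t) =
      eulFx (tw (S : Set X) s) t := by
    apply le_antisymm
    · refine sup_le ?_ ?_
      · intro v hv
        exact ((hA v).1 hv).2
      · intro v hv
        exact ((hB v).1 hv).2
    · intro v hv
      have hsq : ∀ w, tw (S : Set X) s x (tw (S : Set X) s x w) = w := by
        intro w
        have h1 := eul_tw_inv hs (S : Set X) x
        have h2 := congrArg (fun f => f w) h1
        simpa using h2
      have hcomm : ∀ y ∈ t, tw (S : Set X) s y (tw (S : Set X) s x v) =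
          tw (S : Set X) s x v := by
        intro y hy
        have h1 := eul_tw_comm (S : Set X)
          (hcl y (mem_insert_of_mem hy) x (mem_insert_self x t))
        have h2 := congrArg (fun f => f v) h1
        simp only [Module.End.mul_apply] at h2
        rw [h2, hv y hy]
      have hv1 : tw (S : Set X) s x v ∈ eulFx (tw (S : Set X) s) t := hcomm
      refine Submodule.mem_sup.2 ⟨(1 / 2 : ℚ) • (v + tw (S : Set X) s x v), ?_,
        (1 / 2 : ℚ) • (v - tw (S : Set X) s x v), ?_, ?_⟩
      · rw [hA]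
        refine ⟨?_, Submodule.smul_mem _ _ (Submodule.add_mem _ hv hv1)⟩
        rw [map_smul, map_add, hsq, add_comm]
      · rw [hB]
        refine ⟨?_, Submodule.smul_mem _ _ (Submodule.sub_mem _ hv hv1)⟩
        rw [map_smul, map_sub, hsq, ← smul_neg, neg_sub]
      · rw [← smul_add]
        have h1 : v + tw (S : Set X) s x v + (v - tw (S : Set X) s x v) = (2 : ℚ) • v := by
          rw [two_smul]; abel
        rw [h1, smul_smul]
        norm_num
  have h := Submodule.finrank_sup_add_finrank_inf_eq (eulFx (tw (S : Set X) s) (insert x t))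
    (eulFx (tw ((symmDiff S {x} : Finset X) : Set X) s) (insert x t))
  rw [hinf, hsup, finrank_bot] at h
  omega

theorem eul_sumS [Fintype X] [FiniteDimensional ℚ V] (hs : ∀ x, s x * s x = 1)
    (t : Finset X) (hcl : ∀ y ∈ t, ∀ z ∈ t, s y * s z = s z * s y) :
    2 ^ t.card * ∑ S : Finset X, Module.finrank ℚ (eulFx (tw (S : Set X) s) t) =
      2 ^ Fintype.card X * Module.finrank ℚ V := by
  induction t using Finset.induction_on with
  | empty =>
    have h1 : ∀ S : Finset X, Module.finrank ℚ (eulFx (tw (S : Set X) s) ∅) =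
        Module.finrank ℚ V := by
      intro S
      have h2 : eulFx (tw (S : Set X) s) ∅ = ⊤ := by
        rw [eq_top_iff]
        intro v _ x hx
        simp at hx
      rw [h2, finrank_top]
    rw [Finset.sum_congr rfl (fun S _ => h1 S)]
    simp [Finset.card_univ, Fintype.card_finset]
  | insert x t hx ih =>
    have ih1 := ih (fun y hy z hz => hcl y (mem_insert_of_mem hy) z (mem_insert_of_mem hz))
    have h1 : ∑ S : Finset X, Module.finrank ℚ (eulFx (tw (S : Set X) s) t) =
        2 * ∑ S : Finset X, Module.finrank ℚ (eulFx (tw (S : Set X) s) (insert x t)) := by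
      have hinv : Function.Involutive (fun S : Finset X => symmDiff S {x}) := by
        intro S
        simp only [symmDiff_symmDiff_cancel_right]
      have h2 : ∑ S : Finset X, Module.finrank ℚ
          (eulFx (tw ((symmDiff S {x} : Finset X) : Set X) s) (insert x t)) =
          ∑ S : Finset X, Module.finrank ℚ (eulFx (tw (S : Set X) s) (insert x t)) :=
        Equiv.sum_comp (hinv.toPerm)
          (fun S : Finset X => Module.finrank ℚ (eulFx (tw (S : Set X) s) (insert x t)))
      rw [two_mul]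
      nth_rewrite 2 [← h2]
      rw [← Finset.sum_add_distrib]
      exact Finset.sum_congr rfl fun S _ => (eul_split hs S hx hcl).symm
    rw [card_insert_of_notMem hx, ← ih1, h1, pow_succ]
    ring

theorem euler_gen [Fintype X] [FiniteDimensional ℚ V] [Nontrivial V] (h : Ok F s) (n : ℕ)
    (hex : ∀ (S : Set X) (d : ℤ), d ≠ n → ExAt F (tw S s) d) (K : Finset (Finset X))
    (hK : ∀ τ, τ ∈ K ↔ τ ∈ F) :
    0 ≤ (-1 : ℚ) ^ n * ∑ τ ∈ K, (-1 / 2 : ℚ) ^ τ.card := by
  have h1 : 0 ≤ ∑ S : Finset X, (-1 : ℤ) ^ n * ∑ τ ∈ K, (-1 : ℤ) ^ τ.card *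
      (Module.finrank ℚ (eulFx (tw (S : Set X) s) τ) : ℤ) :=
    Finset.sum_nonneg fun S _ => eul_one (eul_ok h (S : Set X)) n (hex (S : Set X)) K hK
  have h2 : ∑ S : Finset X, (-1 : ℤ) ^ n * ∑ τ ∈ K, (-1 : ℤ) ^ τ.card *
      (Module.finrank ℚ (eulFx (tw (S : Set X) s) τ) : ℤ) =
      (-1 : ℤ) ^ n * ∑ τ ∈ K, (-1 : ℤ) ^ τ.card *
        ((∑ S : Finset X, Module.finrank ℚ (eulFx (tw (S : Set X) s) τ) : ℕ) : ℤ) := by
    rw [← Finset.mul_sum, Finset.sum_comm]
    congr 1
    refine Finset.sum_congr rfl fun τ _ => ?_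
    rw [← Finset.mul_sum]
    push_cast
    rfl
  rw [h2] at h1
  have h3 : (((-1 : ℤ) ^ n * ∑ τ ∈ K, (-1 : ℤ) ^ τ.card *
        ((∑ S : Finset X, Module.finrank ℚ (eulFx (tw (S : Set X) s) τ) : ℕ) : ℤ) : ℤ) : ℚ) =
      (2 ^ Fintype.card X * Module.finrank ℚ V : ℚ) *
        ((-1 : ℚ) ^ n * ∑ τ ∈ K, (-1 / 2 : ℚ) ^ τ.card) := by
    push_cast
    rw [mul_left_comm]
    congr 1
    rw [Finset.mul_sum]
    refine Finset.sum_congr rfl fun τ hτ => ?_
    have h4 := eul_sumS h.inv τ (h.comm τ ((hK τ).1 hτ))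
    have h5 : (2 : ℚ) ^ τ.card * ∑ S : Finset X,
        (Module.finrank ℚ (eulFx (tw (S : Set X) s) τ) : ℚ) =
        2 ^ Fintype.card X * Module.finrank ℚ V := by exact_mod_cast h4
    rw [← h5, div_pow]
    have h6 : (2 : ℚ) ^ τ.card ≠ 0 := by positivity
    field_simp
  have h4 : (0 : ℚ) < 2 ^ Fintype.card X * Module.finrank ℚ V := by
    have : 0 < Module.finrank ℚ V := Module.finrank_pos
    positivity
  have h5 : (0 : ℚ) ≤ (2 ^ Fintype.card X * Module.finrank ℚ V : ℚ) *
        ((-1 : ℚ) ^ n * ∑ τ ∈ K, (-1 / 2 : ℚ) ^ τ.card) := by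
    rw [← h3]
    exact_mod_cast h1
  exact nonneg_of_mul_nonneg_right h5 h4

theorem euler_ineq [Fintype X] [FiniteDimensional ℚ V] [Nontrivial V] {G : SimpleGraph X}
    (hs : IsSys G s) (n : ℕ)
    (hex : ∀ (S : Set X) (d : ℤ), d ≠ n → ExAt (fam G ∅ univ) (tw S s) d) (K : Finset (Finset X))
    (hK : ∀ τ, τ ∈ K ↔ G.IsClique (τ : Set X)) :
    0 ≤ (-1 : ℚ) ^ n * ∑ τ ∈ K, (-1 / 2 : ℚ) ^ τ.card :=
  euler_gen (eul_ok_fam hs) n hex K fun τ => by rw [hK, eul_mem_fam]

end Pool.Agent.Helper51.CD
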