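import Pool.Agent.Helper51.CD.Cone

/-!
# CD12: constant coefficients

hb is the vanishing of the reduced rational cohomology of the link of ρ in low degrees. Take
coordinates with respect to a basis of V: c in CC (fam G ∅ A) (1) d, A = common neighbours of ρ,
Di c = 0 (Pr of the identity is the identity): each coordinate is a function f as in hb
(d = j ≥ 0; for d < 0 there is nothing), f = coboundary of g; cut g down to the cliques of size
j - 1. Then ex_congr (t x = 1 on A since A is disjoint from ρ) and ex_star, and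
fam G ρ A = fam G ρ univ.
-/

open Finset

namespace Pool.Agent.Helper51.CD

variable {X : Type} [LinearOrder X]
variable {V : Type} [AddCommGroup V] [Module ℚ V]
variable {F F1 : Set (Finset X)} {s : X → Module.End ℚ V} {d : ℤ}

omit [LinearOrder X] in
theorem const_Pr_one (x : X) : Pr (fun _ : X => (1 : Module.End ℚ V)) x = 1 := by
  unfold Pr
  rw [← two_smul ℚ (1 : Module.End ℚ V), smul_smul]
  norm_num

theorem const_fam {G : SimpleGraph X} [Fintype X] (ρ A : Finset X)
    (hA : ∀ x, x ∈ A ↔ ∀ y ∈ ρ, G.Adj y x) : fam G ρ A = fam G ρ univ := by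
  ext τ
  constructor
  · rintro ⟨h1, _, h3⟩
    exact ⟨h1, fun x _ => Or.inr (mem_univ x), h3⟩
  · rintro ⟨h1, _, h3⟩
    refine ⟨h1, fun x hx => ?_, h3⟩
    by_cases hxρ : x ∈ ρ
    · exact Or.inl hxρ
    · right
      rw [hA]
      intro y hy
      exact h3 (Finset.mem_coe.2 (h1 hy)) (Finset.mem_coe.2 hx) (fun h => hxρ (h ▸ hy))

theorem const_erase {G : SimpleGraph X} {A τ : Finset X} {x : X} (h : τ ∈ fam G ∅ A) :
    τ.erase x ∈ fam G ∅ A := by
  obtain ⟨_, h2, h3⟩ := h
  refine ⟨Finset.empty_subset _, fun y hy => h2 y (Finset.mem_of_mem_erase hy), ?_⟩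
  exact h3.subset (Finset.coe_subset.2 (Finset.erase_subset _ _))

omit [LinearOrder X] in
theorem const_mem {G : SimpleGraph X} {A τ : Finset X} :
    τ ∈ fam G ∅ A ↔ τ ⊆ A ∧ G.IsClique (τ : Set X) := by
  constructor
  · rintro ⟨_, h2, h3⟩
    refine ⟨fun x hx => ?_, h3⟩
    rcases h2 x hx with h | h
    · exact absurd h (Finset.notMem_empty x)
    · exact h
  · rintro ⟨h2, h3⟩
    exact ⟨Finset.empty_subset _, fun x hx => Or.inr (h2 hx), h3⟩

open scoped Classical in
theorem const_one [FiniteDimensional ℚ V] {G : SimpleGraph X} (A : Finset X) (j : ℕ)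
    (hb : ∀ f : Finset X → ℚ,
      (∀ τ : Finset X, τ ⊆ A → G.IsClique (τ : Set X) → τ.card = j + 1 →
        ∑ x ∈ τ, sg x τ * f (τ.erase x) = 0) →
      ∃ g : Finset X → ℚ, ∀ τ : Finset X, τ ⊆ A → G.IsClique (τ : Set X) → τ.card = j →
        f τ = ∑ x ∈ τ, sg x τ * g (τ.erase x)) :
    ExAt (fam G ∅ A) (fun _ : X => (1 : Module.End ℚ V)) (j : ℤ) := by
  intro c hc hDc
  obtain ⟨hc1, hc2, _⟩ := hc
  set B := Module.finBasis ℚ V with hB
  have key : ∀ i, ∃ g : Finset X → ℚ, ∀ τ : Finset X, τ ⊆ A → G.IsClique (τ : Set X) →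
      τ.card = j → B.repr (c τ) i = ∑ x ∈ τ, sg x τ * g (τ.erase x) := by
    intro i
    refine hb (fun τ => B.repr (c τ) i) ?_
    intro τ h1 h2 _
    have h3 := congrFun hDc τ
    rw [Di_apply, if_pos (const_mem.2 ⟨h1, h2⟩)] at h3
    have h4 := congrArg (fun v : V => B.repr v i) h3
    simp only [const_Pr_one, Module.End.one_apply, Pi.zero_apply, map_zero, map_sum, map_smul,
      Finsupp.coe_zero, Finsupp.coe_finsetSum, Finset.sum_apply, Finsupp.coe_smul,
      Pi.smul_apply, smul_eq_mul] at h4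
    exact h4
  choose g hg using key
  refine ⟨fun τ => if τ ∈ fam G ∅ A ∧ (τ.card : ℤ) = (j : ℤ) - 1 then
    ∑ i, g i τ • B i else 0, ⟨?_, ?_, ?_⟩, ?_⟩
  · intro τ h
    exact if_neg (fun h' => h h'.1)
  · intro τ h
    exact if_neg (fun h' => h h'.2)
  · intro τ x _
    rfl
  · funext τ
    rw [Di_apply]
    by_cases hτ : τ ∈ fam G ∅ A
    · rw [if_pos hτ]
      obtain ⟨h1, h2⟩ := const_mem.1 hτ
      by_cases hj : τ.card = j
      · have e1 : ∀ x ∈ τ, sg x τ • Pr (fun _ : X => (1 : Module.End ℚ V)) x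
            (if τ.erase x ∈ fam G ∅ A ∧ ((τ.erase x).card : ℤ) = (j : ℤ) - 1 then
              ∑ i, g i (τ.erase x) • B i else 0) =
            ∑ i, (sg x τ * g i (τ.erase x)) • B i := by
          intro x hx
          have e2 : ((τ.erase x).card : ℤ) = (j : ℤ) - 1 := by
            have := Finset.card_erase_add_one hx
            omega
          rw [if_pos ⟨const_erase hτ, e2⟩, const_Pr_one, Module.End.one_apply, Finset.smul_sum]
          refine Finset.sum_congr rfl fun i _ => ?_
          rw [smul_smul]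
        rw [Finset.sum_congr rfl e1, Finset.sum_comm]
        have e3 : ∀ i, ∑ x ∈ τ, (sg x τ * g i (τ.erase x)) • B i = B.repr (c τ) i • B i := by
          intro i
          rw [hg i τ h1 h2 hj, Finset.sum_smul]
        rw [Finset.sum_congr rfl (fun i _ => e3 i)]
        exact B.sum_repr (c τ)
      · rw [hc2 τ (fun h => hj (by exact_mod_cast h))]
        refine Finset.sum_eq_zero fun x hx => ?_
        rw [if_neg, map_zero, smul_zero]
        rintro ⟨_, h⟩
        have := Finset.card_erase_add_one hx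
        omega
    · rw [if_neg hτ, hc1 τ hτ]

theorem const_ex [Fintype X] [FiniteDimensional ℚ V] {G : SimpleGraph X} (ρ A : Finset X)
    (hρ : G.IsClique (ρ : Set X)) (hA : ∀ x, x ∈ A ↔ ∀ y ∈ ρ, G.Adj y x) (n : ℕ)
    (hb : ∀ j : ℕ, 2 * j + ρ.card < 2 * n → ∀ f : Finset X → ℚ,
      (∀ τ : Finset X, τ ⊆ A → G.IsClique (τ : Set X) → τ.card = j + 1 →
        ∑ x ∈ τ, sg x τ * f (τ.erase x) = 0) →
      ∃ g : Finset X → ℚ, ∀ τ : Finset X, τ ⊆ A → G.IsClique (τ : Set X) → τ.card = j →
        f τ = ∑ x ∈ τ, sg x τ * g (τ.erase x))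
    (t : X → Module.End ℚ V) (ht : IsSys G t) (h1 : ∀ x, x ∉ ρ → t x = 1) (d : ℤ)
    (hd : 2 * d < 2 * n + ρ.card) : ExAt (fam G ρ univ) t d := by
  have hone : ExAt (fam G ∅ A) (fun _ : X => (1 : Module.End ℚ V)) (d - ρ.card) := by
    rcases lt_or_ge (d - (ρ.card : ℤ)) 0 with h | h
    · intro c hc _
      refine ⟨0, Submodule.zero_mem _, ?_⟩
      rw [map_zero]
      funext τ
      exact (hc.2.1 τ (by omega)).symm
    · obtain ⟨j, hj⟩ := Int.eq_ofNat_of_zero_le h
      rw [hj]
      exact const_one A j (hb j (by omega))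
  have hcon : ExAt (fam G ∅ A) t (d - ρ.card) := by
    refine ex_congr ?_ hone
    intro τ hτ x hx
    obtain ⟨h2, _⟩ := const_mem.1 hτ
    have hxA := (hA x).1 (h2 hx)
    exact (h1 x (fun h => G.loopless.irrefl x (hxA x h))).symm
  have hstar := ex_star ht ρ A hρ (fun x hx y hy => (hA x).1 hx y hy) hcon
  rw [sub_add_cancel, const_fam ρ A hA] at hstar
  exact hstar

end Pool.Agent.Helper51.CD
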