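import Pool.Agent.Helper51.CD.Basic

/-!
# CD3: cone, shift, sums, stars

ex_cone: given c in CC F s d with Di c = 0 put b t = sg w (insert w t) • c (insert w t) if w not
in t, and 0 if w in t. Then Di b = c: at t without w (in F) use that Di c = 0 at insert w t:
sg w (t+w) P_w c(t) + sum over x in t of sg x (t+w) P_x c(t+w-x) = 0, P_w c(t) = c(t) by hs, and
sg x t * sg w (t+w-x) = - sg w (t+w) * sg x (t+w) (from sg_anti for the pair x, w in t+w and
sg_sq). At t containing w only the term x = w is not zero.

ex_shift: put Fu = the family of the statement; c in CC Fu s (d+1), Di Fu s c = 0. Put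
c1 t = sg u (t+u) • c (t+u) for u not in t, 0 for u in t. Then c1 in CC F s d, Di F s c1 = 0, so
c1 = Di F s b1. Put b t = - sg u t • P_u (b1 (t-u)) for u in t, 0 otherwise. Then
Di Fu s b = c since P_u c1 = c1, P_u P_x = P_x P_u and
sg x (t+u) * sg u (t+u-x) = - sg u (t+u) * sg x t.

ex_congr: Di F s and CC F s only see s x for x in t, t in F (for t not in F the value is 0).

ex_sum: if c is a cocycle for s then p i o c is a cocycle for t i; primitives b_i; take
the sum of j i o b_i. (Di commutes with p i and j i, as Pr does.)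

ex_star: induction on ρ (Finset.induction_on, for all subsets of a clique; the vertex u to be added
is adjacent to all of A and of the previous ρ, so with F = fam G ρ A the family of ex_shift is
fam G (insert u ρ) A; u is not in A as u is adjacent to the elements of A).
-/

open Finset

namespace Pool.Agent.Helper51.CD

variable {X : Type} [LinearOrder X]
variable {V : Type} [AddCommGroup V] [Module ℚ V]
variable {F F1 : Set (Finset X)} {s : X → Module.End ℚ V} {d : ℤ}

theorem cn_Pr_apply (s : X → Module.End ℚ V) (x : X) (v : V) :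
    Pr s x v = (1 / 2 : ℚ) • (v + s x v) := by
  rw [Pr, LinearMap.smul_apply, LinearMap.add_apply, Module.End.one_apply]

theorem cn_Pr_fix {x : X} {v : V} (h : s x v = v) : Pr s x v = v := by
  rw [cn_Pr_apply, h, ← two_smul ℚ v, smul_smul]
  norm_num

theorem cn_fix_Pr {x : X} (h : s x * s x = 1) (v : V) : s x (Pr s x v) = Pr s x v := by
  have h1 : s x (s x v) = v := by
    have := congrArg (fun f : Module.End ℚ V => f v) h
    simpa using this
  rw [cn_Pr_apply, map_smul, map_add, h1, add_comm]

theorem cn_comm_Pr {x u : X} (h : s u * s x = s x * s u) (v : V) :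
    s x (Pr s u v) = Pr s u (s x v) := by
  have h1 : s u (s x v) = s x (s u v) := by
    have := congrArg (fun f : Module.End ℚ V => f v) h
    simpa using this
  rw [cn_Pr_apply, cn_Pr_apply, map_smul, map_add, h1]

theorem cn_Pr_comm {x u : X} (h : s u * s x = s x * s u) (v : V) :
    Pr s x (Pr s u v) = Pr s u (Pr s x v) := by
  have h1 := cn_comm_Pr (s := s) h v
  rw [cn_Pr_apply s x (Pr s u v), h1, ← map_add, ← map_smul, ← cn_Pr_apply]

/-- The key sign identity. -/
theorem cn_sign {w x : X} {τ : Finset X} (hw : w ∉ τ) (hx : x ∈ τ) :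
    sg x τ * sg w (insert w (τ.erase x)) = - (sg w (insert w τ) * sg x (insert w τ)) := by
  have hne : w ≠ x := by
    rintro rfl
    exact hw hx
  have h := sg_anti (x := w) (y := x) (τ := insert w τ) (mem_insert_self w τ)
    (mem_insert_of_mem hx) hne
  rw [erase_insert hw] at h
  have he : (insert w τ).erase x = insert w (τ.erase x) := by
    rw [erase_insert_of_ne hne]
  rw [he] at h
  have h1 := sg_sq w (insert w τ)
  have h2 := sg_sq w (insert w (τ.erase x))
  calc sg x τ * sg w (insert w (τ.erase x))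
      = (sg w (insert w τ) * sg w (insert w τ)) * sg x τ * sg w (insert w (τ.erase x)) := by
        rw [h1, one_mul]
    _ = sg w (insert w τ) * (sg w (insert w τ) * sg x τ) * sg w (insert w (τ.erase x)) := by ring
    _ = - (sg w (insert w τ) * sg x (insert w τ)) *
          (sg w (insert w (τ.erase x)) * sg w (insert w (τ.erase x))) := by
        rw [h]; ring
    _ = _ := by rw [h2, mul_one]

theorem ex_cone (w : X) (hw : ∀ τ, w ∉ τ → (τ ∈ F ↔ insert w τ ∈ F))
    (hs : ∀ τ ∈ F, w ∉ τ → ∀ v : V, (∀ x ∈ τ, s x v = v) → s w v = v) (d : ℤ) :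
    ExAt F s d := by
  rintro c ⟨hc1, hc2, hc3⟩ hD
  refine ⟨fun τ => if w ∈ τ then 0 else sg w (insert w τ) • c (insert w τ), ⟨?_, ?_, ?_⟩, ?_⟩
  · intro τ hτ
    by_cases hwτ : w ∈ τ
    · simp only [if_pos hwτ]
    · simp only [if_neg hwτ]
      rw [hc1 _ (fun h => hτ ((hw τ hwτ).mpr h)), smul_zero]
  · intro τ hτ
    by_cases hwτ : w ∈ τ
    · simp only [if_pos hwτ]
    · simp only [if_neg hwτ]
      rw [hc2, smul_zero]
      rw [card_insert_of_notMem hwτ]
      push_cast
      intro h
      apply hτ
      linarith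
  · intro τ x hx
    by_cases hwτ : w ∈ τ
    · simp only [if_pos hwτ, map_zero]
    · simp only [if_neg hwτ]
      rw [map_smul, hc3 _ _ (mem_insert_of_mem hx)]
  · funext τ
    rw [Di_apply]
    by_cases hτ : τ ∈ F
    · rw [if_pos hτ]
      by_cases hwτ : w ∈ τ
      · rw [Finset.sum_eq_single_of_mem w hwτ]
        · rw [if_neg (notMem_erase w τ), insert_erase hwτ, map_smul,
            cn_Pr_fix (hc3 τ w hwτ), smul_smul, sg_sq, one_smul]
        · intro x hx hxw
          rw [if_pos (mem_erase.mpr ⟨hxw.symm, hwτ⟩), map_zero, smul_zero]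
      · have hD1 : Di F s c (insert w τ) = 0 := by rw [hD]; rfl
        rw [Di_apply, if_pos ((hw τ hwτ).mp hτ), sum_insert hwτ, erase_insert hwτ,
          cn_Pr_fix (hs τ hτ hwτ (c τ) (fun x hx => hc3 τ x hx))] at hD1
        have h1 : ∑ x ∈ τ, sg x τ • Pr s x
            (if w ∈ τ.erase x then 0 else sg w (insert w (τ.erase x)) • c (insert w (τ.erase x))) =
            - (sg w (insert w τ) • ∑ x ∈ τ, sg x (insert w τ) • Pr s x
              (c ((insert w τ).erase x))) := by
          rw [smul_sum, ← sum_neg_distrib]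
          apply sum_congr rfl
          intro x hx
          have hne : w ≠ x := by
            rintro rfl
            exact hwτ hx
          rw [if_neg (fun h => hwτ (mem_of_mem_erase h)), map_smul, smul_smul,
            cn_sign hwτ hx, erase_insert_of_ne hne, smul_smul, neg_smul]
        rw [h1]
        have h2 : ∑ x ∈ τ, sg x (insert w τ) • Pr s x (c ((insert w τ).erase x)) =
            - (sg w (insert w τ) • c τ) := by
          rw [eq_neg_iff_add_eq_zero, add_comm]
          exact hD1
        rw [h2, smul_neg, neg_neg, smul_smul, sg_sq, one_smul]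
    · rw [if_neg hτ, hc1 τ hτ]

theorem ex_shift (u : X) (hu : ∀ τ ∈ F, u ∉ τ) (hinv : s u * s u = 1)
    (hc : ∀ τ ∈ F, ∀ x ∈ τ, s u * s x = s x * s u) (e : ExAt F s d) :
    ExAt {τ | u ∈ τ ∧ τ.erase u ∈ F} s (d + 1) := by
  rintro c ⟨hc1, hc2, hc3⟩ hD
  set Fu : Set (Finset X) := {τ | u ∈ τ ∧ τ.erase u ∈ F} with hFu
  set c1 : Finset X → V := fun τ => if u ∈ τ then 0 else sg u (insert u τ) • c (insert u τ)
    with hc1def
  have hmem : c1 ∈ CC F s d := by
    refine ⟨?_, ?_, ?_⟩
    · intro τ hτ
      by_cases huτ : u ∈ τ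
      · simp only [hc1def, if_pos huτ]
      · simp only [hc1def, if_neg huτ]
        rw [hc1 _, smul_zero]
        rintro ⟨_, h⟩
        rw [erase_insert huτ] at h
        exact hτ h
    · intro τ hτ
      by_cases huτ : u ∈ τ
      · simp only [hc1def, if_pos huτ]
      · simp only [hc1def, if_neg huτ]
        rw [hc2, smul_zero]
        rw [card_insert_of_notMem huτ]
        push_cast
        intro h
        apply hτ
        linarith
    · intro τ x hx
      by_cases huτ : u ∈ τ
      · simp only [hc1def, if_pos huτ, map_zero]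
      · simp only [hc1def, if_neg huτ]
        rw [map_smul, hc3 _ _ (mem_insert_of_mem hx)]
  have hD1 : Di F s c1 = 0 := by
    funext τ
    rw [Di_apply, Pi.zero_apply]
    by_cases hτ : τ ∈ F
    · rw [if_pos hτ]
      have huτ := hu τ hτ
      have hD2 : Di Fu s c (insert u τ) = 0 := by rw [hD]; rfl
      have hFuτ : insert u τ ∈ Fu := by
        refine ⟨mem_insert_self u τ, ?_⟩
        rw [erase_insert huτ]
        exact hτ
      have hcτ : c τ = 0 := hc1 τ (fun h => huτ h.1)
      rw [Di_apply, if_pos hFuτ, sum_insert huτ, erase_insert huτ, hcτ, map_zero, smul_zero,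
        zero_add] at hD2
      have h1 : ∑ x ∈ τ, sg x τ • Pr s x (c1 (τ.erase x)) =
          - (sg u (insert u τ) • ∑ x ∈ τ, sg x (insert u τ) • Pr s x
              (c ((insert u τ).erase x))) := by
        rw [smul_sum, ← sum_neg_distrib]
        apply sum_congr rfl
        intro x hx
        have hne : u ≠ x := by
          rintro rfl
          exact huτ hx
        simp only [hc1def]
        rw [if_neg (fun h => huτ (mem_of_mem_erase h)), map_smul, smul_smul,
          cn_sign huτ hx, erase_insert_of_ne hne, smul_smul, neg_smul]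
      rw [h1, hD2, smul_zero, neg_zero]
    · rw [if_neg hτ]
  obtain ⟨b1, ⟨hb1, hb2, hb3⟩, hDb⟩ := e c1 hmem hD1
  refine ⟨fun τ => if u ∈ τ then - (sg u τ • Pr s u (b1 (τ.erase u))) else 0,
    ⟨?_, ?_, ?_⟩, ?_⟩
  · intro τ hτ
    by_cases huτ : u ∈ τ
    · simp only [if_pos huτ]
      rw [hb1 _ (fun h => hτ ⟨huτ, h⟩), map_zero, smul_zero, neg_zero]
    · simp only [if_neg huτ]
  · intro τ hτ
    by_cases huτ : u ∈ τ
    · simp only [if_pos huτ]
      rw [hb2, map_zero, smul_zero, neg_zero]
      rw [card_erase_of_mem huτ]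
      have : 1 ≤ τ.card := card_pos.mpr ⟨u, huτ⟩
      rw [Nat.cast_sub this]
      push_cast
      intro h
      apply hτ
      linarith
    · simp only [if_neg huτ]
  · intro τ x hx
    by_cases huτ : u ∈ τ
    · simp only [if_pos huτ]
      rw [map_neg, map_smul]
      by_cases hxu : x = u
      · rw [hxu, cn_fix_Pr hinv]
      · have hx' : x ∈ τ.erase u := mem_erase.mpr ⟨hxu, hx⟩
        by_cases hF : τ.erase u ∈ F
        · rw [cn_comm_Pr (hc _ hF x hx'), hb3 _ _ hx']
        · rw [hb1 _ hF, map_zero, map_zero]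
    · simp only [if_neg huτ, map_zero]
  · funext τ
    rw [Di_apply]
    by_cases hτ : τ ∈ Fu
    · rw [if_pos hτ]
      obtain ⟨huτ, hτ0⟩ := hτ
      rw [← add_sum_erase τ _ huτ, if_neg (notMem_erase u τ), map_zero, smul_zero, zero_add]
      have h1 : ∑ x ∈ τ.erase u, sg x τ • Pr s x
          (if u ∈ τ.erase x then - (sg u (τ.erase x) • Pr s u (b1 ((τ.erase x).erase u))) else 0) =
          sg u τ • Pr s u (∑ x ∈ τ.erase u, sg x (τ.erase u) • Pr s x
            (b1 ((τ.erase u).erase x))) := by
        rw [map_sum, smul_sum]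
        apply sum_congr rfl
        intro x hx
        have hxτ := mem_of_mem_erase hx
        have hxu : x ≠ u := (mem_erase.mp hx).1
        have h2 := sg_anti hxτ huτ hxu
        rw [if_pos (mem_erase.mpr ⟨hxu.symm, huτ⟩), map_neg, map_smul, smul_neg, smul_smul, h2,
          neg_smul, neg_neg, cn_Pr_comm (hc _ hτ0 x hx), erase_right_comm, map_smul, smul_smul]
      rw [h1]
      have h3 : Di F s b1 (τ.erase u) = c1 (τ.erase u) := by rw [hDb]
      rw [Di_apply, if_pos hτ0] at h3
      rw [h3]
      simp only [hc1def]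
      rw [if_neg (notMem_erase u τ), insert_erase huτ, map_smul, smul_smul, sg_sq, one_smul,
        cn_Pr_fix (hc3 τ u huτ)]
    · rw [if_neg hτ, hc1 τ hτ]

theorem ex_congr {s' : X → Module.End ℚ V} (h : ∀ τ ∈ F, ∀ x ∈ τ, s x = s' x)
    (e : ExAt F s d) : ExAt F s' d := by
  have hPr : ∀ τ ∈ F, ∀ x ∈ τ, Pr s x = Pr s' x := by
    intro τ hτ x hx
    rw [Pr, Pr, h τ hτ x hx]
  have hDi : ∀ c : Finset X → V, Di F s c = Di F s' c := by
    intro c
    funext τ
    rw [Di_apply, Di_apply]
    by_cases hτ : τ ∈ F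
    · rw [if_pos hτ, if_pos hτ]
      apply sum_congr rfl
      intro x hx
      rw [hPr τ hτ x hx]
    · rw [if_neg hτ, if_neg hτ]
  rintro c ⟨hc1, hc2, hc3⟩ hD
  obtain ⟨b, ⟨hb1, hb2, hb3⟩, hDb⟩ := e c ⟨hc1, hc2, by
    intro τ x hx
    by_cases hτ : τ ∈ F
    · rw [h τ hτ x hx]
      exact hc3 τ x hx
    · rw [hc1 τ hτ, map_zero]⟩ (by rw [hDi]; exact hD)
  refine ⟨b, ⟨hb1, hb2, ?_⟩, ?_⟩
  · intro τ x hx
    by_cases hτ : τ ∈ F
    · rw [← h τ hτ x hx]
      exact hb3 τ x hx
    · rw [hb1 τ hτ, map_zero]
  · rw [← hDi]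
    exact hDb

theorem ex_sum {ι : Type} [Fintype ι] {W : Type} [AddCommGroup W] [Module ℚ W]
    (p : ι → V →ₗ[ℚ] W) (j : ι → W →ₗ[ℚ] V) (t : ι → X → Module.End ℚ W)
    (hsum : ∀ v, ∑ i, j i (p i v) = v) (hp : ∀ i x v, p i (s x v) = t i x (p i v))
    (hj : ∀ i x v, j i (t i x v) = s x (j i v)) (h : ∀ i, ExAt F (t i) d) : ExAt F s d := by
  have hpPr : ∀ i x v, p i (Pr s x v) = Pr (t i) x (p i v) := by
    intro i x v
    rw [cn_Pr_apply, cn_Pr_apply, map_smul, map_add, hp]
  have hjPr : ∀ i x v, j i (Pr (t i) x v) = Pr s x (j i v) := by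
    intro i x v
    rw [cn_Pr_apply, cn_Pr_apply, map_smul, map_add, hj]
  rintro c ⟨hc1, hc2, hc3⟩ hD
  have hb : ∀ i, ∃ b ∈ CC F (t i) (d - 1), Di F (t i) b = fun τ => p i (c τ) := by
    intro i
    apply h i
    · refine ⟨?_, ?_, ?_⟩
      · intro τ hτ
        simp only [hc1 τ hτ, map_zero]
      · intro τ hτ
        simp only [hc2 τ hτ, map_zero]
      · intro τ x hx
        simp only [← hp, hc3 τ x hx]
    · funext τ
      have hDτ : Di F s c τ = 0 := by rw [hD]; rfl
      rw [Di_apply] at hDτ ⊢
      rw [Pi.zero_apply]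
      by_cases hτ : τ ∈ F
      · rw [if_pos hτ] at hDτ ⊢
        rw [← map_zero (p i), ← hDτ, map_sum]
        apply sum_congr rfl
        intro x _
        rw [map_smul, hpPr]
      · rw [if_neg hτ]
  choose b hbm hbD using hb
  refine ⟨fun τ => ∑ i, j i (b i τ), ⟨?_, ?_, ?_⟩, ?_⟩
  · intro τ hτ
    apply sum_eq_zero
    intro i _
    rw [(hbm i).1 τ hτ, map_zero]
  · intro τ hτ
    apply sum_eq_zero
    intro i _
    rw [(hbm i).2.1 τ hτ, map_zero]
  · intro τ x hx
    rw [map_sum]
    apply sum_congr rfl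
    intro i _
    rw [← hj, (hbm i).2.2 τ x hx]
  · funext τ
    rw [Di_apply]
    by_cases hτ : τ ∈ F
    · rw [if_pos hτ]
      have h1 : ∀ i, j i (Di F (t i) (b i) τ) = j i (p i (c τ)) := by
        intro i
        rw [hbD i]
      rw [← hsum (c τ)]
      have h2 : ∑ i, j i (p i (c τ)) = ∑ i, j i (Di F (t i) (b i) τ) :=
        sum_congr rfl fun i _ => (h1 i).symm
      rw [h2]
      have h3 : ∀ i, j i (Di F (t i) (b i) τ) =
          ∑ x ∈ τ, sg x τ • Pr s x (j i (b i (τ.erase x))) := by
        intro i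
        rw [Di_apply, if_pos hτ, map_sum]
        apply sum_congr rfl
        intro x _
        rw [map_smul, hjPr]
      rw [sum_congr rfl fun i _ => h3 i, sum_comm]
      apply sum_congr rfl
      intro x _
      rw [map_sum, smul_sum]
    · rw [if_neg hτ, hc1 τ hτ]

/-- The star of a clique. -/
theorem ex_star {G : SimpleGraph X} (hs : IsSys G s) (ρ A : Finset X)
    (hρ : G.IsClique (ρ : Set X)) (hA : ∀ x ∈ A, ∀ y ∈ ρ, G.Adj y x)
    (e : ExAt (fam G ∅ A) s d) : ExAt (fam G ρ A) s (d + ρ.card) := by
  induction ρ using Finset.induction_on with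
  | empty =>
    rw [card_empty, Nat.cast_zero, add_zero]
    exact e
  | insert u ρ hu ih =>
    have hadjρ : ∀ x ∈ ρ, G.Adj u x := by
      intro x hx
      apply hρ
      · exact mem_coe.mpr (mem_insert_self u ρ)
      · exact mem_coe.mpr (mem_insert_of_mem hx)
      · rintro rfl
        exact hu hx
    have hadjA : ∀ x ∈ A, G.Adj u x := fun x hx => hA x hx u (mem_insert_self u ρ)
    have huA : u ∉ A := fun h => G.loopless.irrefl u (hadjA u h)
    have ih' := ih (hρ.subset (by
      intro x hx
      exact mem_coe.mpr (mem_insert_of_mem (mem_coe.mp hx))))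
      (fun x hx y hy => hA x hx y (mem_insert_of_mem hy))
    have hadj : ∀ τ ∈ fam G ρ A, ∀ x ∈ τ, G.Adj u x := by
      rintro τ ⟨_, h2, _⟩ x hx
      rcases h2 x hx with h | h
      · exact hadjρ x h
      · exact hadjA x h
    have h := ex_shift u (F := fam G ρ A) (s := s) (d := d + ρ.card) (by
      rintro τ ⟨_, h2, _⟩ hτ
      rcases h2 u hτ with h | h
      · exact hu h
      · exact huA h) (hs.inv u) (by
      intro τ hτ x hx
      exact hs.comm u x (hadj τ hτ x hx)) ih'
    have hset : {τ | u ∈ τ ∧ τ.erase u ∈ fam G ρ A} = fam G (insert u ρ) A := by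
      ext τ
      constructor
      · rintro ⟨huτ, h1, h2, h3⟩
        refine ⟨?_, ?_, ?_⟩
        · intro x hx
          rw [mem_insert] at hx
          rcases hx with rfl | hx
          · exact huτ
          · exact mem_of_mem_erase (h1 hx)
        · intro x hx
          by_cases hxu : x = u
          · left
            rw [hxu]
            exact mem_insert_self u ρ
          · rcases h2 x (mem_erase.mpr ⟨hxu, hx⟩) with h | h
            · exact Or.inl (mem_insert_of_mem h)
            · exact Or.inr h
        · intro x hx y hy hxy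
          rw [mem_coe] at hx hy
          have hmem : τ.erase u ∈ fam G ρ A := ⟨h1, h2, h3⟩
          by_cases hxu : x = u
          · rw [hxu]
            exact hadj _ hmem y (mem_erase.mpr ⟨fun h => hxy (hxu.trans h.symm), hy⟩)
          · by_cases hyu : y = u
            · rw [hyu]
              exact (hadj _ hmem x (mem_erase.mpr ⟨hxu, hx⟩)).symm
            · exact h3 (mem_coe.mpr (mem_erase.mpr ⟨hxu, hx⟩))
                (mem_coe.mpr (mem_erase.mpr ⟨hyu, hy⟩)) hxy
      · rintro ⟨h1, h2, h3⟩
        refine ⟨h1 (mem_insert_self u ρ), ?_, ?_, ?_⟩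
        · intro x hx
          rw [mem_erase]
          refine ⟨?_, h1 (mem_insert_of_mem hx)⟩
          rintro rfl
          exact hu hx
        · intro x hx
          rw [mem_erase] at hx
          rcases h2 x hx.2 with h | h
          · rw [mem_insert] at h
            rcases h with h | h
            · exact absurd h hx.1
            · exact Or.inl h
          · exact Or.inr h
        · apply h3.subset
          intro x hx
          exact mem_coe.mpr (mem_of_mem_erase (mem_coe.mp hx))
    rw [hset] at h
    rw [card_insert_of_notMem hu, Nat.cast_add, Nat.cast_one, ← add_assoc]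
    exact h

end Pool.Agent.Helper51.CD
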