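import Pool.Agent.Helper51.CD.Defs

/-!
# Project CD, second version: simplicial complexes instead of full subgraphs

`G` is the graph of commutations, `K` a set of cliques of `G` closed under subsets.
-/

open Finset

namespace Pool.Agent.Helper51.CD

variable {X : Type}

/-- `K` is a simplicial complex whose faces are cliques of `G`. -/
structure IsCx (G : SimpleGraph X) (K : Set (Finset X)) : Prop where
  clique : ∀ τ ∈ K, G.IsClique (τ : Set X)
  down : ∀ τ ∈ K, ∀ ρ : Finset X, ρ ⊆ τ → ρ ∈ K

/-- Exactness in all degrees for all changes of signs. -/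
def GoodK [LinearOrder X] {V : Type} [AddCommGroup V] [Module ℚ V] (K : Set (Finset X))
    (s : X → Module.End ℚ V) : Prop :=
  ∀ S : Set X, ∀ d : ℤ, ExAt K (tw S s) d

/-- Some polynomial family is good at `1` for all members of `𝒮`. -/
def HasK [LinearOrder X] (G : SimpleGraph X) (𝒮 : Set (Set (Finset X))) : Prop :=
  ∃ F : PFam G, ∀ K ∈ 𝒮, GoodK K (F.s 1)

/-- The simplicial complex obtained from `K` by contracting `w` to `v`. -/
def ctrK [DecidableEq X] (K : Set (Finset X)) (v w : X) : Set (Finset X) :=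
  {τ | w ∉ τ ∧ (τ ∈ K ∨ (v ∈ τ ∧ insert w (τ.erase v) ∈ K))}

/-- The link of the edge `{v, w}`. -/
def lkK [DecidableEq X] (K : Set (Finset X)) (v w : X) : Set (Finset X) :=
  {τ | v ∉ τ ∧ w ∉ τ ∧ insert v (insert w τ) ∈ K}

/-- `TameK G K`: the simplicial complex `K`, whose faces are cliques of `G`, is built from pairs
of points not adjacent in `G` by cones, unions and parts along tame complexes, and by undoing the
contraction of an edge that satisfies the link condition and has a tame link. -/
inductive TameK [DecidableEq X] : SimpleGraph X → Set (Finset X) → Prop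
  | pair (G : SimpleGraph X) (x y : X) (hxy : x ≠ y) (h : ¬ G.Adj x y) :
      TameK G {∅, {x}, {y}}
  | cone (G : SimpleGraph X) (K : Set (Finset X)) (u : X)
      (hu : ∀ τ ∈ K, u ∉ τ ∧ ∀ x ∈ τ, G.Adj u x) (h1 : TameK G K) :
      TameK G {τ | τ.erase u ∈ K}
  | union (G : SimpleGraph X) (K L : Set (Finset X)) (h1 : TameK G K) (h2 : TameK G L)
      (h3 : TameK G (K ∩ L)) : TameK G (K ∪ L)
  | part (G : SimpleGraph X) (K L : Set (Finset X)) (hK : IsCx G K) (hL : IsCx G L)
      (h1 : TameK G (K ∪ L)) (h2 : TameK G (K ∩ L)) : TameK G K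
  | contract (G : SimpleGraph X) (K : Set (Finset X)) (v w : X) (hvw : v ≠ w) (hK : IsCx G K)
      (he : {v, w} ∈ K)
      (hl : ∀ τ : Finset X, v ∉ τ → w ∉ τ → insert v τ ∈ K → insert w τ ∈ K →
        insert v (insert w τ) ∈ K)
      (h1 : TameK (contr G v w) (ctrK K v w)) (h2 : TameK G (lkK K v w)) : TameK G K

end Pool.Agent.Helper51.CD
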