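import Pool.Agent.Helper51.CD.Basic

/-!
# CD2: long exact sequences

Suggested: first the abstract lemma. Let (Ci, Di), i = 1, 2, 3 be graded complexes given by
submodules Ci d (d : ℤ) of modules Wi and linear maps Di with Di (Ci d) in Ci (d+1), Di Di = 0
on Ci d; Phi : W1 to W2, Psi : W2 to W3 linear, mapping C1 d to C2 d and C2 d to C3 d, commuting
with the Di on these, Phi injective on C1 d, Psi surjective from C2 d onto C3 d, and every c in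
C2 d with Psi c = 0 is Phi of an element of C1 d. (A structure SES with these fields.)
Ex d : every c in C d with D c = 0 is D b for some b in C (d-1). Then
(mid)   Ex1 d and Ex3 d give Ex2 d: Psi c = D b3, b3 = Psi b2, c - D b2 = Phi c1, D c1 = 0,
        c1 = D b1, c = D (b2 + Phi b1);
(right) Ex2 d and Ex1 (d+1) give Ex3 d: c3 = Psi c2, D c2 = Phi c1, D c1 = 0, c1 = D b1,
        c2 - Phi b1 = D b2, c3 = D (Psi b2);
(left)  Ex2 d and Ex3 (d-1) give Ex1 d: Phi c1 = D b2, Psi b2 = D e3, e3 = Psi e2,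
        b2 - D e2 = Phi b1, c1 = D b1.
The structure and these three lemmas are used again by other modules (keep the names
GC, GC.Ex, SES, SES.mid, SES.right, SES.left below).

ex_glue, ex_low, ex_high: F1 is closed under passing to subsets inside F; 1 = F minus F1
(subcomplex, Phi = id), 2 = F, 3 = F1 (Psi = restriction to F1).
-/

open Finset

namespace Pool.Agent.Helper51.CD

variable {X : Type} [LinearOrder X]
variable {V : Type} [AddCommGroup V] [Module ℚ V]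
variable {F F1 : Set (Finset X)} {s : X → Module.End ℚ V} {d : ℤ}

/-- A graded complex inside a module. -/
structure GC (W : Type) [AddCommGroup W] [Module ℚ W] where
  C : ℤ → Submodule ℚ W
  D : W →ₗ[ℚ] W
  hD : ∀ d, ∀ c ∈ C d, D c ∈ C (d + 1)
  hDD : ∀ d, ∀ c ∈ C d, D (D c) = 0

/-- Exactness in degree d. -/
def GC.Ex {W : Type} [AddCommGroup W] [Module ℚ W] (K : GC W) (d : ℤ) : Prop :=
  ∀ c ∈ K.C d, K.D c = 0 → ∃ b ∈ K.C (d - 1), K.D b = c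

/-- A short exact sequence of graded complexes. -/
structure SES {W1 W2 W3 : Type} [AddCommGroup W1] [Module ℚ W1] [AddCommGroup W2] [Module ℚ W2]
    [AddCommGroup W3] [Module ℚ W3] (K1 : GC W1) (K2 : GC W2) (K3 : GC W3) where
  Φ : W1 →ₗ[ℚ] W2
  Ψ : W2 →ₗ[ℚ] W3
  hΦ : ∀ d, ∀ c ∈ K1.C d, Φ c ∈ K2.C d
  hΨ : ∀ d, ∀ c ∈ K2.C d, Ψ c ∈ K3.C d
  cΦ : ∀ d, ∀ c ∈ K1.C d, Φ (K1.D c) = K2.D (Φ c)
  cΨ : ∀ d, ∀ c ∈ K2.C d, Ψ (K2.D c) = K3.D (Ψ c)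
  inj : ∀ d, ∀ c ∈ K1.C d, Φ c = 0 → c = 0
  lift : ∀ d, ∀ c ∈ K3.C d, ∃ b ∈ K2.C d, Ψ b = c
  ker : ∀ d, ∀ c ∈ K2.C d, Ψ c = 0 → ∃ b ∈ K1.C d, Φ b = c
  ΨΦ : ∀ d, ∀ c ∈ K1.C d, Ψ (Φ c) = 0

section

variable {W1 W2 W3 : Type} [AddCommGroup W1] [Module ℚ W1] [AddCommGroup W2] [Module ℚ W2]
    [AddCommGroup W3] [Module ℚ W3] {K1 : GC W1} {K2 : GC W2} {K3 : GC W3}

theorem SES.mid (S : SES K1 K2 K3) (h1 : K1.Ex d) (h3 : K3.Ex d) : K2.Ex d := by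
  intro c hc hDc
  obtain ⟨b3, hb3, e3⟩ := h3 (S.Ψ c) (S.hΨ d c hc) (by rw [← S.cΨ d c hc, hDc, map_zero])
  obtain ⟨b2, hb2, e2⟩ := S.lift (d - 1) b3 hb3
  have hDb2 : K2.D b2 ∈ K2.C d := by
    have := K2.hD (d - 1) b2 hb2
    rwa [sub_add_cancel] at this
  have hsub : c - K2.D b2 ∈ K2.C d := (K2.C d).sub_mem hc hDb2
  obtain ⟨c1, hc1, e1⟩ := S.ker d (c - K2.D b2) hsub (by
    rw [map_sub, S.cΨ (d - 1) b2 hb2, e2, e3, sub_self])
  have hDc1 : K1.D c1 = 0 := by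
    apply S.inj (d + 1) _ (K1.hD d c1 hc1)
    rw [S.cΦ d c1 hc1, e1, map_sub, hDc, K2.hDD (d - 1) b2 hb2, sub_self]
  obtain ⟨b1, hb1, e4⟩ := h1 c1 hc1 hDc1
  refine ⟨b2 + S.Φ b1, (K2.C (d - 1)).add_mem hb2 (S.hΦ (d - 1) b1 hb1), ?_⟩
  rw [map_add, ← S.cΦ (d - 1) b1 hb1, e4, e1]
  abel

theorem SES.right (S : SES K1 K2 K3) (h2 : K2.Ex d) (h1 : K1.Ex (d + 1)) : K3.Ex d := by
  intro c3 hc3 hDc3
  obtain ⟨c2, hc2, e2⟩ := S.lift d c3 hc3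
  obtain ⟨c1, hc1, e1⟩ := S.ker (d + 1) (K2.D c2) (K2.hD d c2 hc2) (by
    rw [S.cΨ d c2 hc2, e2, hDc3])
  have hDc1 : K1.D c1 = 0 := by
    apply S.inj (d + 1 + 1) _ (K1.hD (d + 1) c1 hc1)
    rw [S.cΦ (d + 1) c1 hc1, e1, K2.hDD d c2 hc2]
  obtain ⟨b1, hb1, e4⟩ := h1 c1 hc1 hDc1
  rw [add_sub_cancel_right] at hb1
  obtain ⟨b2, hb2, e5⟩ := h2 (c2 - S.Φ b1) ((K2.C d).sub_mem hc2 (S.hΦ d b1 hb1)) (by
    rw [map_sub, ← S.cΦ d b1 hb1, e4, e1, sub_self])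
  refine ⟨S.Ψ b2, S.hΨ (d - 1) b2 hb2, ?_⟩
  rw [← S.cΨ (d - 1) b2 hb2, e5, map_sub, e2, S.ΨΦ d b1 hb1, sub_zero]

theorem SES.left (S : SES K1 K2 K3) (h2 : K2.Ex d) (h3 : K3.Ex (d - 1)) : K1.Ex d := by
  intro c1 hc1 hDc1
  obtain ⟨b2, hb2, e2⟩ := h2 (S.Φ c1) (S.hΦ d c1 hc1) (by rw [← S.cΦ d c1 hc1, hDc1, map_zero])
  obtain ⟨e3, he3, e4⟩ := h3 (S.Ψ b2) (S.hΨ (d - 1) b2 hb2) (by
    rw [← S.cΨ (d - 1) b2 hb2, e2, S.ΨΦ d c1 hc1])
  obtain ⟨e2', he2', e5⟩ := S.lift (d - 1 - 1) e3 he3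
  have hDe : K2.D e2' ∈ K2.C (d - 1) := by
    have := K2.hD (d - 1 - 1) e2' he2'
    rwa [sub_add_cancel] at this
  obtain ⟨b1, hb1, e6⟩ := S.ker (d - 1) (b2 - K2.D e2') ((K2.C (d - 1)).sub_mem hb2 hDe) (by
    rw [map_sub, S.cΨ (d - 1 - 1) e2' he2', e5, e4, sub_self])
  refine ⟨b1, hb1, ?_⟩
  have hDb1 : K1.D b1 ∈ K1.C d := by
    have := K1.hD (d - 1) b1 hb1
    rwa [sub_add_cancel] at this
  have h0 : S.Φ (K1.D b1 - c1) = 0 := by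
    rw [map_sub, S.cΦ (d - 1) b1 hb1, e6, map_sub, K2.hDD (d - 1 - 1) e2' he2', sub_zero, e2,
      sub_self]
  exact sub_eq_zero.1 (S.inj d _ ((K1.C d).sub_mem hDb1 hc1) h0)

end

/-- The complex of a family. -/
noncomputable def cx (F : Set (Finset X)) (s : X → Module.End ℚ V) (h : Ok F s) :
    GC (Finset X → V) where
  C := CC F s
  D := Di F s
  hD := fun _ _ hc => Di_mem h hc
  hDD := fun _ _ hc => Di_Di h hc

theorem cx_ex (h : Ok F s) : (cx F s h).Ex d ↔ ExAt F s d := Iff.rfl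

/-- Restriction to a subfamily. -/
noncomputable def rst (F1 : Set (Finset X)) : (Finset X → V) →ₗ[ℚ] (Finset X → V) := by
  classical
  exact LinearMap.pi (fun τ => if τ ∈ F1 then LinearMap.proj τ else 0)

theorem rst_mem (c : Finset X → V) {τ : Finset X} (h : τ ∈ F1) : rst F1 c τ = c τ := by
  classical
  unfold rst
  rw [LinearMap.pi_apply, if_pos h, LinearMap.proj_apply]

theorem rst_notMem (c : Finset X → V) {τ : Finset X} (h : τ ∉ F1) : rst F1 c τ = 0 := by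
  classical
  unfold rst
  rw [LinearMap.pi_apply, if_neg h, LinearMap.zero_apply]

theorem CC_mono {F F1 : Set (Finset X)} (hF : F1 ⊆ F) {c : Finset X → V} (hc : c ∈ CC F1 s d) :
    c ∈ CC F s d := by
  rw [mem_CC] at hc ⊢
  exact ⟨fun τ hτ => hc.1 τ (fun h => hτ (hF h)), hc.2.1, hc.2.2⟩

theorem Ok.mono_down (h : Ok F s) (hF : F1 ⊆ F) (hd : ∀ τ ∈ F1, ∀ ρ ∈ F, ρ ⊆ τ → ρ ∈ F1) :
    Ok F1 s := by
  refine ⟨fun τ hτ ρ hρ π h1 h2 => ?_, h.inv, fun τ hτ => h.comm τ (hF hτ)⟩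
  exact hd τ hτ π (h.conv τ (hF hτ) ρ (hF hρ) π h1 h2) h2

theorem Ok.mono_up (h : Ok F s) (hF : F1 ⊆ F) (hd : ∀ τ ∈ F1, ∀ ρ ∈ F, ρ ⊆ τ → ρ ∈ F1) :
    Ok (F \ F1) s := by
  refine ⟨fun τ hτ ρ hρ π h1 h2 => ?_, h.inv, fun τ hτ => h.comm τ hτ.1⟩
  refine ⟨h.conv τ hτ.1 ρ hρ.1 π h1 h2, fun hπ => hρ.2 (hd π hπ ρ hρ.1 h1)⟩

/-- The short exact sequence of a subset-closed subfamily. -/
noncomputable def sesOf (h : Ok F s) (hF : F1 ⊆ F) (hd : ∀ τ ∈ F1, ∀ ρ ∈ F, ρ ⊆ τ → ρ ∈ F1) :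
    SES (cx (F \ F1) s (h.mono_up hF hd)) (cx F s h) (cx F1 s (h.mono_down hF hd)) where
  Φ := LinearMap.id
  Ψ := rst F1
  hΦ := fun d c hc => CC_mono Set.diff_subset hc
  hΨ := by
    intro d c hc
    change c ∈ CC F s d at hc
    change rst F1 c ∈ CC F1 s d
    rw [mem_CC] at hc ⊢
    refine ⟨fun τ hτ => rst_notMem c hτ, fun τ hτ => ?_, fun τ x hx => ?_⟩
    · by_cases h1 : τ ∈ F1
      · rw [rst_mem c h1, hc.2.1 τ hτ]
      · exact rst_notMem c h1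
    · by_cases h1 : τ ∈ F1
      · rw [rst_mem c h1, hc.2.2 τ x hx]
      · rw [rst_notMem c h1, map_zero]
  cΦ := by
    intro d c hc
    change c ∈ CC (F \ F1) s d at hc
    change Di (F \ F1) s c = Di F s c
    rw [mem_CC] at hc
    funext τ
    by_cases hτ : τ ∈ F
    · by_cases h1 : τ ∈ F1
      · rw [Di_of_notMem s c (fun h => h.2 h1), Di_of_mem s c hτ]
        symm
        refine Finset.sum_eq_zero (fun x _ => ?_)
        rw [hc.1 (τ.erase x) (fun h => h.2 (hd τ h1 _ h.1 (Finset.erase_subset _ _))), map_zero,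
          smul_zero]
      · rw [Di_of_mem s c (show τ ∈ F \ F1 from ⟨hτ, h1⟩), Di_of_mem s c hτ]
    · rw [Di_of_notMem s c (fun h => hτ h.1), Di_of_notMem s c hτ]
  cΨ := by
    intro d c hc
    change c ∈ CC F s d at hc
    change rst F1 (Di F s c) = Di F1 s (rst F1 c)
    rw [mem_CC] at hc
    funext τ
    by_cases h1 : τ ∈ F1
    · rw [rst_mem _ h1, Di_of_mem s _ h1, Di_of_mem s _ (hF h1)]
      refine Finset.sum_congr rfl (fun x _ => ?_)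
      by_cases h2 : τ.erase x ∈ F1
      · rw [rst_mem c h2]
      · rw [rst_notMem c h2, hc.1 (τ.erase x) (fun h3 => h2 (hd τ h1 _ h3
          (Finset.erase_subset _ _)))]
    · rw [rst_notMem _ h1, Di_of_notMem s _ h1]
  inj := fun d c _ h => h
  lift := by
    intro d c hc
    change c ∈ CC F1 s d at hc
    refine ⟨c, CC_mono hF hc, ?_⟩
    rw [mem_CC] at hc
    funext τ
    by_cases h1 : τ ∈ F1
    · rw [rst_mem c h1]
    · rw [rst_notMem c h1, hc.1 τ h1]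
  ker := by
    intro d c hc h0
    change c ∈ CC F s d at hc
    refine ⟨c, ?_, rfl⟩
    change c ∈ CC (F \ F1) s d
    rw [mem_CC] at hc ⊢
    refine ⟨fun τ hτ => ?_, hc.2.1, hc.2.2⟩
    by_cases h1 : τ ∈ F1
    · have := congrFun h0 τ
      rwa [rst_mem c h1] at this
    · exact hc.1 τ (fun h2 => hτ ⟨h2, h1⟩)
  ΨΦ := by
    intro d c hc
    change c ∈ CC (F \ F1) s d at hc
    change rst F1 c = 0
    rw [mem_CC] at hc
    funext τ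
    by_cases h1 : τ ∈ F1
    · rw [rst_mem c h1, hc.1 τ (fun h => h.2 h1)]
      rfl
    · rw [rst_notMem c h1]
      rfl

theorem ex_glue (h : Ok F s) (hF : F1 ⊆ F) (hd : ∀ τ ∈ F1, ∀ ρ ∈ F, ρ ⊆ τ → ρ ∈ F1)
    (e1 : ExAt F1 s d) (e2 : ExAt (F \ F1) s d) : ExAt F s d :=
  (sesOf h hF hd).mid e2 e1

theorem ex_low (h : Ok F s) (hF : F1 ⊆ F) (hd : ∀ τ ∈ F1, ∀ ρ ∈ F, ρ ⊆ τ → ρ ∈ F1)
    (e : ExAt F s d) (e2 : ExAt (F \ F1) s (d + 1)) : ExAt F1 s d :=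
  (sesOf h hF hd).right e e2

theorem ex_high (h : Ok F s) (hF : F1 ⊆ F) (hd : ∀ τ ∈ F1, ∀ ρ ∈ F, ρ ⊆ τ → ρ ∈ F1)
    (e : ExAt F s d) (e1 : ExAt F1 s (d - 1)) : ExAt (F \ F1) s d :=
  (sesOf h hF hd).left e e1

end Pool.Agent.Helper51.CD
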