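import Pool.Agent.Helper51.CD.FamsK
import Pool.Agent.Helper51.CD.CombineK
import Pool.Agent.Helper51.CD.Seq

/-!
# CDK4: tame complexes are good

Version of TameGood.lean (task CD11) for complexes. TameK.isCx: induction. hasK_of_tame: induction.
pair: hasK_pair. cone: ex_glue with F = {t : t.erase u in K}, F1 = K, the rest = family of ex_shift.
union: ex_glue with F = K ∪ L, F1 = K, the rest = L minus (K ∩ L), exact by ex_high.
part: F = K ∪ L. F minus (K ∩ L) is exact by ex_high; it is the disjoint union of K minus L and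
L minus K, neither containing subsets of members of the other; so K minus L is exact
(ex_summand: c in CC (K minus L) s d, Di c = 0 is also a cocycle of the union, the restriction
rst of a primitive is a primitive). Then K by ex_glue with F1 = K ∩ L.
contract: HasK.restrict for lkK (G and contr G v w agree on its vertices, v is not one of them),
HasK.union for contr G v w (ctrK and lkK are complexes for it), HasK.contr.
-/

open Finset

namespace Pool.Agent.Helper51.CD

variable {X : Type} [LinearOrder X]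
variable {V : Type} [AddCommGroup V] [Module ℚ V]
variable {F F1 : Set (Finset X)} {s : X → Module.End ℚ V} {d : ℤ}

/-- A direct summand of an exact complex. -/
theorem ex_summand (h : Ok F s) (hF : F1 ⊆ F) (hd : ∀ τ ∈ F1, ∀ ρ ∈ F, ρ ⊆ τ → ρ ∈ F1)
    (hu : ∀ τ ∈ F1, ∀ ρ ∈ F, τ ⊆ ρ → ρ ∈ F1) (e : ExAt F s d) : ExAt F1 s d := by
  intro c hc hDc
  have hc' := hc
  rw [mem_CC] at hc'
  have hDF : Di F s c = 0 := by
    funext τ
    rw [Pi.zero_apply]
    by_cases hτ : τ ∈ F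
    · by_cases h1 : τ ∈ F1
      · have := congrFun hDc τ
        rw [Di_of_mem s c h1, Pi.zero_apply] at this
        rw [Di_of_mem s c hτ, this]
      · rw [Di_of_mem s c hτ]
        refine Finset.sum_eq_zero (fun x _ => ?_)
        rw [hc'.1 (τ.erase x) (fun h2 => h1 (hu _ h2 τ hτ (Finset.erase_subset _ _))), map_zero,
          smul_zero]
    · exact Di_of_notMem s c hτ
  obtain ⟨b, hb, e1⟩ := e c (CC_mono hF hc) hDF
  refine ⟨rst F1 b, (sesOf h hF hd).hΨ (d - 1) b hb, ?_⟩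
  have e2 : rst F1 (Di F s b) = Di F1 s (rst F1 b) := (sesOf h hF hd).cΨ (d - 1) b hb
  rw [← e2, e1]
  funext τ
  by_cases h1 : τ ∈ F1
  · rw [rst_mem c h1]
  · rw [rst_notMem c h1, hc'.1 τ h1]

theorem TameK.isCx {G : SimpleGraph X} {K : Set (Finset X)} (h : TameK G K) :
    IsCx G K := by
  induction h with
  | pair G x y hxy h =>
    constructor
    · rintro τ (rfl | rfl | rfl) <;> simp
    · rintro τ (rfl | rfl | rfl) ρ hρ
      · exact Or.inl (Finset.subset_empty.1 hρ)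
      · rcases Finset.subset_singleton_iff.1 hρ with h | h
        · exact Or.inl h
        · exact Or.inr (Or.inl h)
      · rcases Finset.subset_singleton_iff.1 hρ with h | h
        · exact Or.inl h
        · exact Or.inr (Or.inr h)
  | cone G K u hu _ ih =>
    constructor
    · intro τ hτ a ha b hb hab
      have hτ' : τ.erase u ∈ K := hτ
      rw [Finset.mem_coe] at ha hb
      by_cases h : a = u
      · subst h
        exact (hu _ hτ').2 b (Finset.mem_erase.2 ⟨Ne.symm hab, hb⟩)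
      · by_cases h' : b = u
        · subst h'
          exact ((hu _ hτ').2 a (Finset.mem_erase.2 ⟨hab, ha⟩)).symm
        · exact ih.clique _ hτ' (Finset.mem_coe.2 (Finset.mem_erase.2 ⟨h, ha⟩))
            (Finset.mem_coe.2 (Finset.mem_erase.2 ⟨h', hb⟩)) hab
    · intro τ hτ ρ hρ
      exact ih.down _ hτ _ (Finset.erase_subset_erase u hρ)
  | union G K L _ _ _ ih1 ih2 _ =>
    constructor
    · rintro τ (hτ | hτ)
      · exact ih1.clique τ hτ
      · exact ih2.clique τ hτ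
    · rintro τ (hτ | hτ) ρ hρ
      · exact Or.inl (ih1.down τ hτ ρ hρ)
      · exact Or.inr (ih2.down τ hτ ρ hρ)
  | part G K L hK _ _ _ _ _ => exact hK
  | contract G K v w _ hK _ _ _ _ _ _ => exact hK

theorem tk_cone {G : SimpleGraph X} (hs : IsSys G s) {K : Set (Finset X)} (hK : IsCx G K)
    {u : X} (hK' : IsCx G {τ | τ.erase u ∈ K})
    (hu : ∀ τ ∈ K, u ∉ τ ∧ ∀ x ∈ τ, G.Adj u x) (h : GoodK K s) :
    GoodK {τ | τ.erase u ∈ K} s := by
  intro S d
  have hsub : K ⊆ {τ | τ.erase u ∈ K} := by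
    intro τ hτ
    change τ.erase u ∈ K
    rwa [Finset.erase_eq_of_notMem (hu τ hτ).1]
  refine ex_glue (cmbK_ok hs S hK') hsub (fun τ hτ ρ _ hρ => hK.down τ hτ ρ hρ) (h S d) ?_
  have hset : {τ : Finset X | τ.erase u ∈ K} \ K = {τ | u ∈ τ ∧ τ.erase u ∈ K} := by
    ext τ
    constructor
    · rintro ⟨h1, h2⟩
      refine ⟨?_, h1⟩
      by_contra h3
      apply h2
      have h1' : τ.erase u ∈ K := h1
      rwa [Finset.erase_eq_of_notMem h3] at h1'
    · rintro ⟨h1, h2⟩
      exact ⟨h2, fun h3 => (hu τ h3).1 h1⟩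
  rw [hset]
  have hsys := kb_tw_sys hs S
  have := ex_shift (s := tw S s) (d := d - 1) u (fun τ hτ => (hu τ hτ).1) (hsys.inv u)
    (fun τ hτ x hx => hsys.comm u x ((hu τ hτ).2 x hx)) (h S (d - 1))
  rwa [sub_add_cancel] at this

theorem tk_union {G : SimpleGraph X} (hs : IsSys G s) {K L : Set (Finset X)} (hK : IsCx G K)
    (hL : IsCx G L) (hKL : IsCx G (K ∪ L)) (h1 : GoodK K s) (h2 : GoodK L s)
    (h3 : GoodK (K ∩ L) s) : GoodK (K ∪ L) s := by
  intro S d
  refine ex_glue (cmbK_ok hs S hKL) Set.subset_union_left (fun τ hτ ρ _ hρ => hK.down τ hτ ρ hρ)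
    (h1 S d) ?_
  have hset : (K ∪ L) \ K = L \ (K ∩ L) := by
    ext τ
    constructor
    · rintro ⟨h4 | h4, h5⟩
      · exact absurd h4 h5
      · exact ⟨h4, fun h6 => h5 h6.1⟩
    · rintro ⟨h4, h5⟩
      exact ⟨Or.inr h4, fun h6 => h5 ⟨h6, h4⟩⟩
  rw [hset]
  exact ex_high (cmbK_ok hs S hL) Set.inter_subset_right
    (fun τ hτ ρ _ hρ => ⟨hK.down τ hτ.1 ρ hρ, hL.down τ hτ.2 ρ hρ⟩) (h2 S d) (h3 S (d - 1))

theorem tk_part {G : SimpleGraph X} (hs : IsSys G s) {K L : Set (Finset X)} (hK : IsCx G K)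
    (hL : IsCx G L) (hKL : IsCx G (K ∪ L)) (h1 : GoodK (K ∪ L) s)
    (h2 : GoodK (K ∩ L) s) : GoodK K s := by
  intro S d
  have hok := cmbK_ok hs S hKL
  have hdn : ∀ τ ∈ K ∩ L, ∀ ρ : Finset X, ρ ⊆ τ → ρ ∈ K ∩ L :=
    fun τ hτ ρ hρ => ⟨hK.down τ hτ.1 ρ hρ, hL.down τ hτ.2 ρ hρ⟩
  have hsub : K ∩ L ⊆ K ∪ L := fun τ hτ => Or.inl hτ.1
  have e1 : ExAt ((K ∪ L) \ (K ∩ L)) (tw S s) d :=
    ex_high hok hsub (fun τ hτ ρ _ hρ => hdn τ hτ ρ hρ) (h1 S d) (h2 S (d - 1))
  have e2 : ExAt (K \ (K ∩ L)) (tw S s) d := by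
    refine ex_summand (hok.mono_up hsub (fun τ hτ ρ _ hρ => hdn τ hτ ρ hρ))
      (fun τ hτ => ⟨Or.inl hτ.1, hτ.2⟩) ?_ ?_ e1
    · intro τ hτ ρ hρ hρτ
      exact ⟨hK.down τ hτ.1 ρ hρτ, hρ.2⟩
    · intro τ hτ ρ hρ hτρ
      refine ⟨?_, hρ.2⟩
      rcases hρ.1 with h | h
      · exact h
      · exact absurd ⟨hτ.1, hL.down ρ h τ hτρ⟩ hτ.2
  exact ex_glue (cmbK_ok hs S hK) Set.inter_subset_left (fun τ hτ ρ _ hρ => hdn τ hτ ρ hρ)
    (h2 S d) e2

theorem hasK_of_tame [Fintype X] {G : SimpleGraph X} {K : Set (Finset X)} (h : TameK G K) :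
    HasK G {K} := by
  induction h with
  | pair G x y hxy h => exact hasK_pair G x y hxy h
  | cone G K u hu h1 ih =>
    obtain ⟨F, hF⟩ := ih
    refine ⟨F, fun B hB => ?_⟩
    rw [Set.mem_singleton_iff.1 hB]
    exact tk_cone (F.sys 1) h1.isCx (TameK.cone G K u hu h1).isCx hu (hF K rfl)
  | union G K L h1 h2 h3 ih1 ih2 ih3 =>
    have c1 : ∀ M ∈ ({K} : Set (Set (Finset X))), IsCx G M := by
      rintro M rfl
      exact h1.isCx
    have c2 : ∀ M ∈ ({L} : Set (Set (Finset X))), IsCx G M := by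
      rintro M rfl
      exact h2.isCx
    have c3 : ∀ M ∈ ({K ∩ L} : Set (Set (Finset X))), IsCx G M := by
      rintro M rfl
      exact h3.isCx
    obtain ⟨F, hF⟩ := HasK.union (fun M hM => hM.elim (c1 M) (c2 M)) c3
      (HasK.union c1 c2 ih1 ih2) ih3
    refine ⟨F, fun B hB => ?_⟩
    rw [Set.mem_singleton_iff.1 hB]
    exact tk_union (F.sys 1) h1.isCx h2.isCx (TameK.union G K L h1 h2 h3).isCx
      (hF K (Or.inl (Or.inl rfl))) (hF L (Or.inl (Or.inr rfl))) (hF _ (Or.inr rfl))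
  | part G K L hK hL h1 h2 ih1 ih2 =>
    have c1 : ∀ M ∈ ({K ∪ L} : Set (Set (Finset X))), IsCx G M := by
      rintro M rfl
      exact h1.isCx
    have c2 : ∀ M ∈ ({K ∩ L} : Set (Set (Finset X))), IsCx G M := by
      rintro M rfl
      exact h2.isCx
    obtain ⟨F, hF⟩ := HasK.union c1 c2 ih1 ih2
    refine ⟨F, fun B hB => ?_⟩
    rw [Set.mem_singleton_iff.1 hB]
    exact tk_part (F.sys 1) hK hL h1.isCx (hF _ (Or.inl rfl)) (hF _ (Or.inr rfl))
  | contract G K v w hvw hK he hl h1 h2 ih1 ih2 =>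
    refine HasK.contr hvw hK he hl ?_
    have h3 : HasK (CD.contr G v w) {lkK K v w} := by
      refine ih2.restrict fun τ hτ x hx ρ hρ y hy => ?_
      have hxv : x ≠ v := fun e => hτ.1 (e ▸ hx)
      have hyv : y ≠ v := fun e => hρ.1 (e ▸ hy)
      rintro ⟨_, h | h | h⟩
      · exact h
      · exact absurd h.1 hxv
      · exact absurd h.1 hyv
    have c1 : ∀ M ∈ ({ctrK K v w} : Set (Set (Finset X))), IsCx (CD.contr G v w) M := by
      rintro M rfl
      exact h1.isCx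
    have c2 : ∀ M ∈ ({lkK K v w} : Set (Set (Finset X))), IsCx (CD.contr G v w) M := by
      rintro M rfl
      refine ⟨fun τ hτ a ha b hb hab => ?_, h2.isCx.down⟩
      exact ⟨hab, Or.inl (h2.isCx.clique τ hτ ha hb hab)⟩
    have := HasK.union c1 c2 ih1 h3
    rwa [Set.singleton_union] at this

end Pool.Agent.Helper51.CD
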