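import Pool.Agent.Helper51.CD.VanishRel
import Pool.Agent.Helper51.CD.Euler
import Pool.Agent.Helper51.CD.TameKGood
import Pool.Agent.Helper51.CD.Const
import Pool.Agent.Helper51.CD.CertDefs

/-!
# CD13: from the links of odd cliques to the sign of the weighted clique count
-/

open Finset

namespace Pool.Agent.Helper51.CD

open Pool.Agent.Helper51.CD.Cube

variable {X : Type}

theorem core_fam [Fintype X] (G : SimpleGraph X) (ρ : Finset X) :
    (↑(cliquesIn G (commonNbrs G ρ)) : Set (Finset X)) = fam G ∅ (commonNbrs G ρ) := by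
  ext τ
  rw [mem_coe, mem_cliquesIn]
  constructor
  · rintro ⟨h1, h2⟩
    exact ⟨empty_subset _, fun x hx => Or.inr (h1 hx), h2⟩
  · rintro ⟨_, h1, h2⟩
    exact ⟨fun x hx => (h1 x hx).resolve_left (notMem_empty x), h2⟩

theorem core_fam_univ [Fintype X] (G : SimpleGraph X) (ρ : Finset X) :
    fam G ρ (commonNbrs G ρ) = fam G ρ univ := by
  ext τ
  constructor
  · rintro ⟨h1, _, h3⟩
    exact ⟨h1, fun x _ => Or.inr (mem_univ x), h3⟩
  · rintro ⟨h1, _, h3⟩
    refine ⟨h1, fun x hx => ?_, h3⟩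
    by_cases hxρ : x ∈ ρ
    · exact Or.inl hxρ
    · refine Or.inr (mem_commonNbrs.2 (fun u hu => ?_))
      exact h3 (by exact_mod_cast h1 hu) (by exact_mod_cast hx) (fun e => hxρ (e ▸ hu))

/-- The cliques containing `σ` and the cliques of its link. -/
theorem core_sum [Fintype X] [DecidableEq X] (G : SimpleGraph X) {σ : Finset X}
    (hσ : G.IsClique (σ : Set X)) (K : Finset (Finset X)) (hK : ∀ τ, τ ∈ K ↔ τ ∈ fam G σ univ) :
    ∑ τ ∈ K, (-1 / 2 : ℚ) ^ τ.card = (-1 / 2 : ℚ) ^ σ.card * kappa G (commonNbrs G σ) := by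
  unfold kappa
  rw [Finset.mul_sum]
  refine Finset.sum_bij' (fun τ _ => τ \ σ) (fun τ _ => σ ∪ τ) ?_ ?_ ?_ ?_ ?_
  · intro τ hτ
    rw [hK] at hτ
    obtain ⟨h1, _, h3⟩ := hτ
    rw [mem_cliquesIn]
    refine ⟨fun x hx => ?_, h3.subset (by exact_mod_cast sdiff_subset)⟩
    rw [mem_sdiff] at hx
    refine mem_commonNbrs.2 (fun u hu => ?_)
    exact h3 (by exact_mod_cast h1 hu) (by exact_mod_cast hx.1) (fun e => hx.2 (e ▸ hu))
  · intro τ hτ
    rw [hK]
    exact ⟨subset_union_left, fun x _ => Or.inr (mem_univ x), (isClique_union hσ hτ).1⟩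
  · intro τ hτ
    rw [hK] at hτ
    exact union_sdiff_of_subset hτ.1
  · intro τ hτ
    have hd : Disjoint σ τ := by
      rw [Finset.disjoint_left]
      intro x hx hx'
      exact G.loopless.irrefl x (mem_commonNbrs.1 ((mem_cliquesIn.1 hτ).1 hx') x hx)
    exact union_sdiff_cancel_left hd
  · intro τ hτ
    rw [hK] at hτ
    rw [← pow_add, card_sdiff_of_subset hτ.1]
    congr 1
    have := card_le_card hτ.1
    omega

/-- **Local to global** for the link of an even clique. -/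
theorem cd_rel [Fintype X] [LinearOrder X] (G : SimpleGraph X) (n : ℕ)
    (hdim : ∀ τ : Finset X, G.IsClique (τ : Set X) → τ.card ≤ 2 * n)
    (σ : Finset X) (hσ : G.IsClique (σ : Set X)) (he : Even σ.card)
    (hT : ∀ ρ : Finset X, G.IsClique (ρ : Set X) → σ ⊆ ρ → Odd ρ.card →
      TameK G ↑(cliquesIn G (commonNbrs G ρ)))
    (hb : ∀ ρ : Finset X, G.IsClique (ρ : Set X) → σ ⊆ ρ → Even ρ.card →
      ∀ j : ℕ, 2 * j + ρ.card < 2 * n → ExactLink G ρ j) :
    0 ≤ (-1 : ℚ) ^ (n + σ.card / 2) * kappa G (commonNbrs G σ) := by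
  classical
  have hcx : ∀ ρ : Finset X, IsCx G ↑(cliquesIn G (commonNbrs G ρ)) := by
    intro ρ
    refine ⟨fun τ hτ => (mem_cliquesIn.1 hτ).2, fun τ hτ π hπ => ?_⟩
    obtain ⟨h1, h2⟩ := mem_cliquesIn.1 hτ
    exact mem_cliquesIn.2 ⟨hπ.trans h1, h2.subset (by exact_mod_cast hπ)⟩
  obtain ⟨Fm, hF⟩ := hasK_all (G := G)
    (𝒮 := {A | ∃ ρ : Finset X, G.IsClique (ρ : Set X) ∧ σ ⊆ ρ ∧ Odd ρ.card ∧
      A = ↑(cliquesIn G (commonNbrs G ρ))})
    (by
      rintro A ⟨ρ, h1, h2, h3, rfl⟩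
      exact hcx ρ)
    (by
      rintro A ⟨ρ, h1, h2, h3, rfl⟩
      exact hasK_of_tame (hT ρ h1 h2 h3))
  have : FiniteDimensional ℚ Fm.V := Module.Finite.of_basis Fm.b
  have : Nontrivial Fm.V := ⟨⟨Fm.b (Classical.arbitrary Fm.ι), 0, Fm.b.ne_zero _⟩⟩
  have hs : IsSys G (Fm.s 1) := Fm.sys 1
  have hg : ∀ ρ : Finset X, G.IsClique (ρ : Set X) → σ ⊆ ρ → Odd ρ.card → ∀ (S : Set X) (d : ℤ),
      ExAt (fam G ρ univ) (tw S (Fm.s 1)) d := by
    intro ρ h1 h2 h3 S d
    have h4 := hF _ ⟨ρ, h1, h2, h3, rfl⟩ S (d - ρ.card)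
    rw [core_fam] at h4
    have h5 := ex_star (van_isSys_tw hs S) ρ (commonNbrs G ρ) h1
      (fun x hx y hy => mem_commonNbrs.1 hx y hy) h4
    rw [sub_add_cancel, core_fam_univ] at h5
    exact h5
  have hlow := lower_rel hs n σ hdim hg (fun ρ h1 h2 h3 t ht h4 d hd =>
    const_ex ρ (commonNbrs G ρ) h1 (fun x => mem_commonNbrs) n (fun j hj f hf => by
      obtain ⟨g, hgg⟩ := hb ρ h1 h2 h3 j hj f (fun τ hτ hc =>
        hf τ (mem_cliquesIn.1 hτ).1 (mem_cliquesIn.1 hτ).2 hc)
      exact ⟨g, fun τ h5 h6 h7 => hgg τ (mem_cliquesIn.2 ⟨h5, h6⟩) h7⟩) t ht h4 d hd)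
  have hup := upper_rel hs n σ hdim hg
  obtain ⟨q, hq⟩ := he
  have h0 := euler_gen (F := fam G σ univ) (van_ok hs σ univ) (n + q) (fun S d hd => by
      rcases lt_or_gt_of_ne hd with h | h
      · refine hlow σ hσ subset_rfl S d ?_
        rw [hq]
        push_cast at h ⊢
        linarith
      · refine hup σ hσ subset_rfl univ S d ?_
        rw [hq]
        push_cast at h ⊢
        linarith) (Finset.univ.filter (fun τ => τ ∈ fam G σ univ)) (fun τ => by simp)
  rw [core_sum G hσ _ (fun τ => by simp)] at h0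
  have h1 : σ.card / 2 = q := by omega
  rw [h1]
  have h2 : (-1 / 2 : ℚ) ^ σ.card = (1 / 4 : ℚ) ^ q := by
    rw [hq, ← two_mul, pow_mul]
    norm_num
  rw [h2, mul_left_comm] at h0
  exact nonneg_of_mul_nonneg_right h0 (by positivity)

theorem tameK_inst {G : SimpleGraph X} {K : Set (Finset X)} (i1 i2 : DecidableEq X)
    (h : @TameK X i1 G K) : @TameK X i2 G K := by
  have : i1 = i2 := Subsingleton.elim _ _
  rw [← this]
  exact h

/-- Every clique of a pure complex has at most `2k` elements. -/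
theorem core_dim [Fintype X] {G : SimpleGraph X} {k : ℕ} (hE : EulerianFlag G k) :
    ∀ τ : Finset X, G.IsClique (τ : Set X) → τ.card ≤ 2 * k := by
  classical
  have main : ∀ m : ℕ, ∀ τ : Finset X, Fintype.card X - τ.card ≤ m → G.IsClique (τ : Set X) →
      τ.card ≤ 2 * k := by
    intro m
    induction m with
    | zero =>
      intro τ hm hτ
      by_cases hN : commonNbrs G τ = ∅
      · exact (hE.pure τ hτ hN).le
      · obtain ⟨v, hv⟩ := Finset.nonempty_iff_ne_empty.2 hN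
        have h1 : τ.card = Fintype.card X := le_antisymm (Finset.card_le_univ τ) (by omega)
        have h2 : v ∈ τ := by rw [(Finset.card_eq_iff_eq_univ τ).1 h1]; exact mem_univ v
        exact absurd (mem_commonNbrs.1 hv v h2) (G.loopless.irrefl v)
    | succ m ih =>
      intro τ hm hτ
      by_cases hN : commonNbrs G τ = ∅
      · exact (hE.pure τ hτ hN).le
      · obtain ⟨v, hv⟩ := Finset.nonempty_iff_ne_empty.2 hN
        have h1 : ({v} : Finset X) ∈ cliquesIn G (commonNbrs G τ) := by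
          rw [mem_cliquesIn]
          exact ⟨by simpa using hv, by simp⟩
        obtain ⟨h2, h3⟩ := isClique_union hτ h1
        have h4 := Finset.card_le_univ (τ ∪ {v})
        have h5 := ih (τ ∪ {v}) (by rw [h3, card_singleton]; rw [h3, card_singleton] at h4; omega)
          h2
        rw [h3, card_singleton] at h5
        omega
  intro τ
  exact main _ τ le_rfl

/-- A certificate determines the sign. -/
theorem cert_sign [Fintype X] {G : SimpleGraph X} {k : ℕ} (hE : EulerianFlag G k)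
    {σ : Finset X} (h : Cert G k σ) : G.IsClique (σ : Set X) → Even σ.card →
      0 ≤ (-1 : ℚ) ^ (k + σ.card / 2) * kappa G (commonNbrs G σ) := by
  classical
  induction h with
  | tame σ hT hL =>
    intro hσ he
    obtain ⟨ord, hL⟩ := hL
    exact cd_rel G k (core_dim hE) σ hσ he
      (fun ρ h1 h2 h3 => tameK_inst _ _ (hT ρ h1 h2 h3)) hL
  | step σ v hv h2 h0 ih =>
    intro hσ he
    rw [kappa_step hE hσ he hv, mul_neg, Finset.mul_sum, ← Finset.sum_neg_distrib]
    refine Finset.sum_nonneg (fun τ hτ => ?_)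
    rw [mem_filter] at hτ
    obtain ⟨h3, h4⟩ := hτ
    have hsub : far G (commonNbrs G σ) v ⊆ commonNbrs G σ := fun x hx => (mem_far.1 hx).1
    have hmem : τ ∈ cliquesIn G (commonNbrs G σ) := by
      rw [mem_cliquesIn] at h3 ⊢
      exact ⟨h3.1.trans hsub, h3.2⟩
    have h8 := isClique_union hσ hmem
    rcases Nat.even_or_odd τ.card with h6 | h6
    · by_cases h7 : τ.card % 4 = 2
      · have h9 := ih τ h3 h7 h8.1 (by rw [h8.2]; exact he.add h6)
        rw [h8.2] at h9
        obtain ⟨q, hq⟩ := he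
        obtain ⟨r, hr⟩ : ∃ r, τ.card = 2 * (2 * r + 1) := ⟨τ.card / 4, by omega⟩
        have e1 : (σ.card + τ.card) / 2 = q + (2 * r + 1) := by omega
        have e2 : σ.card / 2 = q := by omega
        rw [e1, ← add_assoc, pow_add _ (k + q), Odd.neg_one_pow ⟨r, rfl⟩] at h9
        rw [e2]
        have h10 : -((-1 : ℚ) ^ (k + q) * ((1 / 2 : ℚ) ^ τ.card * kappa G (commonNbrs G (σ ∪ τ)))) =
            (1 / 2 : ℚ) ^ τ.card * ((-1 : ℚ) ^ (k + q) * -1 * kappa G (commonNbrs G (σ ∪ τ))) := by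
          ring
        rw [h10]
        exact mul_nonneg (by positivity) h9
      · have h9 : τ.card % 4 = 0 := by
          obtain ⟨r, hr⟩ := h6
          omega
        rw [h0 τ h3 h9 h4]
        simp
    · rw [kappa_odd hE h8.1 (by rw [h8.2]; exact he.add_odd h6)]
      simp

/-- **Hopf's inequality for cube complexes with certified links.** -/
theorem hopf_of_cert (k : ℕ) (X : CubeComplex) (hE : ∀ x, EulerianFlag (X.link x) k)
    (h : ∀ x, Cert (X.link x) k ∅) : 0 ≤ (-1) ^ k * X.euler := by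
  have h1 : (0 : ℚ) ≤ (-1 : ℚ) ^ k * (X.euler : ℚ) := by
    rw [X.euler_eq, Finset.mul_sum]
    refine Finset.sum_nonneg (fun x _ => ?_)
    have h2 := cert_sign (hE x) (h x) (by simp) (by simp)
    simpa using h2
  exact_mod_cast h1

end Pool.Agent.Helper51.CD
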