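import Pool.Agent.Helper51.CD.Vanish

/-!
# CD4, relative form: only cliques containing a given clique (helper95's proof)
-/

open Finset

namespace Pool.Agent.Helper51.CD

variable {X : Type} [LinearOrder X]
variable {V : Type} [AddCommGroup V] [Module ℚ V]
variable {F F1 : Set (Finset X)} {s : X → Module.End ℚ V} {d : ℤ}

theorem upper_rel [Fintype X] {G : SimpleGraph X} (hs : IsSys G s) (n : ℕ) (ρ₀ : Finset X)
    (hdim : ∀ τ : Finset X, G.IsClique (τ : Set X) → τ.card ≤ 2 * n)
    (hg : ∀ ρ : Finset X, G.IsClique (ρ : Set X) → ρ₀ ⊆ ρ → Odd ρ.card → ∀ (S : Set X) (d : ℤ),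
      ExAt (fam G ρ univ) (tw S s) d) :
    ∀ ρ : Finset X, G.IsClique (ρ : Set X) → ρ₀ ⊆ ρ → ∀ (A : Finset X) (S : Set X) (d : ℤ),
      2 * n + ρ.card < 2 * d → ExAt (fam G ρ A) (tw S s) d := by
  have main : ∀ m : ℕ, ∀ ρ : Finset X, 2 * n - ρ.card = m → G.IsClique (ρ : Set X) → ρ₀ ⊆ ρ →
      ∀ (A : Finset X) (S : Set X) (d : ℤ),
      2 * n + ρ.card < 2 * d → ExAt (fam G ρ A) (tw S s) d := by
    intro m
    induction m using Nat.strong_induction_on with
    | _ m ih =>
    intro ρ hm hρ hρ₀ A S d hd
    have hcard := hdim ρ hρ
    -- the part containing a new vertex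
    have hnew : ∀ (u : X), u ∉ ρ → ∀ (B : Finset X) (e : ℤ), 2 * n + (ρ.card + 1) < 2 * e →
        ExAt (fam G (insert u ρ) B) (tw S s) e := by
      intro u hu B e he
      by_cases hc : G.IsClique ((insert u ρ : Finset X) : Set X)
      · have h1 : (insert u ρ).card = ρ.card + 1 := card_insert_of_notMem hu
        have h2 := hdim _ hc
        refine ih (2 * n - (insert u ρ).card) (by omega) (insert u ρ) rfl hc
          (hρ₀.trans (subset_insert u ρ)) B S e ?_
        rw [h1]
        push_cast
        linarith
      · rw [van_fam_empty hc]
        exact van_ex_empty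
    have hsys := van_isSys_tw hs S
    rcases Nat.even_or_odd ρ.card with hev | hod
    · -- even: induction on A
      obtain ⟨q, hq⟩ := hev
      induction A using Finset.induction_on with
      | empty =>
        apply van_ex_zero
        intro c hc
        funext τ
        by_cases h1 : τ ∈ fam G ρ ∅
        · apply hc.2.1
          have h2 : τ = ρ := by
            apply subset_antisymm _ h1.1
            intro x hx
            rcases h1.2.1 x hx with h3 | h3
            · exact h3
            · exact absurd h3 (notMem_empty x)
          rw [h2]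
          intro h3
          rw [← h3] at hd
          have h4 : (ρ.card : ℤ) ≤ 2 * n := by exact_mod_cast hcard
          linarith
        · exact hc.1 τ h1
      | insert u A huA ihA =>
        by_cases hu : u ∈ ρ
        · rw [van_fam_insert_mem hu]
          exact ihA
        · refine ex_glue (F1 := fam G ρ A) (van_ok hsys ρ _) van_fam_sub van_fam_down ihA ?_
          rw [van_fam_diff hu huA]
          apply hnew u hu
          have h5 : (ρ.card : ℤ) = q + q := by exact_mod_cast hq
          rw [h5] at hd ⊢
          omega
    · -- odd: remove vertices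
      have hall : ∀ B : Finset X, ExAt (fam G ρ Bᶜ) (tw S s) d := by
        intro B
        induction B using Finset.induction_on with
        | empty =>
          rw [compl_empty]
          exact hg ρ hρ hρ₀ hod S d
        | insert u B huB ihB =>
          have h1 : insert u (insert u B)ᶜ = Bᶜ := by
            ext x
            simp only [mem_insert, mem_compl]
            constructor
            · rintro (h2 | h2)
              · rw [h2]
                exact huB
              · exact fun h3 => h2 (Or.inr h3)
            · intro h2
              by_cases h3 : x = u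
              · exact Or.inl h3
              · exact Or.inr (fun h4 => h4.elim h3 h2)
          have h2 : u ∉ (insert u B)ᶜ := by
            rw [mem_compl, not_not]
            exact mem_insert_self u B
          rw [← h1] at ihB
          by_cases hu : u ∈ ρ
          · rw [van_fam_insert_mem hu] at ihB
            exact ihB
          · refine ex_low (F := fam G ρ (insert u (insert u B)ᶜ)) (van_ok hsys ρ _) van_fam_sub
              van_fam_down ihB ?_
            rw [van_fam_diff hu h2]
            apply hnew u hu
            linarith
      have h3 := hall Aᶜ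
      rw [compl_compl] at h3
      exact h3
  intro ρ hρ hρ₀ A S d hd
  exact main _ ρ rfl hρ hρ₀ A S d hd

theorem lower_rel [Fintype X] {G : SimpleGraph X} (hs : IsSys G s) (n : ℕ) (ρ₀ : Finset X)
    (hdim : ∀ τ : Finset X, G.IsClique (τ : Set X) → τ.card ≤ 2 * n)
    (hg : ∀ ρ : Finset X, G.IsClique (ρ : Set X) → ρ₀ ⊆ ρ → Odd ρ.card → ∀ (S : Set X) (d : ℤ),
      ExAt (fam G ρ univ) (tw S s) d)
    (hb : ∀ ρ : Finset X, G.IsClique (ρ : Set X) → ρ₀ ⊆ ρ → Even ρ.card → ∀ (t : X → Module.End ℚ V),
      IsSys G t → (∀ x, x ∉ ρ → t x = 1) → ∀ d : ℤ, 2 * d < 2 * n + ρ.card →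
      ExAt (fam G ρ univ) t d) :
    ∀ ρ : Finset X, G.IsClique (ρ : Set X) → ρ₀ ⊆ ρ → ∀ (S : Set X) (d : ℤ),
      2 * d < 2 * n + ρ.card → ExAt (fam G ρ univ) (tw S s) d := by
  have main : ∀ m : ℕ, ∀ ρ : Finset X, 2 * n - ρ.card = m → G.IsClique (ρ : Set X) → ρ₀ ⊆ ρ →
      ∀ (T : Finset X), Disjoint T ρ → ∀ (S : Set X) (d : ℤ),
      2 * d < 2 * n + ρ.card → ExAt (fam G ρ univ) (vanSys T S s) d := by
    intro m
    induction m using Nat.strong_induction_on with
    | _ m ih =>
    intro ρ hm hρ hρ₀
    have hcard := hdim ρ hρ
    have hnew : ∀ (u : X), u ∉ ρ → ∀ (T : Finset X), Disjoint T ρ → u ∉ T → ∀ (S : Set X)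
        (e : ℤ), 2 * e < 2 * n + (ρ.card + 1) →
        ExAt {τ | τ ∈ fam G ρ univ ∧ u ∈ τ} (tw {u} (vanSys T S s)) e := by
      intro u hu T hT huT S e he
      rw [van_fam_mem]
      obtain ⟨S', hS'⟩ := vanSys_tw (s := s) T S huT
      rw [hS']
      by_cases hc : G.IsClique ((insert u ρ : Finset X) : Set X)
      · have h1 : (insert u ρ).card = ρ.card + 1 := card_insert_of_notMem hu
        have h2 := hdim _ hc
        refine ih (2 * n - (insert u ρ).card) (by omega) (insert u ρ) rfl hc
          (hρ₀.trans (subset_insert u ρ)) T ?_ S' e ?_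
        · rw [disjoint_insert_right]
          exact ⟨huT, hT⟩
        · rw [h1]
          push_cast
          linarith
      · rw [van_fam_empty hc]
        exact van_ex_empty
    rcases Nat.even_or_odd ρ.card with hev | hod
    · -- even: start from the complement of ρ
      have hall : ∀ B : Finset X, Disjoint B ρ → ∀ (S : Set X) (d : ℤ),
          2 * d < 2 * n + ρ.card → ExAt (fam G ρ univ) (vanSys (ρᶜ \ B) S s) d := by
        intro B
        induction B using Finset.induction_on with
        | empty =>
          intro _ S d hd
          rw [sdiff_empty]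
          refine hb ρ hρ hρ₀ hev _ (vanSys_isSys hs _ S) (fun x hx => ?_) d hd
          unfold vanSys
          rw [if_pos (mem_compl.2 hx)]
        | insert u B huB ihB =>
          intro hB S d hd
          obtain ⟨hu, hB'⟩ := disjoint_insert_left.1 hB
          have hI := ihB hB' S d hd
          have h1 : insert u (ρᶜ \ insert u B) = ρᶜ \ B := by
            ext x
            simp only [mem_insert, mem_compl, mem_sdiff]
            constructor
            · rintro (h2 | h2)
              · rw [h2]
                exact ⟨hu, huB⟩
              · exact ⟨h2.1, fun h3 => h2.2 (Or.inr h3)⟩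
            · intro h2
              by_cases h3 : x = u
              · exact Or.inl h3
              · exact Or.inr ⟨h2.1, fun h4 => h4.elim h3 h2.2⟩
          have h2 : u ∉ ρᶜ \ insert u B := by
            intro h3
            exact (mem_sdiff.1 h3).2 (mem_insert_self u B)
          rw [← h1, ← vanSys_update] at hI
          refine triv_down (van_ok (vanSys_isSys hs _ S) ρ univ) u hI ?_
          refine hnew u hu _ ?_ h2 S (d + 1) ?_
          · exact Disjoint.mono_left sdiff_subset disjoint_compl_left
          · obtain ⟨q, hq⟩ := hev
            have h5 : (ρ.card : ℤ) = q + q := by exact_mod_cast hq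
            rw [h5] at hd ⊢
            omega
      intro T hT S d hd
      have h1 : ρᶜ \ (ρᶜ \ T) = T := by
        rw [sdiff_sdiff_right_self]
        apply inf_eq_right.2
        intro x hx
        rw [mem_compl]
        exact fun h => (disjoint_left.1 hT hx h)
      have h2 := hall (ρᶜ \ T) (Disjoint.mono_left sdiff_subset disjoint_compl_left) S d hd
      rw [h1] at h2
      exact h2
    · -- odd: start from the empty set
      intro T
      induction T using Finset.induction_on with
      | empty =>
        intro _ S d _
        rw [vanSys_empty]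
        exact hg ρ hρ hρ₀ hod S d
      | insert u T huT ihT =>
        intro hT S d hd
        obtain ⟨hu, hT'⟩ := disjoint_insert_left.1 hT
        rw [← vanSys_update]
        refine triv_up (van_ok (vanSys_isSys hs _ S) ρ univ) u (ihT hT' S d hd) ?_
        refine hnew u hu T hT' huT S d ?_
        linarith
  intro ρ hρ hρ₀ S d hd
  have h := main _ ρ rfl hρ hρ₀ ∅ (disjoint_empty_left ρ) S d hd
  rw [vanSys_empty] at h
  exact h

end Pool.Agent.Helper51.CD
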