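import Pool.Agent.Helper51.CD.Defs

/-!
# CD1: signs, the differential

Di maps CC d to CC (d+1) and Di o Di = 0 on CC. For x in t: P_x maps vectors fixed by s_y (y in
t minus x) to vectors fixed by s_y (y in t), since P_x commutes with s_y and s_x P_x = P_x.
In Di (Di c) t = sum over ordered pairs (x, y), x in t, y in t minus x, the terms (x, y) and (y, x)
cancel by sg_anti and P_x P_y = P_y P_x; if c (t minus x, y) is nonzero then it lies in F, so
t minus x and t minus y lie in F by convexity.
-/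

open Finset

namespace Pool.Agent.Helper51.CD

variable {X : Type} [LinearOrder X]
variable {V : Type} [AddCommGroup V] [Module ℚ V]
variable {F F1 : Set (Finset X)} {s : X → Module.End ℚ V} {d : ℤ}

theorem sg_sq (x : X) (τ : Finset X) : sg x τ * sg x τ = 1 := by
  unfold sg
  rw [← mul_pow]
  norm_num

/-- Erasing a smaller element changes the sign. -/
theorem sg_erase_lt {x y : X} {τ : Finset X} (hy : y ∈ τ) (h : y < x) :
    sg x (τ.erase y) = - sg x τ := by
  unfold sg
  have h1 : (τ.erase y).filter (fun z => z < x) = (τ.filter (fun z => z < x)).erase y := by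
    rw [Finset.filter_erase]
  have h2 : y ∈ τ.filter (fun z => z < x) := by
    rw [mem_filter]; exact ⟨hy, h⟩
  have h3 := Finset.card_erase_add_one h2
  rw [h1, ← h3, pow_succ]
  ring

/-- Erasing a larger element does not change the sign. -/
theorem sg_erase_gt {x y : X} {τ : Finset X} (h : x < y) :
    sg x (τ.erase y) = sg x τ := by
  unfold sg
  have h1 : (τ.erase y).filter (fun z => z < x) = τ.filter (fun z => z < x) := by
    rw [Finset.filter_erase]
    apply Finset.erase_eq_of_notMem
    rw [mem_filter]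
    rintro ⟨_, h2⟩
    exact absurd (h.trans h2) (lt_irrefl x)
  rw [h1]

theorem sg_anti {x y : X} {τ : Finset X} (hx : x ∈ τ) (hy : y ∈ τ) (hxy : x ≠ y) :
    sg x τ * sg y (τ.erase x) = - (sg y τ * sg x (τ.erase y)) := by
  rcases lt_or_gt_of_ne hxy with h | h
  · rw [sg_erase_lt hx h, sg_erase_gt h]
    ring
  · rw [sg_erase_gt h, sg_erase_lt hy h]
    ring

open scoped Classical in
theorem Di_apply (F : Set (Finset X)) (s : X → Module.End ℚ V) (c : Finset X → V)
    (τ : Finset X) : Di F s c τ =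
      if τ ∈ F then ∑ x ∈ τ, sg x τ • Pr s x (c (τ.erase x)) else 0 := by
  unfold Di
  rw [LinearMap.pi_apply]
  split_ifs with h
  · rw [LinearMap.sum_apply]
    refine Finset.sum_congr rfl (fun x _ => ?_)
    rfl
  · rfl

theorem Di_of_notMem (s : X → Module.End ℚ V) (c : Finset X → V) {τ : Finset X} (h : τ ∉ F) :
    Di F s c τ = 0 := by
  classical
  rw [Di_apply, if_neg h]

theorem Di_of_mem (s : X → Module.End ℚ V) (c : Finset X → V) {τ : Finset X} (h : τ ∈ F) :
    Di F s c τ = ∑ x ∈ τ, sg x τ • Pr s x (c (τ.erase x)) := by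
  classical
  rw [Di_apply, if_pos h]

theorem Pr_apply (s : X → Module.End ℚ V) (x : X) (v : V) :
    Pr s x v = (1 / 2 : ℚ) • (v + s x v) := by
  unfold Pr
  rw [LinearMap.smul_apply, LinearMap.add_apply, Module.End.one_apply]

/-- The projection fixes the fixed vectors. -/
theorem Pr_of_fix {x : X} {v : V} (h : s x v = v) : Pr s x v = v := by
  rw [Pr_apply, h, ← two_smul ℚ v, smul_smul]
  norm_num

theorem s_Pr {x : X} (h : s x * s x = 1) (v : V) : s x (Pr s x v) = Pr s x v := by
  have h1 : s x (s x v) = v := by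
    rw [← Module.End.mul_apply, h, Module.End.one_apply]
  rw [Pr_apply, map_smul, map_add, h1, add_comm]

theorem s_Pr_comm {x y : X} (h : s y * s x = s x * s y) (v : V) :
    s y (Pr s x v) = Pr s x (s y v) := by
  rw [Pr_apply, Pr_apply, map_smul, map_add]
  have : s y (s x v) = s x (s y v) := by
    rw [← Module.End.mul_apply, h, Module.End.mul_apply]
  rw [this]

theorem Pr_Pr_comm {x y : X} (h : s y * s x = s x * s y) (v : V) :
    Pr s y (Pr s x v) = Pr s x (Pr s y v) := by
  rw [Pr_apply s y (Pr s x v), s_Pr_comm h, ← map_add, ← map_smul, ← Pr_apply]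

theorem Pr_Pr {x : X} (h : s x * s x = 1) (v : V) : Pr s x (Pr s x v) = Pr s x v :=
  Pr_of_fix (s_Pr h v)

theorem mem_CC {c : Finset X → V} : c ∈ CC F s d ↔ (∀ τ, τ ∉ F → c τ = 0) ∧
    (∀ τ : Finset X, (τ.card : ℤ) ≠ d → c τ = 0) ∧ ∀ τ, ∀ x ∈ τ, s x (c τ) = c τ := Iff.rfl

theorem Di_mem (h : Ok F s) {c : Finset X → V} (hc : c ∈ CC F s d) :
    Di F s c ∈ CC F s (d + 1) := by
  rw [mem_CC] at hc ⊢
  obtain ⟨h1, h2, h3⟩ := hc
  refine ⟨fun τ hτ => Di_of_notMem s c hτ, fun τ hτ => ?_, fun τ y hy => ?_⟩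
  · by_cases hF : τ ∈ F
    · rw [Di_of_mem s c hF]
      refine Finset.sum_eq_zero (fun x hx => ?_)
      rw [h2 (τ.erase x), map_zero, smul_zero]
      intro h4
      apply hτ
      have h5 := Finset.card_erase_add_one hx
      rw [← h4, ← h5]
      push_cast
      ring
    · exact Di_of_notMem s c hF
  · by_cases hF : τ ∈ F
    · rw [Di_of_mem s c hF, map_sum]
      refine Finset.sum_congr rfl (fun x hx => ?_)
      rw [map_smul]
      by_cases hxy : x = y
      · subst hxy
        rw [s_Pr (h.inv x)]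
      · rw [s_Pr_comm (h.comm τ hF y hy x hx),
          h3 (τ.erase x) y (mem_erase.2 ⟨fun e => hxy e.symm, hy⟩)]
    · rw [Di_of_notMem s c hF, map_zero]

theorem Di_Di (h : Ok F s) {c : Finset X → V} (hc : c ∈ CC F s d) :
    Di F s (Di F s c) = 0 := by
  rw [mem_CC] at hc
  obtain ⟨h1, _, _⟩ := hc
  funext τ
  rw [Pi.zero_apply]
  by_cases hF : τ ∈ F
  swap
  · exact Di_of_notMem s _ hF
  rw [Di_of_mem s _ hF]
  -- the double sum over ordered pairs
  have key : ∀ x ∈ τ, sg x τ • Pr s x (Di F s c (τ.erase x)) =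
      ∑ y ∈ τ, (if x = y then 0 else
        (sg x τ * sg y (τ.erase x)) • Pr s x (Pr s y (c ((τ.erase x).erase y)))) := by
    intro x hx
    have e1 : ∑ y ∈ τ, (if x = y then (0 : V) else
        (sg x τ * sg y (τ.erase x)) • Pr s x (Pr s y (c ((τ.erase x).erase y)))) =
        ∑ y ∈ τ.erase x, (sg x τ * sg y (τ.erase x)) •
          Pr s x (Pr s y (c ((τ.erase x).erase y))) := by
      rw [← Finset.add_sum_erase τ _ hx, if_pos rfl, zero_add]
      refine Finset.sum_congr rfl (fun y hy => ?_)
      rw [if_neg (fun e => (mem_erase.1 hy).1 e.symm)]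
    rw [e1]
    by_cases hxF : τ.erase x ∈ F
    · rw [Di_of_mem s c hxF, map_sum, Finset.smul_sum]
      refine Finset.sum_congr rfl (fun y _ => ?_)
      rw [map_smul, smul_smul]
    · rw [Di_of_notMem s c hxF, map_zero, smul_zero]
      symm
      refine Finset.sum_eq_zero (fun y hy => ?_)
      have : c ((τ.erase x).erase y) = 0 := by
        apply h1
        intro hyF
        exact hxF (h.conv τ hF _ hyF _ (Finset.erase_subset _ _) (Finset.erase_subset _ _))
      rw [this, map_zero, map_zero, smul_zero]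
  rw [Finset.sum_congr rfl key]
  -- antisymmetry
  set f : X → X → V := fun x y => if x = y then 0 else
        (sg x τ * sg y (τ.erase x)) • Pr s x (Pr s y (c ((τ.erase x).erase y))) with hf
  have hanti : ∀ x ∈ τ, ∀ y ∈ τ, f x y = - f y x := by
    intro x hx y hy
    simp only [hf]
    by_cases hxy : x = y
    · rw [if_pos hxy, if_pos hxy.symm, neg_zero]
    · rw [if_neg hxy, if_neg (fun e => hxy e.symm), sg_anti hx hy hxy,
        Pr_Pr_comm (h.comm τ hF x hx y hy), Finset.erase_right_comm, neg_smul]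
  have hsum : ∑ x ∈ τ, ∑ y ∈ τ, f x y = - ∑ x ∈ τ, ∑ y ∈ τ, f x y := by
    conv_lhs => rw [Finset.sum_comm]
    rw [← Finset.sum_neg_distrib]
    refine Finset.sum_congr rfl (fun x hx => ?_)
    rw [← Finset.sum_neg_distrib]
    exact Finset.sum_congr rfl (fun y hy => hanti y hy x hx)
  have h2 : (2 : ℚ) • ∑ x ∈ τ, ∑ y ∈ τ, f x y = 0 := by
    rw [two_smul]
    nth_rw 2 [hsum]
    rw [add_neg_cancel]
  have h3 := congrArg (fun z => (1 / 2 : ℚ) • z) h2
  simp only [smul_smul, smul_zero] at h3
  norm_num at h3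
  exact h3

end Pool.Agent.Helper51.CD
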