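import Pool.Agent.Helper51.CD.Generic
import Pool.Agent.Helper51.CD.Cone

/-!
# CD9: one family for two sets of subgraphs

F1 : PFam G good at 1 on 𝒮, F2 good at 1 on 𝒮'. For a parameter r the system
T r x = TensorProduct.map (F1.s (1 - r) x) (F2.s r x) on F1.V ⊗[ℚ] F2.V is polynomial in r.
At r = 0 it is good on 𝒮: F2.s 0 x is diagonal in the basis F2.b, so with the maps
p i = (rid) o (id ⊗ coord i), j i v = v ⊗ F2.b i one can use ex_sum with t i = F1.s 1 with the signs
changed where F2.s 0 x (F2.b i) = - F2.b i; Good is for all signs. Similarly at r = 1 it is good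
on 𝒮'. By generic_good both hold for all r outside a finite set; fix such an r. The new
family is t to TensorProduct.map (F1.s ((1-r) t) x) (F2.s (r t) x), basis the tensor product of the
bases (Basis.tensorProduct), index type the product.
hasGood_finite: induction over the finite set 𝒮; the empty set: the family with V = ℚ, s = 1.
-/

open Finset

namespace Pool.Agent.Helper51.CD

variable {X : Type} [LinearOrder X]
variable {V : Type} [AddCommGroup V] [Module ℚ V]
variable {F F1 : Set (Finset X)} {s : X → Module.End ℚ V} {d : ℤ}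

open scoped TensorProduct

private theorem comb_coord {W : Type} [AddCommGroup W] [Module ℚ W] {ι : Type}
    (b : Module.Basis ι ℚ W) (e : Module.End ℚ W) (ε : ι → ℚ) (he : ∀ i, e (b i) = ε i • b i)
    (i : ι) (c : W) : b.coord i (e c) = ε i * b.coord i c := by
  have : (b.coord i) ∘ₗ e = ε i • b.coord i := by
    apply b.ext
    intro j
    simp only [LinearMap.comp_apply, LinearMap.smul_apply, he, map_smul, smul_eq_mul,
      Module.Basis.coord_apply, Module.Basis.repr_self]
    by_cases hij : j = i
    · subst hij; rfl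
    · simp [Finsupp.single_apply, hij]
  have h2 := LinearMap.congr_fun this c
  simpa using h2

private theorem comb_right {W : Type} [AddCommGroup W] [Module ℚ W] {ι : Type} [Fintype ι]
    (b : Module.Basis ι ℚ W) (e : X → Module.End ℚ W)
    (he : ∀ x i, e x (b i) = b i ∨ e x (b i) = - b i) {G : SimpleGraph X} {A : Finset X}
    (h : Good G A s) : Good G A (fun x => TensorProduct.map (s x) (e x)) := by
  classical
  intro S d
  have hne : ∀ i, b i ≠ - b i := by
    intro i hi
    have h0 : (2 : ℚ) • b i = 0 := by
      rw [two_smul]; nth_rewrite 2 [hi]; simp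
    exact b.ne_zero i ((smul_eq_zero.1 h0).resolve_left (by norm_num))
  let ε : X → ι → ℚ := fun x i => if e x (b i) = b i then 1 else -1
  have hε : ∀ x i, e x (b i) = ε x i • b i := by
    intro x i
    by_cases h1 : e x (b i) = b i
    · simp [ε, h1]
    · have h2 := (he x i).resolve_left h1
      simp only [ε, if_neg h1, h2, neg_smul, one_smul]
  let Si : ι → Set X := fun i => {x | (x ∈ S ∧ e x (b i) = b i) ∨ (x ∉ S ∧ e x (b i) ≠ b i)}
  have ht : ∀ i x, tw (Si i) s x = ε x i • tw S s x := by
    intro i x
    by_cases hx : x ∈ S <;> by_cases h1 : e x (b i) = b i <;>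
      simp [tw, Si, ε, hx, h1]
  refine ex_sum (ι := ι) (W := V)
    (fun i => (TensorProduct.rid ℚ V).toLinearMap ∘ₗ LinearMap.lTensor V (b.coord i))
    (fun i => (TensorProduct.mk ℚ V W).flip (b i))
    (fun i => tw (Si i) s) ?_ ?_ ?_ (fun i => h (Si i) d)
  · intro v
    induction v using TensorProduct.induction_on with
    | zero => simp
    | tmul a c =>
      simp only [LinearMap.comp_apply, LinearMap.lTensor_tmul, LinearEquiv.coe_coe,
        TensorProduct.rid_tmul, LinearMap.flip_apply, TensorProduct.mk_apply,
        TensorProduct.smul_tmul]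
      rw [← TensorProduct.tmul_sum]
      congr 1
      simp [Module.Basis.sum_repr]
    | add u v hu hv =>
      simp only [map_add, Finset.sum_add_distrib]
      rw [hu, hv]
  · intro i x v
    induction v using TensorProduct.induction_on with
    | zero => simp
    | tmul a c =>
      have h1 : (tw S (fun x => TensorProduct.map (s x) (e x)) x) (a ⊗ₜ[ℚ] c)
          = (tw S s x a) ⊗ₜ[ℚ] (e x c) := by
        by_cases hx : x ∈ S
        · simp [tw, hx, TensorProduct.neg_tmul]
        · simp [tw, hx]
      rw [h1]
      simp only [LinearMap.comp_apply, LinearMap.lTensor_tmul, LinearEquiv.coe_coe,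
        TensorProduct.rid_tmul, map_smul]
      rw [comb_coord b (e x) (ε x) (hε x) i c, ht i x, LinearMap.smul_apply, smul_smul,
        mul_comm]
    | add u v hu hv =>
      simp only [map_add]
      rw [hu, hv]
  · intro i x v
    have h1 : ∀ (a : V) (c : W), (tw S (fun x => TensorProduct.map (s x) (e x)) x) (a ⊗ₜ[ℚ] c)
          = (tw S s x a) ⊗ₜ[ℚ] (e x c) := by
      intro a c
      by_cases hx : x ∈ S
      · simp [tw, hx, TensorProduct.neg_tmul]
      · simp [tw, hx]
    simp only [LinearMap.flip_apply, TensorProduct.mk_apply]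
    rw [h1, hε x i, ht i x, LinearMap.smul_apply, TensorProduct.smul_tmul]

private theorem comb_left {W : Type} [AddCommGroup W] [Module ℚ W] {ι : Type} [Fintype ι]
    (b : Module.Basis ι ℚ W) (e : X → Module.End ℚ W)
    (he : ∀ x i, e x (b i) = b i ∨ e x (b i) = - b i) {G : SimpleGraph X} {A : Finset X}
    (h : Good G A s) : Good G A (fun x => TensorProduct.map (e x) (s x)) := by
  classical
  intro S d
  refine ex_sum (ι := Unit) (W := V ⊗[ℚ] W)
    (fun _ => (TensorProduct.comm ℚ W V).toLinearMap)
    (fun _ => (TensorProduct.comm ℚ W V).symm.toLinearMap)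
    (fun _ => tw S (fun x => TensorProduct.map (s x) (e x))) ?_ ?_ ?_
    (fun _ => comb_right b e he h S d)
  · intro v
    simp
  · intro _ x v
    induction v using TensorProduct.induction_on with
    | zero => simp
    | tmul a c =>
      by_cases hx : x ∈ S
      · simp [tw, hx]
      · simp [tw, hx]
    | add u v hu hv =>
      simp only [map_add]
      rw [hu, hv]
  · intro _ x v
    induction v using TensorProduct.induction_on with
    | zero => simp
    | tmul a c =>
      by_cases hx : x ∈ S
      · simp [tw, hx]
      · simp [tw, hx]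
    | add u v hu hv =>
      simp only [map_add]
      rw [hu, hv]

private theorem comb_sys {W : Type} [AddCommGroup W] [Module ℚ W] {G : SimpleGraph X}
    {s' : X → Module.End ℚ W} (h : IsSys G s) (h' : IsSys G s') :
    IsSys G (fun x => TensorProduct.map (s x) (s' x)) := by
  refine ⟨fun x => ?_, fun x y hxy => ?_⟩
  · show TensorProduct.map (s x) (s' x) * TensorProduct.map (s x) (s' x) = 1
    rw [← TensorProduct.map_mul, h.inv, h'.inv, TensorProduct.map_one]
  · show TensorProduct.map (s x) (s' x) * TensorProduct.map (s y) (s' y)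
      = TensorProduct.map (s y) (s' y) * TensorProduct.map (s x) (s' x)
    rw [← TensorProduct.map_mul, ← TensorProduct.map_mul, h.comm x y hxy, h'.comm x y hxy]

private noncomputable def combBil (V W : Type) [AddCommGroup V] [Module ℚ V] [AddCommGroup W]
    [Module ℚ W] : Module.End ℚ V →ₗ[ℚ] Module.End ℚ W →ₗ[ℚ] Module.End ℚ (V ⊗[ℚ] W) :=
  LinearMap.mk₂ ℚ (fun (f : Module.End ℚ V) (g : Module.End ℚ W) =>
      (TensorProduct.map f g : Module.End ℚ (V ⊗[ℚ] W)))
    (fun f f' g => TensorProduct.map_add_left f f' g)
    (fun c f g => TensorProduct.map_smul_left c f g)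
    (fun f g g' => TensorProduct.map_add_right f g g')
    (fun c f g => TensorProduct.map_smul_right c f g)

private theorem combBil_apply {W : Type} [AddCommGroup W] [Module ℚ W] (f : Module.End ℚ V)
    (g : Module.End ℚ W) : combBil V W f g = TensorProduct.map f g := rfl

private theorem comb_poly {W : Type} [AddCommGroup W] [Module ℚ W]
    {f : ℚ → Module.End ℚ V} {g : ℚ → Module.End ℚ W} (hf : IsPoly f) (hg : IsPoly g) :
    IsPoly (M := Module.End ℚ (V ⊗[ℚ] W)) (fun t => TensorProduct.map (f t) (g t)) := by
  have h := IsPoly.bilin (combBil V W) hf hg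
  simp only [combBil_apply] at h
  exact h

theorem HasGood.union [Fintype X] {G : SimpleGraph X} {𝒮 𝒮' : Set (Finset X)}
    (h : HasGood G 𝒮) (h' : HasGood G 𝒮') : HasGood G (𝒮 ∪ 𝒮') := by
  classical
  obtain ⟨F1, h1⟩ := h
  obtain ⟨F2, h2⟩ := h'
  haveI : FiniteDimensional ℚ F1.V := Module.Finite.of_basis F1.b
  haveI : FiniteDimensional ℚ F2.V := Module.Finite.of_basis F2.b
  let T : ℚ → X → Module.End ℚ (F1.V ⊗[ℚ] F2.V) := fun r x =>
    TensorProduct.map (F1.s (1 - r) x) (F2.s r x)
  have hTp : ∀ x, IsPoly (fun t => T t x) := by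
    intro x
    have ha := IsPoly.comp_affine (-1) 1 (F1.poly x)
    have hb : IsPoly (fun t => F1.s (1 - t) x) := by
      have : (fun t : ℚ => F1.s (1 - t) x) = fun t => F1.s (-1 * t + 1) x := by
        funext t; congr 1; ring
      rw [this]; exact ha
    exact comb_poly hb (F2.poly x)
  have hTs : ∀ t, IsSys G (T t) := fun t => comb_sys (F1.sys (1 - t)) (F2.sys t)
  have g0 : ∀ A ∈ 𝒮, Good G A (T 0) := by
    intro A hA
    have : T 0 = fun x => TensorProduct.map (F1.s 1 x) (F2.s 0 x) := by
      funext x; simp [T]
    rw [this]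
    exact comb_right F2.b (F2.s 0) F2.diag (h1 A hA)
  have g1 : ∀ A ∈ 𝒮', Good G A (T 1) := by
    intro A hA
    have : T 1 = fun x => TensorProduct.map (F1.s 0 x) (F2.s 1 x) := by
      funext x; simp [T]
    rw [this]
    exact comb_left F1.b (F1.s 0) F1.diag (h2 A hA)
  obtain ⟨p, hp0, hp⟩ := generic_good hTp hTs 0 𝒮 g0
  obtain ⟨q, hq0, hq⟩ := generic_good hTp hTs 1 𝒮' g1
  obtain ⟨r, hr⟩ : ∃ r : ℚ, (p * q).eval r ≠ 0 := by
    by_contra hcon
    push Not at hcon
    exact (mul_ne_zero hp0 hq0) (Polynomial.funext (by intro r; rw [hcon r, Polynomial.eval_zero]))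
  rw [Polynomial.eval_mul] at hr
  have hr1 := left_ne_zero_of_mul hr
  have hr2 := right_ne_zero_of_mul hr
  let FF : PFam G :=
    { V := F1.V ⊗[ℚ] F2.V
      s := fun t x => TensorProduct.map (F1.s ((1 - r) * t) x) (F2.s (r * t) x)
      ι := F1.ι × F2.ι
      b := F1.b.tensorProduct F2.b
      sys := fun t => comb_sys (F1.sys _) (F2.sys _)
      poly := by
        intro x
        have ha := IsPoly.comp_affine (1 - r) 0 (F1.poly x)
        have hb := IsPoly.comp_affine r 0 (F2.poly x)
        simp only [add_zero] at ha hb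
        exact comb_poly ha hb
      diag := by
        rintro x ⟨i, j⟩
        simp only [mul_zero, Module.Basis.tensorProduct_apply, TensorProduct.map_tmul]
        rcases F1.diag x i with hi | hi <;> rcases F2.diag x j with hj | hj <;>
          rw [hi, hj] <;> simp [TensorProduct.neg_tmul, TensorProduct.tmul_neg] }
  refine ⟨FF, ?_⟩
  have hFF : FF.s 1 = T r := by
    funext x
    show TensorProduct.map (F1.s ((1 - r) * 1) x) (F2.s (r * 1) x)
      = TensorProduct.map (F1.s (1 - r) x) (F2.s r x)
    rw [mul_one, mul_one]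
  intro A hA
  show Good G A (FF.s 1)
  rw [hFF]
  rcases hA with hA | hA
  · exact hp r hr1 A hA
  · exact hq r hr2 A hA

theorem hasGood_all [Fintype X] {G : SimpleGraph X} {𝒮 : Set (Finset X)}
    (h : ∀ A ∈ 𝒮, HasGood G {A}) : HasGood G 𝒮 := by
  classical
  have hfin : 𝒮.Finite := Set.toFinite 𝒮
  induction 𝒮, hfin using Set.Finite.induction_on with
  | empty =>
    refine ⟨{ V := ℚ
              s := fun _ _ => 1
              ι := Unit
              b := Module.Basis.singleton Unit ℚ
              sys := fun t => ⟨fun x => by simp, fun x y _ => rfl⟩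
              poly := fun x => IsPoly.const _
              diag := fun x i => Or.inl (by simp) }, ?_⟩
    intro A hA
    exact absurd hA (Set.notMem_empty A)
  | @insert A S hA hS ih =>
    have h1 := h A (Set.mem_insert _ _)
    have h2 := ih (fun B hB => h B (Set.mem_insert_of_mem _ hB))
    have := h1.union h2
    rwa [Set.singleton_union] at this

end Pool.Agent.Helper51.CD
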