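import Pool.Agent.Helper51.CD.ContrKA

/-!
# CDK1, part (B)

Exactness of the family of the faces that do not contain both `v` and `w`, and sign changes.
-/

open Finset

namespace Pool.Agent.Helper51.CD

variable {X : Type} [LinearOrder X]
variable {V : Type} [AddCommGroup V] [Module ℚ V]

theorem kb_okK {G : SimpleGraph X} {K : Set (Finset X)} {v w : X} (hvw : v ≠ w)
    (hK : IsCx G K) {r : X → Module.End ℚ V} (hr : IsSys (contr G v w) r) :
    Ok K (Function.update r w (r v)) :=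
  (kaE_ok hvw hK hr).mono_down (subset_kaE hK) (fun τ hτ ρ _ hsub => hK.down τ hτ ρ hsub)

/-- Part (B) of task CDK1. -/
theorem exK_not2 {G : SimpleGraph X} {K : Set (Finset X)} {v w : X} (hvw : v ≠ w)
    (hK : IsCx G K)
    {r : X → Module.End ℚ V} (hr : IsSys (contr G v w) r)
    (hA : ∀ d, ExAt K (Function.update r w (r v)) d)
    (h2 : ∀ d, ExAt (lkK K v w) r d) (d : ℤ) :
    ExAt {τ | τ ∈ K ∧ ¬ (v ∈ τ ∧ w ∈ τ)} (Function.update r w (r v)) d := by
  have e0 : ∀ d, ExAt (lkK K v w) (Function.update r w (r v)) d := by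
    intro d
    refine ex_congr (s := r) (fun τ hτ x hx => ?_) (h2 d)
    have hxw : x ≠ w := by
      rintro rfl
      exact hτ.2.1 hx
    rw [ka_upd, if_neg hxw]
  have e1 : ∀ d, ExAt {τ | w ∈ τ ∧ τ.erase w ∈ lkK K v w} (Function.update r w (r v)) (d + 1) := by
    intro d
    refine ex_shift w (fun τ hτ => hτ.2.1) (ka_inv hr w) (fun τ hτ x hx => ?_) (e0 d)
    refine ka_comm hr (fun h3 _ _ => Or.inl ?_)
    exact hK.clique _ hτ.2.2 (mem_coe.2 (mem_insert_of_mem (mem_insert_self _ _)))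
      (mem_coe.2 (mem_insert_of_mem (mem_insert_of_mem hx))) h3
  have e2 : ∀ d, ExAt {τ | v ∈ τ ∧ τ.erase v ∈ {τ | w ∈ τ ∧ τ.erase w ∈ lkK K v w}}
      (Function.update r w (r v)) (d + 1 + 1) := by
    intro d
    refine ex_shift v ?_ (ka_inv hr v) ?_ (e1 d)
    · rintro τ ⟨h3, h4⟩ h5
      exact h4.1 (mem_erase.2 ⟨hvw, h5⟩)
    · rintro τ ⟨h3, h4⟩ x hx
      refine ka_comm hr (fun h5 h6 _ => Or.inl ?_)
      have hxw : x ≠ w := fun e => h6 ⟨rfl, e⟩
      exact hK.clique _ h4.2.2 (mem_coe.2 (mem_insert_self _ _))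
        (mem_coe.2 (mem_insert_of_mem (mem_insert_of_mem (mem_erase.2 ⟨hxw, hx⟩)))) h5
  have hset : K \ {τ | τ ∈ K ∧ ¬ (v ∈ τ ∧ w ∈ τ)} =
      {τ | v ∈ τ ∧ τ.erase v ∈ {τ | w ∈ τ ∧ τ.erase w ∈ lkK K v w}} := by
    ext τ
    constructor
    · rintro ⟨h3, h4⟩
      have h5 : v ∈ τ ∧ w ∈ τ := by
        by_contra h5
        exact h4 ⟨h3, h5⟩
      refine ⟨h5.1, mem_erase.2 ⟨fun e => hvw e.symm, h5.2⟩, ?_, ?_, ?_⟩
      · intro h6
        exact (mem_erase.1 (mem_erase.1 h6).2).1 rfl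
      · intro h6
        exact (mem_erase.1 h6).1 rfl
      · rw [Finset.insert_erase (mem_erase.2 ⟨fun e => hvw e.symm, h5.2⟩),
          Finset.insert_erase h5.1]
        exact h3
    · rintro ⟨h3, h4, h5⟩
      have h6 := h5.2.2
      rw [Finset.insert_erase h4, Finset.insert_erase h3] at h6
      exact ⟨h6, fun h7 => h7.2 ⟨h3, (mem_erase.1 h4).2⟩⟩
  refine ex_low (kb_okK hvw hK hr) (fun τ hτ => hτ.1) ?_ (hA d) ?_
  · rintro τ ⟨h3, h4⟩ ρ hρ hsub
    exact ⟨hρ, fun h5 => h4 ⟨hsub h5.1, hsub h5.2⟩⟩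
  · rw [hset]
    have := e2 (d - 1)
    rwa [sub_add_cancel] at this

theorem kb_tw_sys {G : SimpleGraph X} {s : X → Module.End ℚ V} (hs : IsSys G s) (S : Set X) :
    IsSys G (tw S s) := by
  classical
  refine ⟨fun x => ?_, fun x y hxy => ?_⟩
  · unfold tw
    split_ifs
    · rw [neg_mul_neg]
      exact hs.inv x
    · exact hs.inv x
  · unfold tw
    split_ifs
    · rw [neg_mul_neg, neg_mul_neg]
      exact hs.comm x y hxy
    · rw [neg_mul, mul_neg, hs.comm x y hxy]
    · rw [neg_mul, mul_neg, hs.comm x y hxy]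
    · exact hs.comm x y hxy

theorem kb_tw_of_mem {s : X → Module.End ℚ V} {S : Set X} {x : X} (h : x ∈ S) :
    tw S s x = - s x := by
  classical
  unfold tw
  rw [if_pos h]

theorem kb_tw_of_notMem {s : X → Module.End ℚ V} {S : Set X} {x : X} (h : x ∉ S) :
    tw S s x = s x := by
  classical
  unfold tw
  rw [if_neg h]

theorem kb_tw_upd {s : X → Module.End ℚ V} {S : Set X} {v : X} (h : v ∉ S) :
    Function.update (tw S s) v (- (tw S s v)) = tw (insert v S) s := by
  funext x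
  by_cases hx : x = v
  · rw [hx, Function.update_self, kb_tw_of_notMem h, kb_tw_of_mem (Set.mem_insert _ _)]
  · rw [Function.update_of_ne hx]
    by_cases h1 : x ∈ S
    · rw [kb_tw_of_mem h1, kb_tw_of_mem (Set.mem_insert_of_mem _ h1)]
    · rw [kb_tw_of_notMem h1, kb_tw_of_notMem (fun h2 => (Set.mem_insert_iff.1 h2).elim hx h1)]

theorem kb_tw_dbl (s : X → Module.End ℚ V) (v w : X) (S : Set X) :
    tw S (dbl s v w) = tw (S ∩ {v, w}) (dbl (tw (S \ {v, w}) s) v w) := by
  classical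
  have hPv : ∀ x, x = v ∨ x = w → Pr (tw (S \ {v, w}) s) x = Pr s x := by
    intro x hx
    unfold Pr
    rw [kb_tw_of_notMem (fun h => h.2 (by
      rcases hx with rfl | rfl
      · exact Set.mem_insert _ _
      · exact Set.mem_insert_of_mem _ rfl))]
  funext x
  by_cases hx : x = v ∨ x = w
  · have h1 : dbl (tw (S \ {v, w}) s) v w x = dbl s v w x := by
      unfold dbl
      rw [hPv v (Or.inl rfl)]
      rcases hx with hx | hx
      · rw [if_pos hx, if_pos hx]
      · by_cases hxv : x = v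
        · rw [if_pos hxv, if_pos hxv]
        · rw [if_neg hxv, if_neg hxv, if_pos hx, if_pos hx]
    have h2 : x ∈ ({v, w} : Set X) := by
      rcases hx with rfl | rfl
      · exact Set.mem_insert _ _
      · exact Set.mem_insert_of_mem _ rfl
    by_cases h3 : x ∈ S
    · rw [kb_tw_of_mem h3, kb_tw_of_mem (show x ∈ S ∩ {v, w} from ⟨h3, h2⟩), h1]
    · rw [kb_tw_of_notMem h3, kb_tw_of_notMem (fun h => h3 h.1), h1]
  · have hxv : x ≠ v := fun e => hx (Or.inl e)
    have hxw : x ≠ w := fun e => hx (Or.inr e)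
    have h2 : x ∉ ({v, w} : Set X) := by
      intro h
      rcases Set.mem_insert_iff.1 h with h | h
      · exact hxv h
      · exact hxw h
    rw [kb_tw_of_notMem (S := S ∩ {v, w}) (fun h => h2 h.2)]
    by_cases h3 : x ∈ S
    · rw [kb_tw_of_mem h3]
      unfold dbl
      rw [if_neg hxv, if_neg hxw, if_neg hxv, if_neg hxw,
        kb_tw_of_mem (show x ∈ S \ {v, w} from ⟨h3, h2⟩)]
      ext p <;> simp
    · rw [kb_tw_of_notMem h3]
      unfold dbl
      rw [if_neg hxv, if_neg hxw, if_neg hxv, if_neg hxw,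
        kb_tw_of_notMem (fun h => h3 h.1)]

end Pool.Agent.Helper51.CD
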