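import Pool.Agent.Helper51.CD.Double
import Pool.Agent.Helper51.CD.Defs2
import Pool.Agent.Helper51.CD.ContrKB

/-!
# CDK1: goodness of the doubled system, simplicial complexes

Version of Contr.lean (task CD7) for complexes; the proof is simpler. G' = contr G v w.
S a set of signs, S0 = S minus {v, w}, r = tw S0 s or the same with the sign of v changed as well
(r is again a system for G'). tw S (dbl s v w) = tw (S inter {v, w}) (dbl (tw S0 s) v w), then
ex_dbl_signs with F = K. Needed, for every such r, with r^ = update r w (r v):
(A) ExAt K r^ d for all d; (B) ExAt {t in K, not both v, w in t} r^ d for all d.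
(A): (1) ctrK K v w with r (= r^ there: ex_congr), from h1.
(2) E = {t : w not in t, t in ctrK K v w} union {t : w in t, t.erase v in K} with r^, by ex_glue:
F1 = ctrK K v w, the rest = {t : w in t, t.erase v in K}: ex_cone with apex v (r^ v = r^ w).
E is closed under subsets; the members of E are cliques of G' and for t in E containing w all x in t
other than v, w are G-adjacent to w, so G'-adjacent to v: Ok E r^.
(3) K by ex_low: F = E, F1 = K (K is contained in E), the rest = E minus K: ex_cone with apex w:
for w not in t: if t in E minus K then v in t, (t minus v) + w in K, so t + w is in E, and not in K.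
Conversely t + w in E minus K: (t + w).erase v in K, so v in t (else t + w in K), hence t is in
ctrK K v w; and t not in K, since t in K and (t minus v) + w in K give t + w in K by hl.
(For t in E minus K, w not in t, v in t: vectors fixed by r^ v are fixed by r^ w = r^ v.)
(B): ex_low with F = K, F1 = the family of (B), the rest = the members of K containing v and w =
(ex_shift applied twice to lkK K v w, first u = w then u = v or the other way), from h2 (r^ = r on
lkK) ; Ok from IsCx.
-/

open Finset

namespace Pool.Agent.Helper51.CD

variable {X : Type} [LinearOrder X]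
variable {V : Type} [AddCommGroup V] [Module ℚ V]
variable {F F1 : Set (Finset X)} {s : X → Module.End ℚ V} {d : ℤ}

theorem good_dblK {G : SimpleGraph X} {K : Set (Finset X)} {v w : X}
    (hs : IsSys (contr G v w) s) (hvw : v ≠ w) (hK : IsCx G K) (he : {v, w} ∈ K)
    (hl : ∀ τ : Finset X, v ∉ τ → w ∉ τ → insert v τ ∈ K → insert w τ ∈ K →
        insert v (insert w τ) ∈ K)
    (h1 : GoodK (ctrK K v w) s) (h2 : GoodK (lkK K v w) s) :
    GoodK K (dbl s v w) := by
  intro S d
  have hv0 : v ∉ S \ ({v, w} : Set X) := fun h => h.2 (Set.mem_insert _ _)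
  set r0 : X → Module.End ℚ V := tw (S \ {v, w}) s with hr0
  have hr0s : IsSys (contr G v w) r0 := kb_tw_sys hs _
  set r1 : X → Module.End ℚ V := Function.update r0 v (- r0 v) with hr1
  have hr1t : r1 = tw (insert v (S \ {v, w})) s := kb_tw_upd hv0
  have hr1s : IsSys (contr G v w) r1 := by
    rw [hr1t]
    exact kb_tw_sys hs _
  have hr1v : r1 v = - r0 v := by
    rw [hr1, Function.update_self]
  have a0 : ∀ d, ExAt K (Function.update r0 w (r0 v)) d :=
    exK_upd hvw hK hl hr0s (fun d => h1 _ d)
  have a1 : ∀ d, ExAt K (Function.update r1 w (r1 v)) d :=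
    exK_upd hvw hK hl hr1s (fun d => by rw [hr1t]; exact h1 _ d)
  have b0 := exK_not2 hvw hK hr0s a0 (fun d => h2 _ d)
  have b1 := exK_not2 hvw hK hr1s a1 (fun d => by rw [hr1t]; exact h2 _ d)
  rw [hr1v] at a1 b1
  rw [kb_tw_dbl]
  exact ex_dbl_signs hvw (hr0s.inv v) (kb_okK hvw hK hr0s) a0 a1 b1 b0 _
    Set.inter_subset_right d

end Pool.Agent.Helper51.CD
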