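import Pool.Agent.Helper51.CD.Double
import Pool.Agent.Helper51.CD.ContrK

/-!
# CD7: goodness of the doubled system

Let G' = contr G v w, S a set of signs, S0 = S minus {v, w}, r = tw S0 s or the same with the sign
of v changed as well (r is again a system for G', and Good is stable under tw).
tw S (dbl s v w) = tw (S inter {v, w}) (dbl (tw S0 s) v w), then ex_dbl_signs. Needed, for every
such r, with r^ = update r w (r v):
(A) ExAt (fam G ∅ A) r^ d for all d; (B) ExAt {t in fam G ∅ A, not both v, w in t} r^ d.
(A): (1) fam G' ∅ (A.erase w) with r: from h1 (r^ = r there: ex_congr).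
(2) fam G' ∅ A with r^ by ex_glue: F1 = fam G' ∅ (A.erase w), the rest = the G'-cliques in A
containing w: exact by ex_cone with apex v (if w in t is a G'-clique, v not in t, x in t, x not w,
then x is G-adjacent to w, so G'-adjacent to v; v, w are adjacent; r^ v = r^ w).
(3) fam G ∅ A by ex_low: F = fam G' ∅ A, F1 = fam G ∅ A, the rest = the G'-cliques in A that are
not G-cliques: exact by ex_cone with apex w. Let t be one, w not in t: then v in t and some x in t
is not G-adjacent to v, so x is adjacent to w; for y in t, y not v: if y were not adjacent to w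
then y is adjacent to v, y and x are adjacent (both are not v and G'-adjacent) and h4 for x, y
gives a contradiction. So t + w is a G'-clique, not a G-clique. Conversely if t + w is a
G'-clique and not a G-clique then t is not a G-clique, since w is adjacent to v and all
G'-adjacent pairs that are not G-adjacent contain v.
(B): ex_low with F = fam G ∅ A, F1 = the family of (B), the rest = G-cliques in A containing v and w
= (families of ex_shift applied twice to fam G ∅ (nbr2 G A v w)): from h2 (r^ = r on nbr2),
ex_shift for v, then for w.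
Ok for G-families and r^: x in t, w in t, x not w: x is G-adjacent to w, hence equal or
G'-adjacent to v, so r x commutes with r v.
-/

open Finset

namespace Pool.Agent.Helper51.CD

variable {X : Type} [LinearOrder X]
variable {V : Type} [AddCommGroup V] [Module ℚ V]
variable {F F1 : Set (Finset X)} {s : X → Module.End ℚ V} {d : ℤ}

theorem kc_fam {G : SimpleGraph X} {A : Finset X} {τ : Finset X} :
    τ ∈ fam G ∅ A ↔ (∀ x ∈ τ, x ∈ A) ∧ ∀ x ∈ τ, ∀ y ∈ τ, x ≠ y → G.Adj x y := by
  constructor
  · rintro ⟨_, h2, h3⟩
    refine ⟨fun x hx => ?_, fun x hx y hy hxy => h3 (mem_coe.2 hx) (mem_coe.2 hy) hxy⟩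
    rcases h2 x hx with h | h
    · exact absurd h (notMem_empty x)
    · exact h
  · rintro ⟨h2, h3⟩
    exact ⟨empty_subset _, fun x hx => Or.inr (h2 x hx),
      fun x hx y hy hxy => h3 x (mem_coe.1 hx) y (mem_coe.1 hy) hxy⟩

theorem kc_cx (G : SimpleGraph X) (A : Finset X) : IsCx G (fam G ∅ A) where
  clique := fun _ hτ => hτ.2.2
  down := fun τ hτ ρ hρ => by
    rw [kc_fam] at hτ ⊢
    exact ⟨fun x hx => hτ.1 x (hρ hx), fun x hx y hy => hτ.2 x (hρ hx) y (hρ hy)⟩

theorem kc_ctr {G : SimpleGraph X} {A : Finset X} {v w : X} (hv : v ∈ A) (hw : w ∈ A)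
    (h4 : ∀ x ∈ A, ∀ y ∈ A, x ≠ v → y ≠ w → G.Adj v y → G.Adj y x → G.Adj x w →
      G.Adj v x ∨ G.Adj y w) :
    ctrK (fam G ∅ A) v w = fam (contr G v w) ∅ (A.erase w) := by
  ext τ
  constructor
  · rintro ⟨h1, h2⟩
    rw [kc_fam]
    rcases h2 with h2 | ⟨h2, h3⟩
    · rw [kc_fam] at h2
      exact ⟨fun x hx => mem_erase.2 ⟨fun e => h1 (e ▸ hx), h2.1 x hx⟩,
        fun x hx y hy hxy => ⟨hxy, Or.inl (h2.2 x hx y hy hxy)⟩⟩
    · rw [kc_fam] at h3
      refine ⟨fun x hx => mem_erase.2 ⟨fun e => h1 (e ▸ hx), ?_⟩, fun x hx y hy hxy =>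
        ⟨hxy, ?_⟩⟩
      · by_cases hxv : x = v
        · rw [hxv]
          exact hv
        · exact h3.1 x (mem_insert_of_mem (mem_erase.2 ⟨hxv, hx⟩))
      · by_cases hxv : x = v
        · refine Or.inr (Or.inl ⟨hxv, h3.2 w (mem_insert_self _ _) y (mem_insert_of_mem
            (mem_erase.2 ⟨fun e => hxy (hxv.trans e.symm), hy⟩)) (fun e => h1 (e ▸ hy))⟩)
        · by_cases hyv : y = v
          · refine Or.inr (Or.inr ⟨hyv, h3.2 w (mem_insert_self _ _) x (mem_insert_of_mem
              (mem_erase.2 ⟨hxv, hx⟩)) (fun e => h1 (e ▸ hx))⟩)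
          · exact Or.inl (h3.2 x (mem_insert_of_mem (mem_erase.2 ⟨hxv, hx⟩)) y
              (mem_insert_of_mem (mem_erase.2 ⟨hyv, hy⟩)) hxy)
  · intro hτ
    rw [kc_fam] at hτ
    obtain ⟨h1, h2⟩ := hτ
    have hwτ : w ∉ τ := fun h => (mem_erase.1 (h1 w h)).1 rfl
    have hA : ∀ x ∈ τ, x ∈ A := fun x hx => (mem_erase.1 (h1 x hx)).2
    have hne : ∀ x ∈ τ, ∀ y ∈ τ, x ≠ y → x ≠ v → y ≠ v → G.Adj x y := by
      intro x hx y hy hxy hxv hyv
      rcases (h2 x hx y hy hxy).2 with h | h | h
      · exact h
      · exact absurd h.1 hxv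
      · exact absurd h.1 hyv
    refine ⟨hwτ, ?_⟩
    by_cases hv' : v ∈ τ
    swap
    · refine Or.inl (kc_fam.2 ⟨hA, fun x hx y hy hxy => hne x hx y hy hxy ?_ ?_⟩)
      · rintro rfl
        exact hv' hx
      · rintro rfl
        exact hv' hy
    have hvw' : ∀ y ∈ τ, y ≠ v → G.Adj v y ∨ G.Adj w y := by
      intro y hy hyv
      rcases (h2 v hv' y hy (fun e => hyv e.symm)).2 with h | h | h
      · exact Or.inl h
      · exact Or.inr h.2
      · exact absurd h.1 hyv
    by_cases hall : ∀ y ∈ τ, y ≠ v → G.Adj v y
    · refine Or.inl (kc_fam.2 ⟨hA, fun x hx y hy hxy => ?_⟩)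
      by_cases hxv : x = v
      · rw [hxv]
        exact hall y hy (fun e => hxy (hxv.trans e.symm))
      · by_cases hyv : y = v
        · rw [hyv]
          exact (hall x hx hxv).symm
        · exact hne x hx y hy hxy hxv hyv
    · push Not at hall
      obtain ⟨x0, hx0, hx0v, hx0n⟩ := hall
      have hx0w : G.Adj w x0 := by
        rcases hvw' x0 hx0 hx0v with h | h
        · exact absurd h hx0n
        · exact h
      have hallw : ∀ y ∈ τ, y ≠ v → G.Adj w y := by
        intro y hy hyv
        by_contra hn
        have hvy : G.Adj v y := by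
          rcases hvw' y hy hyv with h | h
          · exact h
          · exact absurd h hn
        have hyx : y ≠ x0 := by
          rintro rfl
          exact hn hx0w
        rcases h4 x0 (hA x0 hx0) y (hA y hy) hx0v (fun e => hwτ (e ▸ hy)) hvy
          (hne y hy x0 hx0 hyx hyv hx0v) hx0w.symm with h | h
        · exact hx0n h
        · exact hn h.symm
      refine Or.inr ⟨hv', kc_fam.2 ⟨?_, ?_⟩⟩
      · intro x hx
        rcases mem_insert.1 hx with h | h
        · rw [h]
          exact hw
        · exact hA x (mem_erase.1 h).2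
      · intro x hx y hy hxy
        rcases mem_insert.1 hx with hx' | hx' <;> rcases mem_insert.1 hy with hy' | hy'
        · exact absurd (hx'.trans hy'.symm) hxy
        · rw [hx']
          exact hallw y (mem_erase.1 hy').2 (mem_erase.1 hy').1
        · rw [hy']
          exact (hallw x (mem_erase.1 hx').2 (mem_erase.1 hx').1).symm
        · exact hne x (mem_erase.1 hx').2 y (mem_erase.1 hy').2 hxy (mem_erase.1 hx').1
            (mem_erase.1 hy').1

theorem kc_lk {G : SimpleGraph X} {A : Finset X} {v w : X} (hv : v ∈ A) (hw : w ∈ A)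
    (hvw : G.Adj v w) : lkK (fam G ∅ A) v w = fam G ∅ (nbr2 G A v w) := by
  classical
  ext τ
  constructor
  · rintro ⟨h1, h2, h3⟩
    rw [kc_fam] at h3 ⊢
    have hm : ∀ x ∈ τ, x ∈ insert v (insert w τ) := fun x hx =>
      mem_insert_of_mem (mem_insert_of_mem hx)
    refine ⟨fun x hx => ?_, fun x hx y hy hxy => h3.2 x (hm x hx) y (hm y hy) hxy⟩
    unfold nbr2
    rw [mem_filter]
    exact ⟨h3.1 x (hm x hx), h3.2 v (mem_insert_self _ _) x (hm x hx) (fun e => h1 (e ▸ hx)),
      h3.2 w (mem_insert_of_mem (mem_insert_self _ _)) x (hm x hx) (fun e => h2 (e ▸ hx))⟩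
  · intro h
    rw [kc_fam] at h
    have hn : ∀ x ∈ τ, x ∈ A ∧ G.Adj v x ∧ G.Adj w x := by
      intro x hx
      have := h.1 x hx
      unfold nbr2 at this
      rw [mem_filter] at this
      exact this
    refine ⟨fun h5 => (hn v h5).2.1.ne rfl, fun h5 => (hn w h5).2.2.ne rfl, kc_fam.2 ⟨?_, ?_⟩⟩
    · intro x hx
      rcases mem_insert.1 hx with h5 | h5
      · rw [h5]
        exact hv
      · rcases mem_insert.1 h5 with h5 | h5
        · rw [h5]
          exact hw
        · exact (hn x h5).1
    · intro x hx y hy hxy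
      rcases mem_insert.1 hx with hx | hx
      · rcases mem_insert.1 hy with hy | hy
        · exact absurd (hx.trans hy.symm) hxy
        · rw [hx]
          rcases mem_insert.1 hy with hy | hy
          · rw [hy]
            exact hvw
          · exact (hn y hy).2.1
      · rcases mem_insert.1 hy with hy | hy
        · rw [hy]
          rcases mem_insert.1 hx with hx | hx
          · rw [hx]
            exact hvw.symm
          · exact (hn x hx).2.1.symm
        · rcases mem_insert.1 hx with hx | hx
          · rcases mem_insert.1 hy with hy | hy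
            · exact absurd (hx.trans hy.symm) hxy
            · rw [hx]
              exact (hn y hy).2.2
          · rcases mem_insert.1 hy with hy | hy
            · rw [hy]
              exact (hn x hx).2.2.symm
            · exact h.2 x hx y hy hxy

theorem good_dbl {G : SimpleGraph X} {A : Finset X} {v w : X} (hs : IsSys (contr G v w) s)
    (hv : v ∈ A) (hw : w ∈ A) (hvw : G.Adj v w)
    (h4 : ∀ x ∈ A, ∀ y ∈ A, x ≠ v → y ≠ w → G.Adj v y → G.Adj y x → G.Adj x w →
      G.Adj v x ∨ G.Adj y w)
    (h1 : Good (contr G v w) (A.erase w) s) (h2 : Good G (nbr2 G A v w) s) :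
    Good G A (dbl s v w) := by
  have h1' : GoodK (ctrK (fam G ∅ A) v w) s := by
    rw [kc_ctr hv hw h4]
    exact h1
  have h2' : GoodK (lkK (fam G ∅ A) v w) s := by
    rw [kc_lk hv hw hvw]
    exact h2
  refine good_dblK hs hvw.ne (kc_cx G A) ?_ ?_ h1' h2'
  · rw [kc_fam]
    refine ⟨fun x hx => ?_, fun x hx y hy hxy => ?_⟩
    · rcases mem_insert.1 hx with h | h
      · rw [h]
        exact hv
      · rw [mem_singleton.1 h]
        exact hw
    · rcases mem_insert.1 hx with hx | hx <;> rcases mem_insert.1 hy with hy | hy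
      · exact absurd (hx.trans hy.symm) hxy
      · rw [hx, mem_singleton.1 hy]
        exact hvw
      · rw [hy, mem_singleton.1 hx]
        exact hvw.symm
      · exact absurd ((mem_singleton.1 hx).trans (mem_singleton.1 hy).symm) hxy
  · intro τ hvτ hwτ h5 h6
    rw [kc_fam] at h5 h6 ⊢
    refine ⟨fun x hx => ?_, fun x hx y hy hxy => ?_⟩
    · rcases mem_insert.1 hx with h | h
      · rw [h]
        exact hv
      · exact h6.1 x h
    · by_cases hxv : x = v
      · by_cases hyw : y = w
        · rw [hxv, hyw]
          exact hvw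
        · rcases mem_insert.1 hy with hy | hy
          · exact absurd (hxv.trans hy.symm) hxy
          · rcases mem_insert.1 hy with hy | hy
            · exact absurd hy hyw
            · exact h5.2 x (by rw [hxv]; exact mem_insert_self _ _) y (mem_insert_of_mem hy) hxy
      · rcases mem_insert.1 hx with hx | hx
        · exact absurd hx hxv
        · by_cases hyv : y = v
          · rcases mem_insert.1 hx with hx | hx
            · rw [hx, hyv]
              exact hvw.symm
            · exact h5.2 x (mem_insert_of_mem hx) y (by rw [hyv]; exact mem_insert_self _ _) hxy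
          · rcases mem_insert.1 hy with hy | hy
            · exact absurd hy hyv
            · exact h6.2 x hx y hy hxy

end Pool.Agent.Helper51.CD
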