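import Pool.Agent.Helper51.CD.Cone
import Pool.Agent.Helper51.CD.Seq
import Pool.Agent.Helper51.CD.Defs2

/-!
# CDK1, part (A)

Exactness of the complex `K` for the system in which `w` acts as `v`.
-/

open Finset

namespace Pool.Agent.Helper51.CD

variable {X : Type} [LinearOrder X]
variable {V : Type} [AddCommGroup V] [Module ℚ V]

/-- `w` acts as `v`: the action of an element. -/
theorem ka_upd (r : X → Module.End ℚ V) (v w x : X) :
    Function.update r w (r v) x = if x = w then r v else r x := by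
  rw [Function.update_apply]

theorem ka_inv {G : SimpleGraph X} {v w : X} {r : X → Module.End ℚ V}
    (hr : IsSys (contr G v w) r) (x : X) :
    Function.update r w (r v) x * Function.update r w (r v) x = 1 := by
  rw [ka_upd]
  split_ifs
  · exact hr.inv v
  · exact hr.inv x

theorem ka_comm {G : SimpleGraph X} {v w : X} {r : X → Module.End ℚ V}
    (hr : IsSys (contr G v w) r) {x y : X}
    (h : x ≠ y → ¬ (x = v ∧ y = w) → ¬ (y = v ∧ x = w) →
      G.Adj x y ∨ (x = v ∧ G.Adj w y) ∨ (y = v ∧ G.Adj w x)) :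
    Function.update r w (r v) x * Function.update r w (r v) y =
      Function.update r w (r v) y * Function.update r w (r v) x := by
  by_cases hxy : x = y
  · rw [hxy]
  by_cases h1 : x = v ∧ y = w
  · rw [ka_upd, ka_upd, if_pos h1.2]
    split_ifs
    · rfl
    · rw [h1.1]
  by_cases h2 : y = v ∧ x = w
  · rw [ka_upd, ka_upd, if_pos h2.2]
    split_ifs
    · rfl
    · rw [h2.1]
  have h3 := h hxy h1 h2
  rw [ka_upd, ka_upd]
  by_cases hx : x = w
  · by_cases hy : y = w
    · exact absurd (hx.trans hy.symm) hxy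
    · rw [if_pos hx, if_neg hy]
      have hyv : y ≠ v := fun e => h2 ⟨e, hx⟩
      refine hr.comm v y ⟨fun e => hyv e.symm, ?_⟩
      rcases h3 with h3 | h3 | h3
      · rw [hx] at h3
        exact Or.inr (Or.inl ⟨rfl, h3⟩)
      · exact Or.inr (Or.inl ⟨rfl, h3.2⟩)
      · exact absurd h3.1 hyv
  · by_cases hy : y = w
    · rw [if_neg hx, if_pos hy]
      have hxv : x ≠ v := fun e => h1 ⟨e, hy⟩
      refine hr.comm x v ⟨hxv, ?_⟩
      rcases h3 with h3 | h3 | h3
      · rw [hy] at h3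
        exact Or.inr (Or.inr ⟨rfl, h3.symm⟩)
      · exact absurd h3.1 hxv
      · exact Or.inr (Or.inr ⟨rfl, h3.2⟩)
    · rw [if_neg hx, if_neg hy]
      exact hr.comm x y ⟨hxy, h3⟩

/-- The intermediate family. -/
def kaE (K : Set (Finset X)) (v w : X) : Set (Finset X) :=
  {τ | (w ∉ τ ∧ τ ∈ ctrK K v w) ∨ (w ∈ τ ∧ τ.erase v ∈ K)}

theorem kaE_down {G : SimpleGraph X} {K : Set (Finset X)} {v w : X} (hvw : v ≠ w)
    (hK : IsCx G K) : ∀ τ ∈ kaE K v w, ∀ ρ : Finset X, ρ ⊆ τ → ρ ∈ kaE K v w := by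
  intro τ hτ ρ hρ
  rcases hτ with ⟨h1, h2⟩ | ⟨h1, h2⟩
  · have hwρ : w ∉ ρ := fun h => h1 (hρ h)
    refine Or.inl ⟨hwρ, hwρ, ?_⟩
    rcases h2.2 with h3 | ⟨h3, h4⟩
    · exact Or.inl (hK.down τ h3 ρ hρ)
    · by_cases hv : v ∈ ρ
      · exact Or.inr ⟨hv, hK.down _ h4 _ (Finset.insert_subset_insert w
          (Finset.erase_subset_erase v hρ))⟩
      · refine Or.inl (hK.down _ h4 ρ ?_)
        intro x hx
        exact mem_insert_of_mem (mem_erase.2 ⟨fun e => hv (e ▸ hx), hρ hx⟩)
  · by_cases hwρ : w ∈ ρ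
    · exact Or.inr ⟨hwρ, hK.down _ h2 _ (Finset.erase_subset_erase v hρ)⟩
    · refine Or.inl ⟨hwρ, hwρ, ?_⟩
      by_cases hv : v ∈ ρ
      · refine Or.inr ⟨hv, hK.down _ h2 _ ?_⟩
        intro x hx
        rcases mem_insert.1 hx with rfl | hx
        · exact mem_erase.2 ⟨fun e => hvw e.symm, h1⟩
        · exact mem_erase.2 ⟨(mem_erase.1 hx).1, hρ (mem_erase.1 hx).2⟩
      · refine Or.inl (hK.down _ h2 ρ ?_)
        intro x hx
        exact mem_erase.2 ⟨fun e => hv (e ▸ hx), hρ hx⟩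

theorem kaE_adj {G : SimpleGraph X} {K : Set (Finset X)} {v w : X} (hvw : v ≠ w)
    (hK : IsCx G K) {τ : Finset X} (hτ : τ ∈ kaE K v w) {x y : X} (hx : x ∈ τ) (hy : y ∈ τ)
    (hxy : x ≠ y) (h1 : ¬ (x = v ∧ y = w)) (h2 : ¬ (y = v ∧ x = w)) :
    G.Adj x y ∨ (x = v ∧ G.Adj w y) ∨ (y = v ∧ G.Adj w x) := by
  have key : ∀ σ ∈ K, ∀ a ∈ σ, ∀ b ∈ σ, a ≠ b → G.Adj a b := by
    intro σ hσ a ha b hb hab
    exact hK.clique σ hσ (Finset.mem_coe.2 ha) (Finset.mem_coe.2 hb) hab
  rcases hτ with ⟨h3, h4⟩ | ⟨h3, h4⟩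
  · rcases h4.2 with h5 | ⟨_, h6⟩
    · exact Or.inl (key τ h5 x hx y hy hxy)
    · by_cases hxv : x = v
      · refine Or.inr (Or.inl ⟨hxv, ?_⟩)
        refine key _ h6 w (mem_insert_self _ _) y (mem_insert_of_mem (mem_erase.2
          ⟨fun e => hxy (hxv.trans e.symm), hy⟩)) (fun e => h3 (e ▸ hy))
      · by_cases hyv : y = v
        · refine Or.inr (Or.inr ⟨hyv, ?_⟩)
          refine key _ h6 w (mem_insert_self _ _) x (mem_insert_of_mem (mem_erase.2
            ⟨hxv, hx⟩)) (fun e => h3 (e ▸ hx))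
        · exact Or.inl (key _ h6 x (mem_insert_of_mem (mem_erase.2 ⟨hxv, hx⟩)) y
            (mem_insert_of_mem (mem_erase.2 ⟨hyv, hy⟩)) hxy)
  · by_cases hxv : x = v
    · have hyw : w ≠ y := fun e => h1 ⟨hxv, e.symm⟩
      exact Or.inr (Or.inl ⟨hxv, key _ h4 w (mem_erase.2 ⟨fun e => hvw e.symm, h3⟩) y
        (mem_erase.2 ⟨fun e => hxy (hxv.trans e.symm), hy⟩) hyw⟩)
    · by_cases hyv : y = v
      · have hxw : w ≠ x := fun e => h2 ⟨hyv, e.symm⟩
        exact Or.inr (Or.inr ⟨hyv, key _ h4 w (mem_erase.2 ⟨fun e => hvw e.symm, h3⟩) x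
          (mem_erase.2 ⟨hxv, hx⟩) hxw⟩)
      · exact Or.inl (key _ h4 x (mem_erase.2 ⟨hxv, hx⟩) y (mem_erase.2 ⟨hyv, hy⟩) hxy)

theorem kaE_ok {G : SimpleGraph X} {K : Set (Finset X)} {v w : X} (hvw : v ≠ w)
    (hK : IsCx G K) {r : X → Module.End ℚ V} (hr : IsSys (contr G v w) r) :
    Ok (kaE K v w) (Function.update r w (r v)) where
  conv := fun τ hτ _ _ π _ h2 => kaE_down hvw hK τ hτ π h2
  inv := ka_inv hr
  comm := fun _ hτ _ hx _ hy => ka_comm hr (fun hxy h1 h2 => kaE_adj hvw hK hτ hx hy hxy h1 h2)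

theorem subset_kaE {G : SimpleGraph X} {K : Set (Finset X)} {v w : X}
    (hK : IsCx G K) : K ⊆ kaE K v w := by
  intro τ hτ
  by_cases hw : w ∈ τ
  · exact Or.inr ⟨hw, hK.down τ hτ _ (Finset.erase_subset _ _)⟩
  · exact Or.inl ⟨hw, hw, Or.inl hτ⟩

theorem ctrK_subset_kaE {K : Set (Finset X)} {v w : X} : ctrK K v w ⊆ kaE K v w :=
  fun _ hτ => Or.inl ⟨hτ.1, hτ⟩

/-- Part (A) of task CDK1. -/
theorem exK_upd {G : SimpleGraph X} {K : Set (Finset X)} {v w : X} (hvw : v ≠ w)
    (hK : IsCx G K)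
    (hl : ∀ τ : Finset X, v ∉ τ → w ∉ τ → insert v τ ∈ K → insert w τ ∈ K →
        insert v (insert w τ) ∈ K)
    {r : X → Module.End ℚ V} (hr : IsSys (contr G v w) r)
    (h1 : ∀ d, ExAt (ctrK K v w) r d) (d : ℤ) :
    ExAt K (Function.update r w (r v)) d := by
  have hok : Ok (kaE K v w) (Function.update r w (r v)) := kaE_ok hvw hK hr
  have hrv : Function.update r w (r v) v = r v := by
    rw [ka_upd, if_neg hvw]
  have hrw : Function.update r w (r v) w = r v := by
    rw [ka_upd, if_pos rfl]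
  have e1 : ∀ d, ExAt (ctrK K v w) (Function.update r w (r v)) d := by
    intro d
    refine ex_congr (s := r) (fun τ hτ x hx => ?_) (h1 d)
    have hxw : x ≠ w := by
      rintro rfl
      exact hτ.1 hx
    rw [ka_upd, if_neg hxw]
  have e2 : ∀ d, ExAt (kaE K v w) (Function.update r w (r v)) d := by
    intro d
    refine ex_glue hok ctrK_subset_kaE ?_ (e1 d) ?_
    · intro τ hτ ρ hρ hsub
      have hwρ : w ∉ ρ := fun h => hτ.1 (hsub h)
      rcases hρ with h | h
      · exact h.2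
      · exact absurd h.1 hwρ
    · refine ex_cone v ?_ ?_ d
      · intro τ hv
        have hE : (insert v τ).erase v = τ := Finset.erase_insert hv
        have hE2 : τ.erase v = τ := Finset.erase_eq_of_notMem hv
        constructor
        · rintro ⟨h2, h3⟩
          rcases h2 with h2 | h2
          · exact absurd h2.2 h3
          · refine ⟨Or.inr ⟨mem_insert_of_mem h2.1, ?_⟩, fun h4 => h4.1 (mem_insert_of_mem h2.1)⟩
            rw [hE]
            rw [hE2] at h2
            exact h2.2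
        · rintro ⟨h2, h3⟩
          rcases h2 with h2 | h2
          · exact absurd h2.2 h3
          · have hw : w ∈ τ := by
              rcases mem_insert.1 h2.1 with h | h
              · exact absurd h.symm hvw
              · exact h
            refine ⟨Or.inr ⟨hw, ?_⟩, fun h4 => h4.1 hw⟩
            rw [hE2]
            rw [hE] at h2
            exact h2.2
      · rintro τ ⟨h2, h3⟩ hv z hz
        rcases h2 with h2 | h2
        · exact absurd h2.2 h3
        · have := hz w h2.1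
          rw [hrw] at this
          rw [hrv]
          exact this
  refine ex_low hok (subset_kaE hK) (fun τ hτ ρ _ hsub => hK.down τ hτ ρ hsub) (e2 d) ?_
  refine ex_cone w ?_ ?_ (d + 1)
  · intro τ hw
    constructor
    · rintro ⟨h2, h3⟩
      rcases h2 with h2 | h2
      · rcases h2.2.2 with h4 | ⟨h4, h5⟩
        · exact absurd h4 h3
        · refine ⟨Or.inr ⟨mem_insert_self _ _, ?_⟩, fun h6 => h3 (hK.down _ h6 _
            (Finset.subset_insert _ _))⟩
          rw [Finset.erase_insert_of_ne (fun e => hvw e.symm)]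
          exact h5
      · exact absurd h2.1 hw
    · rintro ⟨h2, h3⟩
      rcases h2 with h2 | h2
      · exact absurd (mem_insert_self w τ) h2.1
      · have h4 : insert w (τ.erase v) ∈ K := by
          rw [← Finset.erase_insert_of_ne (fun e => hvw e.symm)]
          exact h2.2
        have hv : v ∈ τ := by
          by_contra hv
          rw [Finset.erase_eq_of_notMem hv] at h4
          exact h3 h4
        refine ⟨Or.inl ⟨hw, hw, Or.inr ⟨hv, h4⟩⟩, fun h5 => h3 ?_⟩
        have h6 := hl (τ.erase v) (Finset.notMem_erase v τ)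
          (fun h => hw (mem_erase.1 h).2) (by rw [Finset.insert_erase hv]; exact h5) h4
        have h7 : insert v (insert w (τ.erase v)) = insert w τ := by
          rw [Finset.insert_comm, Finset.insert_erase hv]
        rw [h7] at h6
        exact h6
  · rintro τ ⟨h2, h3⟩ hw z hz
    rcases h2 with h2 | h2
    · rcases h2.2.2 with h4 | ⟨h4, h5⟩
      · exact absurd h4 h3
      · have := hz v h4
        rw [hrv] at this
        rw [hrw]
        exact this
    · exact absurd h2.1 hw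

end Pool.Agent.Helper51.CD
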