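import Mathlib

/-!
# Project CD: definitions

Cochain complexes of a finite system of reflections on the cliques of a graph.
-/

open Finset

namespace Pool.Agent.Helper51.CD

variable {X : Type}

/-- The sign of the vertex `x` in the set `τ`. -/
noncomputable def sg [LinearOrder X] (x : X) (τ : Finset X) : ℚ :=
  (-1) ^ (τ.filter (fun y => y < x)).card

section Systems

variable {V : Type} [AddCommGroup V] [Module ℚ V]

/-- The projection `(1 + s x) / 2`. -/
noncomputable def Pr (s : X → Module.End ℚ V) (x : X) : Module.End ℚ V :=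
  (1 / 2 : ℚ) • (1 + s x)

open scoped Classical in
/-- The differential of the complex of the family `F` with the system `s`. -/
noncomputable def Di [LinearOrder X] (F : Set (Finset X)) (s : X → Module.End ℚ V) :
    (Finset X → V) →ₗ[ℚ] (Finset X → V) :=
  LinearMap.pi (fun τ => if τ ∈ F then
    ∑ x ∈ τ, sg x τ • ((Pr s x) ∘ₗ (LinearMap.proj (τ.erase x))) else 0)

/-- The cochains of degree `d` on the family `F`: functions supported on the members of `F` of
size `d` whose value at `τ` is fixed by `s x` for all `x ∈ τ`. -/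
def CC (F : Set (Finset X)) (s : X → Module.End ℚ V) (d : ℤ) : Submodule ℚ (Finset X → V) where
  carrier := {c | (∀ τ, τ ∉ F → c τ = 0) ∧ (∀ τ : Finset X, (τ.card : ℤ) ≠ d → c τ = 0) ∧
    ∀ τ, ∀ x ∈ τ, s x (c τ) = c τ}
  add_mem' := by
    rintro a b ⟨ha1, ha2, ha3⟩ ⟨hb1, hb2, hb3⟩
    refine ⟨fun τ h => ?_, fun τ h => ?_, fun τ x hx => ?_⟩
    · rw [Pi.add_apply, ha1 τ h, hb1 τ h, add_zero]
    · rw [Pi.add_apply, ha2 τ h, hb2 τ h, add_zero]
    · rw [Pi.add_apply, map_add, ha3 τ x hx, hb3 τ x hx]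
  zero_mem' := by
    refine ⟨fun τ _ => rfl, fun τ _ => rfl, fun τ x _ => ?_⟩
    rw [Pi.zero_apply, map_zero]
  smul_mem' := by
    rintro r a ⟨ha1, ha2, ha3⟩
    refine ⟨fun τ h => ?_, fun τ h => ?_, fun τ x hx => ?_⟩
    · rw [Pi.smul_apply, ha1 τ h, smul_zero]
    · rw [Pi.smul_apply, ha2 τ h, smul_zero]
    · rw [Pi.smul_apply, map_smul, ha3 τ x hx]

/-- Exactness in degree `d`. -/
def ExAt [LinearOrder X] (F : Set (Finset X)) (s : X → Module.End ℚ V) (d : ℤ) : Prop :=
  ∀ c ∈ CC F s d, Di F s c = 0 → ∃ b ∈ CC F s (d - 1), Di F s b = c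

/-- The family `F` is convex and `s` is a system of involutions that commute on the members
of `F`. -/
structure Ok (F : Set (Finset X)) (s : X → Module.End ℚ V) : Prop where
  conv : ∀ τ ∈ F, ∀ ρ ∈ F, ∀ π : Finset X, ρ ⊆ π → π ⊆ τ → π ∈ F
  inv : ∀ x, s x * s x = 1
  comm : ∀ τ ∈ F, ∀ x ∈ τ, ∀ y ∈ τ, s x * s y = s y * s x

open scoped Classical in
/-- The system with the signs of the elements of `S` changed. -/
noncomputable def tw (S : Set X) (s : X → Module.End ℚ V) (x : X) : Module.End ℚ V :=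
  if x ∈ S then - s x else s x

/-- A system of involutions that commute for adjacent vertices. -/
structure IsSys (G : SimpleGraph X) (s : X → Module.End ℚ V) : Prop where
  inv : ∀ x, s x * s x = 1
  comm : ∀ x y, G.Adj x y → s x * s y = s y * s x

/-- The cliques between `ρ` and `ρ ∪ A`. -/
def fam (G : SimpleGraph X) (ρ A : Finset X) : Set (Finset X) :=
  {τ | ρ ⊆ τ ∧ (∀ x ∈ τ, x ∈ ρ ∨ x ∈ A) ∧ G.IsClique (τ : Set X)}

/-- Exactness in all degrees for all changes of signs. -/
def Good [LinearOrder X] (G : SimpleGraph X) (A : Finset X) (s : X → Module.End ℚ V) : Prop :=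
  ∀ S : Set X, ∀ d : ℤ, ExAt (fam G ∅ A) (tw S s) d

end Systems

open scoped Classical in
/-- The doubled system on `V × V`: `v` and `w` both act as `(p, q) ↦ (-q, -p)` where `s v = 1`;
where `s v = -1`, `v` acts as `(p, q) ↦ (p, -q)` and `w` as `(p, q) ↦ (-p, q)`. -/
noncomputable def dbl {V : Type} [AddCommGroup V] [Module ℚ V] (s : X → Module.End ℚ V) (v w : X)
    (x : X) : Module.End ℚ (V × V) :=
  if x = v then
    LinearMap.prod
      ((1 - Pr s v) ∘ₗ LinearMap.fst ℚ V V - Pr s v ∘ₗ LinearMap.snd ℚ V V)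
      (- (Pr s v ∘ₗ LinearMap.fst ℚ V V) - (1 - Pr s v) ∘ₗ LinearMap.snd ℚ V V)
  else if x = w then
    LinearMap.prod
      (- ((1 - Pr s v) ∘ₗ LinearMap.fst ℚ V V) - Pr s v ∘ₗ LinearMap.snd ℚ V V)
      (- (Pr s v ∘ₗ LinearMap.fst ℚ V V) + (1 - Pr s v) ∘ₗ LinearMap.snd ℚ V V)
  else LinearMap.prodMap (s x) (s x)

/-- A polynomial function of a rational variable with values in a vector space. -/
def IsPoly {M : Type} [AddCommGroup M] [Module ℚ M] (f : ℚ → M) : Prop :=
  ∃ (ι : Type) (_ : Fintype ι) (q : ι → Polynomial ℚ) (a : ι → M),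
    ∀ t, f t = ∑ i, (q i).eval t • a i

/-- A polynomial family of finite-dimensional systems that is diagonal at `0`. -/
structure PFam (G : SimpleGraph X) where
  V : Type
  [grp : AddCommGroup V]
  [mod : Module ℚ V]
  s : ℚ → X → Module.End ℚ V
  ι : Type
  [fin : Fintype ι]
  [ne : Nonempty ι]
  b : Module.Basis ι ℚ V
  sys : ∀ t, IsSys G (s t)
  poly : ∀ x, IsPoly (fun t => s t x)
  diag : ∀ x i, s 0 x (b i) = b i ∨ s 0 x (b i) = - b i

attribute [instance] PFam.grp PFam.mod PFam.fin PFam.ne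

/-- Some family is good at `1` for all members of `𝒮`. -/
def HasGood [LinearOrder X] (G : SimpleGraph X) (𝒮 : Set (Finset X)) : Prop :=
  ∃ F : PFam G, ∀ A ∈ 𝒮, Good G A (F.s 1)

/-- The graph in which `v` is also joined to the neighbours of `w`. -/
def contr (G : SimpleGraph X) (v w : X) : SimpleGraph X where
  Adj a b := a ≠ b ∧ (G.Adj a b ∨ (a = v ∧ G.Adj w b) ∨ (b = v ∧ G.Adj w a))
  symm := ⟨by
    rintro a b ⟨h1, h2⟩
    refine ⟨h1.symm, ?_⟩
    rcases h2 with h2 | h2 | h2
    · exact Or.inl h2.symm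
    · exact Or.inr (Or.inr h2)
    · exact Or.inr (Or.inl h2)⟩
  loopless := ⟨fun a h => h.1 rfl⟩

open scoped Classical in
/-- The common neighbours of `v` and `w` in `A`. -/
noncomputable def nbr2 (G : SimpleGraph X) (A : Finset X) (v w : X) : Finset X :=
  A.filter (fun x => G.Adj v x ∧ G.Adj w x)

open scoped Classical in
/-- The neighbours of `u` in `A`. -/
noncomputable def nbr (G : SimpleGraph X) (A : Finset X) (u : X) : Finset X :=
  A.filter (fun x => G.Adj u x)

/-- `Tame G A`: the clique complex of `G` on `A` is built from pairs of points by adding or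
removing a vertex with tame link, gluing along a tame subcomplex, and undoing flag edge
contractions of edges with tame links. -/
inductive Tame [DecidableEq X] : SimpleGraph X → Finset X → Prop
  | pair (G : SimpleGraph X) (x y : X) (hxy : x ≠ y) (h : ¬ G.Adj x y) : Tame G {x, y}
  | add (G : SimpleGraph X) (A : Finset X) (u : X) (hu : u ∉ A) (h1 : Tame G A)
      (h2 : Tame G (nbr G A u)) : Tame G (insert u A)
  | remove (G : SimpleGraph X) (A : Finset X) (u : X) (hu : u ∉ A) (h1 : Tame G (insert u A))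
      (h2 : Tame G (nbr G A u)) : Tame G A
  | glue (G : SimpleGraph X) (A B : Finset X)
      (h : ∀ x ∈ A, ∀ y ∈ B, G.Adj x y → x ∈ B ∨ y ∈ A)
      (h1 : Tame G A) (h2 : Tame G B) (h3 : Tame G (A ∩ B)) : Tame G (A ∪ B)
  | contract (G : SimpleGraph X) (A : Finset X) (v w : X) (hv : v ∈ A) (hw : w ∈ A)
      (hvw : G.Adj v w)
      (h4 : ∀ x ∈ A, ∀ y ∈ A, x ≠ v → y ≠ w → G.Adj v y → G.Adj y x → G.Adj x w →
        G.Adj v x ∨ G.Adj y w)
      (h1 : Tame (contr G v w) (A.erase w)) (h2 : Tame G (nbr2 G A v w)) : Tame G A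

end Pool.Agent.Helper51.CD
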