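import Pool.Agent.Helper51.CD.Seq
import Pool.Agent.Helper51.CD.Cone

/-!
# CD6: the doubled system

Write P = Pr s v, N = 1 - P, s^ = update s w (s v), s~ = update (update s v (- s v)) w (- s v),
Fk = the members of F not containing both v and w. With dbl s v w = the doubled system (Defs.lean):
Pr (dbl) v (p, q) = (P(p-q)/2 + N p, - P(p-q)/2), Pr (dbl) w (p, q) = (P(p-q)/2, - P(p-q)/2 + N q),
Pr (dbl) x = (Pr s x, Pr s x) for other x.

ex_dbl: short exact sequence (SES of Seq.lean) 0 to C(Fk, s~) to C(F, dbl) to C(F, s^) to 0: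
Phi a t = (a t, 0) if v in t; (0, a t) if w in t and v not in t; (a t, a t) otherwise.
Psi c t = P (p - q) if v in t or w in t, p - q otherwise, where c t = (p, q).
Lift: a to (a/2, - a/2) everywhere (for t containing v or w, P (a t) = a t).
Kernel: v in t: p = P(p-q)/2 + N p = N p and q = - P(p-q)/2 = 0; w in t similarly p = 0, q = N q;
both: p = q = 0; neither: p = q.
Psi commutes: v in t, terms x not v, w: P P_x = P_x P; term x = v: P(P(p-q)/2 + N p + P(p-q)/2)
= P(p-q); term x = w: P(P(p-q)/2 + P(p-q)/2 - N q) = P(p-q); and P P = P.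
Phi commutes: at t containing v, not w: terms x not v clear; term x = v: Pr v (a, a) = (N a, 0).
At t containing w, not v: the same. At t containing both: the terms x = v: t - v contains w,
a = N a, Pr v (0, a) = (-P a/2, P a/2) = 0; term x = w: Pr w (a, 0) = 0; other x: t - x contains
both v and w so a = 0. Then ex_dbl = SES.mid. Ok F (dbl s v w) follows from Ok F s^.

ex_dbl_signs: S = {} : ex_dbl. S = {v, w}: transport ex_dbl by J (p, q) = (-q, p) (use ex_sum with
index type Unit or a transport lemma): J dbl_x J^-1 = - dbl_x for x = v, w, = dbl_x otherwise.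
S = {w}: put r = update s v (- s v); ex_dbl for r (hypotheses e1', e2') and transport by
(p, q) to (p - q, - p - q). S = {v}: the same r and (p, q) to (p + q, p - q).
-/

open Finset

namespace Pool.Agent.Helper51.CD

variable {X : Type} [LinearOrder X]
variable {V : Type} [AddCommGroup V] [Module ℚ V]
variable {F F1 : Set (Finset X)} {s : X → Module.End ℚ V} {d : ℤ}

/-! ### Transport -/

theorem dblx_transport {V' : Type} [AddCommGroup V'] [Module ℚ V'] {s' : X → Module.End ℚ V'}
    (T : V →ₗ[ℚ] V') (U : V' →ₗ[ℚ] V) (hTU : ∀ v, T (U v) = v) (hUT : ∀ v, U (T v) = v)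
    (hT : ∀ x v, T (s x v) = s' x (T v)) (e : ExAt F s d) : ExAt F s' d := by
  have hU : ∀ x v, U (s' x v) = s x (U v) := by
    intro x v
    conv_lhs => rw [← hTU v, ← hT, hUT]
  have hPT : ∀ x v, T (Pr s x v) = Pr s' x (T v) := by
    intro x v
    rw [Pr_apply, Pr_apply, map_smul, map_add, hT]
  have hPU : ∀ x v, U (Pr s' x v) = Pr s x (U v) := by
    intro x v
    rw [Pr_apply, Pr_apply, map_smul, map_add, hU]
  have hDT : ∀ (c : Finset X → V), (fun τ => T (Di F s c τ)) = Di F s' (fun τ => T (c τ)) := by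
    intro c
    funext τ
    by_cases h : τ ∈ F
    · rw [Di_of_mem s c h, Di_of_mem s' _ h, map_sum]
      refine Finset.sum_congr rfl (fun x _ => ?_)
      rw [map_smul, hPT]
    · rw [Di_of_notMem s c h, Di_of_notMem s' _ h, map_zero]
  have hDU : ∀ (c : Finset X → V'), (fun τ => U (Di F s' c τ)) = Di F s (fun τ => U (c τ)) := by
    intro c
    funext τ
    by_cases h : τ ∈ F
    · rw [Di_of_mem s' c h, Di_of_mem s _ h, map_sum]
      refine Finset.sum_congr rfl (fun x _ => ?_)
      rw [map_smul, hPU]
    · rw [Di_of_notMem s' c h, Di_of_notMem s _ h, map_zero]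
  intro c hc hDc
  rw [mem_CC] at hc
  obtain ⟨b, hb, hDb⟩ := e (fun τ => U (c τ)) (by
    rw [mem_CC]
    refine ⟨fun τ hτ => ?_, fun τ hτ => ?_, fun τ x hx => ?_⟩
    · rw [hc.1 τ hτ, map_zero]
    · rw [hc.2.1 τ hτ, map_zero]
    · rw [← hU, hc.2.2 τ x hx]) (by
    rw [← hDU c, hDc]
    funext τ
    exact map_zero U)
  refine ⟨fun τ => T (b τ), ?_, ?_⟩
  · rw [mem_CC] at hb ⊢
    refine ⟨fun τ hτ => ?_, fun τ hτ => ?_, fun τ x hx => ?_⟩
    · rw [hb.1 τ hτ, map_zero]
    · rw [hb.2.1 τ hτ, map_zero]
    · rw [← hT, hb.2.2 τ x hx]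
  · rw [← hDT b, hDb]
    funext τ
    exact hTU _

/-! ### The doubled system -/

theorem dblx_v {v w : X} (z : V × V) : dbl s v w v z =
    (z.1 - Pr s v z.1 - Pr s v z.2, - Pr s v z.1 - (z.2 - Pr s v z.2)) := by
  unfold dbl
  rw [if_pos rfl]
  rfl

theorem dblx_w {v w : X} (hvw : v ≠ w) (z : V × V) : dbl s v w w z =
    (- (z.1 - Pr s v z.1) - Pr s v z.2, - Pr s v z.1 + (z.2 - Pr s v z.2)) := by
  unfold dbl
  rw [if_neg hvw.symm, if_pos rfl]
  rfl

theorem dblx_x {v w x : X} (h1 : x ≠ v) (h2 : x ≠ w) (z : V × V) :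
    dbl s v w x z = (s x z.1, s x z.2) := by
  unfold dbl
  rw [if_neg h1, if_neg h2]
  rfl

theorem dblx_Pr_v {v w : X} (z : V × V) : Pr (dbl s v w) v z =
    ((1 / 2 : ℚ) • Pr s v (z.1 - z.2) + (z.1 - Pr s v z.1),
      - ((1 / 2 : ℚ) • Pr s v (z.1 - z.2))) := by
  rw [Pr_apply (dbl s v w), dblx_v]
  ext
  · simp only [Prod.smul_fst, Prod.fst_add, map_sub]
    module
  · simp only [Prod.smul_snd, Prod.snd_add, map_sub]
    module

theorem dblx_Pr_w {v w : X} (hvw : v ≠ w) (z : V × V) : Pr (dbl s v w) w z =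
    ((1 / 2 : ℚ) • Pr s v (z.1 - z.2),
      - ((1 / 2 : ℚ) • Pr s v (z.1 - z.2)) + (z.2 - Pr s v z.2)) := by
  rw [Pr_apply (dbl s v w), dblx_w hvw]
  ext
  · simp only [Prod.smul_fst, Prod.fst_add, map_sub]
    module
  · simp only [Prod.smul_snd, Prod.snd_add, map_sub]
    module

theorem dblx_Pr_x {v w x : X} (h1 : x ≠ v) (h2 : x ≠ w) (z : V × V) :
    Pr (dbl s v w) x z = (Pr s x z.1, Pr s x z.2) := by
  rw [Pr_apply (dbl s v w), dblx_x h1 h2, Pr_apply, Pr_apply]
  rfl

/-- The commutation used for the other vertices. -/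
theorem dblx_comm {v w : X} (hvw : v ≠ w) (h : Ok F (Function.update s w (s v)))
    {τ : Finset X} (hτ : τ ∈ F) {x : X} (hx : x ∈ τ) (_h1 : x ≠ v) (h2 : x ≠ w)
    (hv : v ∈ τ ∨ w ∈ τ) : s x * s v = s v * s x := by
  rcases hv with hv | hv
  · have := h.comm τ hτ x hx v hv
    rwa [Function.update_of_ne h2, Function.update_of_ne hvw] at this
  · have := h.comm τ hτ x hx w hv
    rwa [Function.update_of_ne h2, Function.update_self] at this

theorem dblx_ok {v w : X} (hvw : v ≠ w) (hv : s v * s v = 1)
    (h : Ok F (Function.update s w (s v))) : Ok F (dbl s v w) := by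
  have hPP : ∀ z, Pr s v (Pr s v z) = Pr s v z := fun z => Pr_Pr hv z
  refine ⟨h.conv, fun x => ?_, fun τ hτ => ?_⟩
  · apply LinearMap.ext
    intro z
    rw [Module.End.mul_apply, Module.End.one_apply]
    by_cases h1 : x = v
    · subst h1
      rw [dblx_v (dbl s x w x z), dblx_v]
      ext
      · simp only [map_sub, map_neg, hPP]
        module
      · simp only [map_sub, map_neg, hPP]
        module
    · by_cases h2 : x = w
      · subst h2
        rw [dblx_w hvw (dbl s v x x z), dblx_w hvw]
        ext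
        · simp only [map_sub, map_neg, map_add, hPP]
          module
        · simp only [map_sub, map_neg, map_add, hPP]
          module
      · rw [dblx_x h1 h2, dblx_x h1 h2]
        have := h.inv x
        rw [Function.update_of_ne h2] at this
        have h3 : ∀ z, s x (s x z) = z := by
          intro z
          rw [← Module.End.mul_apply, this, Module.End.one_apply]
        rw [h3, h3]
  · -- commutation
    have hvw' : dbl s v w v * dbl s v w w = dbl s v w w * dbl s v w v := by
      apply LinearMap.ext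
      intro z
      rw [Module.End.mul_apply, Module.End.mul_apply, dblx_v (dbl s v w w z), dblx_w hvw z,
        dblx_w hvw (dbl s v w v z), dblx_v z]
      ext
      · simp only [map_sub, map_neg, map_add, hPP]
        module
      · simp only [map_sub, map_neg, map_add, hPP]
        module
    have hother : ∀ x ∈ τ, x ≠ v → x ≠ w → ∀ y, (y = v ∨ y = w) → y ∈ τ →
        dbl s v w x * dbl s v w y = dbl s v w y * dbl s v w x := by
      intro x hx h1 h2 y hy hyτ
      have hc : ∀ z, Pr s v (s x z) = s x (Pr s v z) := by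
        intro z
        rw [s_Pr_comm (dblx_comm hvw h hτ hx h1 h2 (by
          rcases hy with rfl | rfl
          · exact Or.inl hyτ
          · exact Or.inr hyτ))]
      apply LinearMap.ext
      intro z
      rw [Module.End.mul_apply, Module.End.mul_apply, dblx_x h1 h2 (dbl s v w y z),
        dblx_x h1 h2 z]
      rcases hy with rfl | rfl
      · rw [dblx_v, dblx_v]
        simp only [map_sub, map_neg, hc]
      · rw [dblx_w hvw, dblx_w hvw]
        simp only [map_sub, map_neg, map_add, hc]
    intro x hx y hy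
    by_cases h1 : x = v
    · by_cases h3 : y = v
      · rw [h1, h3]
      · by_cases h4 : y = w
        · rw [h1, h4, hvw']
        · exact (hother y hy h3 h4 x (Or.inl h1) hx).symm
    · by_cases h2 : x = w
      · by_cases h3 : y = v
        · rw [h2, h3, hvw']
        · by_cases h4 : y = w
          · rw [h2, h4]
          · exact (hother y hy h3 h4 x (Or.inr h2) hx).symm
      · by_cases h3 : y = v
        · exact hother x hx h1 h2 y (Or.inl h3) hy
        · by_cases h4 : y = w
          · exact hother x hx h1 h2 y (Or.inr h4) hy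
          · apply LinearMap.ext
            intro z
            have h5 := h.comm τ hτ x hx y hy
            rw [Function.update_of_ne h2, Function.update_of_ne h4] at h5
            have h6 : ∀ z, s x (s y z) = s y (s x z) := by
              intro z
              rw [← Module.End.mul_apply, h5, Module.End.mul_apply]
            rw [Module.End.mul_apply, Module.End.mul_apply, dblx_x h1 h2, dblx_x h3 h4,
              dblx_x h3 h4, dblx_x h1 h2, h6, h6]

/-- The values of the negated system. -/
theorem dblx_neg_v {v w : X} (hvw : v ≠ w) :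
    Function.update (Function.update s v (- s v)) w (- s v) v = - s v := by
  rw [Function.update_of_ne hvw, Function.update_self]

theorem dblx_neg_x {v w x : X} (h1 : x ≠ v) (h2 : x ≠ w) :
    Function.update (Function.update s v (- s v)) w (- s v) x = s x := by
  rw [Function.update_of_ne h2, Function.update_of_ne h1]

theorem dblx_ok_neg {v w : X} (hvw : v ≠ w) (hv : s v * s v = 1)
    (h : Ok F (Function.update s w (s v))) :
    Ok F (Function.update (Function.update s v (- s v)) w (- s v)) := by
  refine ⟨h.conv, fun x => ?_, fun τ hτ x hx y hy => ?_⟩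
  · by_cases h2 : x = w
    · rw [h2, Function.update_self, neg_mul_neg, hv]
    · by_cases h1 : x = v
      · rw [h1, dblx_neg_v hvw, neg_mul_neg, hv]
      · have := h.inv x
        rw [Function.update_of_ne h2] at this
        rw [dblx_neg_x h1 h2, this]
  · have hother : ∀ x ∈ τ, x ≠ v → x ≠ w → ∀ y, (y = v ∨ y = w) → y ∈ τ →
        s x * (- s v) = (- s v) * s x := by
      intro x hx h1 h2 y hy hyτ
      rw [mul_neg, neg_mul, dblx_comm hvw h hτ hx h1 h2 (by
          rcases hy with rfl | rfl
          · exact Or.inl hyτ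
          · exact Or.inr hyτ)]
    have hval : ∀ y, (y = v ∨ y = w) →
        Function.update (Function.update s v (- s v)) w (- s v) y = - s v := by
      rintro y (rfl | rfl)
      · exact dblx_neg_v hvw
      · rw [Function.update_self]
    by_cases h1 : x = v ∨ x = w
    · by_cases h3 : y = v ∨ y = w
      · rw [hval x h1, hval y h3]
      · have h3' := h3
        rw [not_or] at h3'
        rw [hval x h1, dblx_neg_x h3'.1 h3'.2]
        exact (hother y hy h3'.1 h3'.2 x h1 hx).symm
    · have h1' := h1
      rw [not_or] at h1'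
      by_cases h3 : y = v ∨ y = w
      · rw [hval y h3, dblx_neg_x h1'.1 h1'.2]
        exact hother x hx h1'.1 h1'.2 y h3 hy
      · rw [not_or] at h3
        have h5 := h.comm τ hτ x hx y hy
        rw [Function.update_of_ne h1'.2, Function.update_of_ne h3.2] at h5
        rw [dblx_neg_x h1'.1 h1'.2, dblx_neg_x h3.1 h3.2, h5]

/-- The members not containing both `v` and `w`. -/
def dblxF (F : Set (Finset X)) (v w : X) : Set (Finset X) := {τ | τ ∈ F ∧ ¬ (v ∈ τ ∧ w ∈ τ)}

theorem dblx_ok_sub {v w : X} (hvw : v ≠ w) (hv : s v * s v = 1)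
    (h : Ok F (Function.update s w (s v))) :
    Ok (dblxF F v w) (Function.update (Function.update s v (- s v)) w (- s v)) := by
  have h0 := dblx_ok_neg hvw hv h
  refine ⟨fun τ hτ ρ hρ π h1 h2 => ?_, h0.inv, fun τ hτ => h0.comm τ hτ.1⟩
  exact ⟨h.conv τ hτ.1 ρ hρ.1 π h1 h2, fun h3 => hτ.2 ⟨h2 h3.1, h2 h3.2⟩⟩

open scoped Classical in
/-- The inclusion. -/
noncomputable def dblxPhi (v w : X) : (Finset X → V) →ₗ[ℚ] (Finset X → V × V) :=
  LinearMap.pi (fun τ => if v ∈ τ then LinearMap.prod (LinearMap.proj τ) 0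
    else if w ∈ τ then LinearMap.prod 0 (LinearMap.proj τ)
    else LinearMap.prod (LinearMap.proj τ) (LinearMap.proj τ))

open scoped Classical in
/-- The projection. -/
noncomputable def dblxPsi (s : X → Module.End ℚ V) (v w : X) :
    (Finset X → V × V) →ₗ[ℚ] (Finset X → V) :=
  LinearMap.pi (fun τ => if v ∈ τ ∨ w ∈ τ then
      Pr s v ∘ₗ (LinearMap.fst ℚ V V - LinearMap.snd ℚ V V) ∘ₗ LinearMap.proj τ
    else (LinearMap.fst ℚ V V - LinearMap.snd ℚ V V) ∘ₗ LinearMap.proj τ)

theorem dblxPhi_v {v w : X} (a : Finset X → V) {τ : Finset X} (h : v ∈ τ) :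
    dblxPhi v w a τ = (a τ, 0) := by
  unfold dblxPhi
  rw [LinearMap.pi_apply, if_pos h]
  rfl

theorem dblxPhi_w {v w : X} (a : Finset X → V) {τ : Finset X} (h : v ∉ τ) (h' : w ∈ τ) :
    dblxPhi v w a τ = (0, a τ) := by
  unfold dblxPhi
  rw [LinearMap.pi_apply, if_neg h, if_pos h']
  rfl

theorem dblxPhi_x {v w : X} (a : Finset X → V) {τ : Finset X} (h : v ∉ τ) (h' : w ∉ τ) :
    dblxPhi v w a τ = (a τ, a τ) := by
  unfold dblxPhi
  rw [LinearMap.pi_apply, if_neg h, if_neg h']
  rfl

theorem dblxPhi_zero {v w : X} (a : Finset X → V) {τ : Finset X} (h : a τ = 0) :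
    dblxPhi v w a τ = 0 := by
  by_cases h1 : v ∈ τ
  · rw [dblxPhi_v a h1, h]; rfl
  · by_cases h2 : w ∈ τ
    · rw [dblxPhi_w a h1 h2, h]; rfl
    · rw [dblxPhi_x a h1 h2, h]; rfl

theorem dblxPsi_v {v w : X} (c : Finset X → V × V) {τ : Finset X} (h : v ∈ τ ∨ w ∈ τ) :
    dblxPsi s v w c τ = Pr s v ((c τ).1 - (c τ).2) := by
  unfold dblxPsi
  rw [LinearMap.pi_apply, if_pos h]
  rfl

theorem dblxPsi_x {v w : X} (c : Finset X → V × V) {τ : Finset X} (h : ¬ (v ∈ τ ∨ w ∈ τ)) :
    dblxPsi s v w c τ = (c τ).1 - (c τ).2 := by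
  unfold dblxPsi
  rw [LinearMap.pi_apply, if_neg h]
  rfl

theorem dblxPsi_zero {v w : X} (c : Finset X → V × V) {τ : Finset X} (h : c τ = 0) :
    dblxPsi s v w c τ = 0 := by
  by_cases h1 : v ∈ τ ∨ w ∈ τ
  · rw [dblxPsi_v c h1, h]; simp
  · rw [dblxPsi_x c h1, h]; simp

/-- The projection of a vector negated by `s v`. -/
theorem dblx_Pr_neg {v : X} {z : V} (h : s v z = - z) : Pr s v z = 0 := by
  rw [Pr_apply, h, add_neg_cancel, smul_zero]

/-- A vector with vanishing projection is negated. -/
theorem dblx_neg_Pr {v : X} {z : V} (h : Pr s v z = 0) : s v z = - z := by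
  rw [Pr_apply] at h
  have h1 : (2 : ℚ) • ((1 / 2 : ℚ) • (z + s v z)) = 0 := by rw [h, smul_zero]
  rw [smul_smul] at h1
  norm_num at h1
  exact (neg_eq_of_add_eq_zero_right h1).symm

theorem dblx_Pr_CC {F' : Set (Finset X)} {v w : X} (hvw : v ≠ w) {a : Finset X → V}
    (ha : a ∈ CC F' (Function.update (Function.update s v (- s v)) w (- s v)) d)
    {τ : Finset X} (h : v ∈ τ ∨ w ∈ τ) : Pr s v (a τ) = 0 := by
  rw [mem_CC] at ha
  rcases h with h | h
  · have := ha.2.2 τ v h
    rw [dblx_neg_v hvw, LinearMap.neg_apply] at this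
    exact dblx_Pr_neg (neg_eq_iff_eq_neg.1 this)
  · have := ha.2.2 τ w h
    rw [Function.update_self, LinearMap.neg_apply] at this
    exact dblx_Pr_neg (neg_eq_iff_eq_neg.1 this)

theorem dblxPhi_mem {v w : X} (hvw : v ≠ w) {a : Finset X → V}
    (ha : a ∈ CC (dblxF F v w) (Function.update (Function.update s v (- s v)) w (- s v)) d) :
    dblxPhi v w a ∈ CC F (dbl s v w) d := by
  have hP := fun τ => dblx_Pr_CC hvw ha (τ := τ)
  rw [mem_CC] at ha ⊢
  obtain ⟨h1, h2, h3⟩ := ha
  refine ⟨fun τ hτ => dblxPhi_zero a (h1 τ (fun h => hτ h.1)),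
    fun τ hτ => dblxPhi_zero a (h2 τ hτ), fun τ x hx => ?_⟩
  by_cases hF : τ ∈ dblxF F v w
  swap
  · rw [dblxPhi_zero a (h1 τ hF), map_zero]
  by_cases hv : v ∈ τ
  · have hw : w ∉ τ := fun hw => hF.2 ⟨hv, hw⟩
    rw [dblxPhi_v a hv]
    by_cases hxv : x = v
    · subst hxv
      rw [dblx_v]
      simp only [hP τ (Or.inl hv), map_zero, sub_zero, neg_zero]
    · have hxw : x ≠ w := fun e => hw (e ▸ hx)
      have := h3 τ x hx
      rw [dblx_neg_x hxv hxw] at this
      rw [dblx_x hxv hxw]
      simp only [this, map_zero]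
  · by_cases hw : w ∈ τ
    · rw [dblxPhi_w a hv hw]
      by_cases hxw : x = w
      · subst hxw
        rw [dblx_w hvw]
        simp only [hP τ (Or.inr hw), map_zero, sub_zero, neg_zero, zero_add]
      · have hxv : x ≠ v := fun e => hv (e ▸ hx)
        have := h3 τ x hx
        rw [dblx_neg_x hxv hxw] at this
        rw [dblx_x hxv hxw]
        simp only [this, map_zero]
    · rw [dblxPhi_x a hv hw]
      have hxv : x ≠ v := fun e => hv (e ▸ hx)
      have hxw : x ≠ w := fun e => hw (e ▸ hx)
      have := h3 τ x hx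
      rw [dblx_neg_x hxv hxw] at this
      rw [dblx_x hxv hxw]
      simp only [this]

theorem dblxPsi_mem {v w : X} (hvw : v ≠ w) (hv : s v * s v = 1)
    (h : Ok F (Function.update s w (s v))) {c : Finset X → V × V}
    (hc : c ∈ CC F (dbl s v w) d) :
    dblxPsi s v w c ∈ CC F (Function.update s w (s v)) d := by
  rw [mem_CC] at hc ⊢
  obtain ⟨h1, h2, h3⟩ := hc
  refine ⟨fun τ hτ => dblxPsi_zero c (h1 τ hτ), fun τ hτ => dblxPsi_zero c (h2 τ hτ),
    fun τ x hx => ?_⟩
  by_cases hF : τ ∈ F
  swap
  · rw [dblxPsi_zero c (h1 τ hF), map_zero]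
  by_cases hxv : x = v
  · subst hxv
    rw [dblxPsi_v c (Or.inl hx), Function.update_of_ne hvw, s_Pr hv]
  · by_cases hxw : x = w
    · subst hxw
      rw [dblxPsi_v c (Or.inr hx), Function.update_self, s_Pr hv]
    · rw [Function.update_of_ne hxw]
      have h4 := h3 τ x hx
      rw [dblx_x hxv hxw] at h4
      have h5 : s x (c τ).1 = (c τ).1 := congrArg Prod.fst h4
      have h6 : s x (c τ).2 = (c τ).2 := congrArg Prod.snd h4
      by_cases hvw' : v ∈ τ ∨ w ∈ τ
      · rw [dblxPsi_v c hvw', s_Pr_comm (dblx_comm hvw h hF hx hxv hxw hvw'), map_sub, h5, h6]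
      · rw [dblxPsi_x c hvw', map_sub, h5, h6]

theorem dblxPhi_D {v w : X} (hvw : v ≠ w) {a : Finset X → V}
    (ha : a ∈ CC (dblxF F v w) (Function.update (Function.update s v (- s v)) w (- s v)) d) :
    dblxPhi v w (Di (dblxF F v w) (Function.update (Function.update s v (- s v)) w (- s v)) a) =
      Di F (dbl s v w) (dblxPhi v w a) := by
  have hP := fun τ => dblx_Pr_CC hvw ha (τ := τ)
  have hPv : ∀ z, Pr (Function.update (Function.update s v (- s v)) w (- s v)) v z =
      z - Pr s v z := by
    intro z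
    rw [Pr_apply, Pr_apply, dblx_neg_v hvw, LinearMap.neg_apply]
    module
  have hPw : ∀ z, Pr (Function.update (Function.update s v (- s v)) w (- s v)) w z =
      z - Pr s v z := by
    intro z
    rw [Pr_apply, Pr_apply, Function.update_self, LinearMap.neg_apply]
    module
  have hPx : ∀ x, x ≠ v → x ≠ w → ∀ z,
      Pr (Function.update (Function.update s v (- s v)) w (- s v)) x z = Pr s x z := by
    intro x h1 h2 z
    rw [Pr_apply, Pr_apply, dblx_neg_x h1 h2]
  rw [mem_CC] at ha
  obtain ⟨h1, h2, h3⟩ := ha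
  funext τ
  by_cases hF : τ ∈ F
  swap
  · rw [Di_of_notMem _ _ hF, dblxPhi_zero]
    exact Di_of_notMem _ _ (fun h => hF h.1)
  rw [Di_of_mem _ _ hF]
  by_cases hv : v ∈ τ
  · by_cases hw : w ∈ τ
    · -- both
      rw [dblxPhi_zero]
      swap
      · exact Di_of_notMem _ _ (fun h => h.2 ⟨hv, hw⟩)
      symm
      refine Finset.sum_eq_zero fun x hx => ?_
      by_cases hxv : x = v
      · subst hxv
        rw [dblx_Pr_v, dblxPhi_w a (Finset.notMem_erase x τ) (Finset.mem_erase.2 ⟨hvw.symm, hw⟩)]
        simp only [zero_sub, map_neg, hP (τ.erase x) (Or.inr (Finset.mem_erase.2 ⟨hvw.symm, hw⟩)),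
          neg_zero, smul_zero, map_zero, sub_zero, add_zero]
        rw [Prod.mk_zero_zero, smul_zero]
      · by_cases hxw : x = w
        · subst hxw
          rw [dblx_Pr_w hvw, dblxPhi_v a (Finset.mem_erase.2 ⟨hvw, hv⟩)]
          simp only [sub_zero, hP (τ.erase x) (Or.inl (Finset.mem_erase.2 ⟨hvw, hv⟩)),
            smul_zero, neg_zero, map_zero, add_zero]
          rw [Prod.mk_zero_zero, smul_zero]
        · rw [dblxPhi_zero a (h1 (τ.erase x) (fun h => h.2
            ⟨Finset.mem_erase.2 ⟨Ne.symm hxv, hv⟩, Finset.mem_erase.2 ⟨Ne.symm hxw, hw⟩⟩)),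
            map_zero, smul_zero]
    · -- v only
      rw [dblxPhi_v _ hv, Di_of_mem _ _ (show τ ∈ dblxF F v w from ⟨hF, fun h => hw h.2⟩)]
      have key : ∀ x ∈ τ, sg x τ • Pr (dbl s v w) x (dblxPhi v w a (τ.erase x)) =
          (sg x τ • Pr (Function.update (Function.update s v (- s v)) w (- s v)) x
            (a (τ.erase x)), 0) := by
        intro x hx
        by_cases hxv : x = v
        · subst hxv
          rw [hPv, dblx_Pr_v, dblxPhi_x a (Finset.notMem_erase x τ)
            (fun h => hw (Finset.mem_of_mem_erase h))]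
          simp only [sub_self, map_zero, smul_zero, zero_add, neg_zero]
          rw [Prod.smul_mk, smul_zero]
        · have hxw : x ≠ w := fun e => hw (e ▸ hx)
          rw [hPx x hxv hxw, dblx_Pr_x hxv hxw,
            dblxPhi_v a (Finset.mem_erase.2 ⟨Ne.symm hxv, hv⟩)]
          simp only [map_zero]
          rw [Prod.smul_mk, smul_zero]
      rw [Finset.sum_congr rfl key]
      ext
      · rw [Prod.fst_sum]
        try exact Finset.sum_const_zero.symm
      · rw [Prod.snd_sum]
        try exact Finset.sum_const_zero.symm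
  · by_cases hw : w ∈ τ
    · rw [dblxPhi_w _ hv hw, Di_of_mem _ _ (show τ ∈ dblxF F v w from ⟨hF, fun h => hv h.1⟩)]
      have key : ∀ x ∈ τ, sg x τ • Pr (dbl s v w) x (dblxPhi v w a (τ.erase x)) =
          (0, sg x τ • Pr (Function.update (Function.update s v (- s v)) w (- s v)) x
            (a (τ.erase x))) := by
        intro x hx
        by_cases hxw : x = w
        · subst hxw
          rw [hPw, dblx_Pr_w hvw, dblxPhi_x a (fun h => hv (Finset.mem_of_mem_erase h))
            (Finset.notMem_erase x τ)]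
          simp only [sub_self, map_zero, smul_zero, zero_add, neg_zero]
          rw [Prod.smul_mk, smul_zero]
        · have hxv : x ≠ v := fun e => hv (e ▸ hx)
          rw [hPx x hxv hxw, dblx_Pr_x hxv hxw,
            dblxPhi_w a (fun h => hv (Finset.mem_of_mem_erase h))
              (Finset.mem_erase.2 ⟨Ne.symm hxw, hw⟩)]
          simp only [map_zero]
          rw [Prod.smul_mk, smul_zero]
      rw [Finset.sum_congr rfl key]
      ext
      · rw [Prod.fst_sum]
        try exact Finset.sum_const_zero.symm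
      · rw [Prod.snd_sum]
        try exact Finset.sum_const_zero.symm
    · rw [dblxPhi_x _ hv hw, Di_of_mem _ _ (show τ ∈ dblxF F v w from ⟨hF, fun h => hv h.1⟩)]
      have key : ∀ x ∈ τ, sg x τ • Pr (dbl s v w) x (dblxPhi v w a (τ.erase x)) =
          (sg x τ • Pr (Function.update (Function.update s v (- s v)) w (- s v)) x
            (a (τ.erase x)),
          sg x τ • Pr (Function.update (Function.update s v (- s v)) w (- s v)) x
            (a (τ.erase x))) := by
        intro x hx
        have hxv : x ≠ v := fun e => hv (e ▸ hx)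
        have hxw : x ≠ w := fun e => hw (e ▸ hx)
        rw [hPx x hxv hxw, dblx_Pr_x hxv hxw,
            dblxPhi_x a (fun h => hv (Finset.mem_of_mem_erase h))
              (fun h => hw (Finset.mem_of_mem_erase h))]
        rw [Prod.smul_mk]
      rw [Finset.sum_congr rfl key]
      ext
      · rw [Prod.fst_sum]
      · rw [Prod.snd_sum]

theorem dblxPsi_D {v w : X} (hvw : v ≠ w) (hv : s v * s v = 1)
    (h : Ok F (Function.update s w (s v))) {c : Finset X → V × V}
    (hc : c ∈ CC F (dbl s v w) d) :
    dblxPsi s v w (Di F (dbl s v w) c) =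
      Di F (Function.update s w (s v)) (dblxPsi s v w c) := by
  have hPP : ∀ z, Pr s v (Pr s v z) = Pr s v z := fun z => Pr_Pr hv z
  have hPv : ∀ z, Pr (Function.update s w (s v)) v z = Pr s v z := by
    intro z
    rw [Pr_apply, Pr_apply, Function.update_of_ne hvw]
  have hPw : ∀ z, Pr (Function.update s w (s v)) w z = Pr s v z := by
    intro z
    rw [Pr_apply, Pr_apply, Function.update_self]
  have hPx : ∀ x, x ≠ w → ∀ z, Pr (Function.update s w (s v)) x z = Pr s x z := by
    intro x h2 z
    rw [Pr_apply, Pr_apply, Function.update_of_ne h2]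
  have hPPsi : ∀ τ, Pr s v (dblxPsi s v w c τ) = Pr s v ((c τ).1 - (c τ).2) := by
    intro τ
    by_cases h1 : v ∈ τ ∨ w ∈ τ
    · rw [dblxPsi_v c h1, hPP]
    · rw [dblxPsi_x c h1]
  funext τ
  by_cases hF : τ ∈ F
  swap
  · rw [Di_of_notMem _ _ hF, dblxPsi_zero]
    exact Di_of_notMem _ _ hF
  rw [Di_of_mem _ _ hF]
  by_cases hvw' : v ∈ τ ∨ w ∈ τ
  · rw [dblxPsi_v _ hvw', Di_of_mem _ _ hF, Prod.fst_sum, Prod.snd_sum, ← Finset.sum_sub_distrib,
      map_sum]
    refine Finset.sum_congr rfl fun x hx => ?_
    rw [Prod.smul_fst, Prod.smul_snd, ← smul_sub, map_smul]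
    congr 1
    by_cases hxv : x = v
    · subst hxv
      rw [hPv, hPPsi, dblx_Pr_v]
      simp only [map_sub, map_add, map_neg, map_smul, hPP]
      module
    · by_cases hxw : x = w
      · subst hxw
        rw [hPw, hPPsi, dblx_Pr_w hvw]
        simp only [map_sub, map_add, map_neg, map_smul, hPP]
        module
      · rw [hPx x hxw, dblx_Pr_x hxv hxw]
        have h5 : v ∈ τ.erase x ∨ w ∈ τ.erase x := by
          rcases hvw' with h6 | h6
          · exact Or.inl (Finset.mem_erase.2 ⟨Ne.symm hxv, h6⟩)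
          · exact Or.inr (Finset.mem_erase.2 ⟨Ne.symm hxw, h6⟩)
        rw [dblxPsi_v c h5, ← map_sub, Pr_Pr_comm (dblx_comm hvw h hF hx hxv hxw hvw').symm]
  · rw [dblxPsi_x _ hvw', Di_of_mem _ _ hF, Prod.fst_sum, Prod.snd_sum,
      ← Finset.sum_sub_distrib]
    rw [not_or] at hvw'
    refine Finset.sum_congr rfl fun x hx => ?_
    have hxv : x ≠ v := fun e => hvw'.1 (e ▸ hx)
    have hxw : x ≠ w := fun e => hvw'.2 (e ▸ hx)
    rw [Prod.smul_fst, Prod.smul_snd, ← smul_sub, hPx x hxw, dblx_Pr_x hxv hxw, dblxPsi_x c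
      (fun h6 => h6.elim (fun h7 => hvw'.1 (Finset.mem_of_mem_erase h7))
        (fun h7 => hvw'.2 (Finset.mem_of_mem_erase h7))), ← map_sub]

/-- The short exact sequence of the doubled system. -/
noncomputable def dblxSes {v w : X} (hvw : v ≠ w) (hv : s v * s v = 1)
    (h : Ok F (Function.update s w (s v))) :
    SES (cx (dblxF F v w) (Function.update (Function.update s v (- s v)) w (- s v))
        (dblx_ok_sub hvw hv h))
      (cx F (dbl s v w) (dblx_ok hvw hv h)) (cx F (Function.update s w (s v)) h) where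
  Φ := dblxPhi v w
  Ψ := dblxPsi s v w
  hΦ := fun d c hc => dblxPhi_mem hvw hc
  hΨ := fun d c hc => dblxPsi_mem hvw hv h hc
  cΦ := fun d c hc => dblxPhi_D hvw hc
  cΨ := fun d c hc => dblxPsi_D hvw hv h hc
  inj := by
    intro d c hc h0
    funext τ
    have h1 := congrFun h0 τ
    by_cases hv : v ∈ τ
    · rw [dblxPhi_v c hv] at h1
      exact congrArg Prod.fst h1
    · by_cases hw : w ∈ τ
      · rw [dblxPhi_w c hv hw] at h1
        exact congrArg Prod.snd h1
      · rw [dblxPhi_x c hv hw] at h1
        exact congrArg Prod.fst h1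
  lift := by
    intro d c hc
    change c ∈ CC F (Function.update s w (s v)) d at hc
    rw [mem_CC] at hc
    obtain ⟨h1, h2, h3⟩ := hc
    have hP : ∀ τ, (v ∈ τ ∨ w ∈ τ) → Pr s v (c τ) = c τ := by
      rintro τ (h4 | h4)
      · have := h3 τ v h4
        rw [Function.update_of_ne hvw] at this
        exact Pr_of_fix this
      · have := h3 τ w h4
        rw [Function.update_self] at this
        exact Pr_of_fix this
    refine ⟨fun τ => ((1 / 2 : ℚ) • c τ, - ((1 / 2 : ℚ) • c τ)), ?_, ?_⟩
    · change _ ∈ CC F (dbl s v w) d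
      rw [mem_CC]
      refine ⟨fun τ hτ => ?_, fun τ hτ => ?_, fun τ x hx => ?_⟩
      · simp only [h1 τ hτ, smul_zero, neg_zero]
        rfl
      · simp only [h2 τ hτ, smul_zero, neg_zero]
        rfl
      · by_cases hxv : x = v
        · subst hxv
          rw [dblx_v]
          simp only [map_smul, map_neg, hP τ (Or.inl hx)]
          ext
          · simp only
            module
          · simp only
            module
        · by_cases hxw : x = w
          · subst hxw
            rw [dblx_w hvw]
            simp only [map_smul, map_neg, hP τ (Or.inr hx)]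
            ext
            · simp only
              module
            · simp only
              module
          · rw [dblx_x hxv hxw]
            have := h3 τ x hx
            rw [Function.update_of_ne hxw] at this
            simp only [map_smul, map_neg, this]
    · funext τ
      by_cases h4 : v ∈ τ ∨ w ∈ τ
      · rw [dblxPsi_v _ h4]
        simp only [map_sub, map_neg, map_smul, hP τ h4]
        module
      · rw [dblxPsi_x _ h4]
        simp only
        module
  ker := by
    intro d c hc h0
    change c ∈ CC F (dbl s v w) d at hc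
    rw [mem_CC] at hc
    obtain ⟨h1, h2, h3⟩ := hc
    have kv : ∀ τ, v ∈ τ → Pr s v (c τ).1 = 0 ∧ (c τ).2 = 0 := by
      intro τ hτ
      have h4 := h3 τ v hτ
      have h5 := congrFun h0 τ
      rw [dblxPsi_v c (Or.inl hτ), Pi.zero_apply, map_sub] at h5
      rw [dblx_v] at h4
      have h6 : (c τ).1 - Pr s v (c τ).1 - Pr s v (c τ).2 = (c τ).1 := congrArg Prod.fst h4
      have h7 : - Pr s v (c τ).1 - ((c τ).2 - Pr s v (c τ).2) = (c τ).2 := congrArg Prod.snd h4
      have h8 : Pr s v (c τ).1 = Pr s v (c τ).2 := sub_eq_zero.1 h5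
      have h9 : (2 : ℚ) • Pr s v (c τ).2 = 0 := by
        have : (c τ).1 - (2 : ℚ) • Pr s v (c τ).2 = (c τ).1 := by
          rw [h8] at h6
          rw [two_smul, ← sub_sub]
          exact h6
        exact sub_eq_self.1 this
      have h10 : Pr s v (c τ).2 = 0 := by
        rcases smul_eq_zero.1 h9 with h | h
        · norm_num at h
        · exact h
      refine ⟨h8.trans h10, ?_⟩
      rw [h8, h10, neg_zero, zero_sub, sub_zero] at h7
      have h11 : (2 : ℚ) • (c τ).2 = 0 := by
        rw [two_smul]
        nth_rw 1 [← h7]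
        exact neg_add_cancel _
      rcases smul_eq_zero.1 h11 with h | h
      · norm_num at h
      · exact h
    have kw : ∀ τ, w ∈ τ → Pr s v (c τ).2 = 0 ∧ (c τ).1 = 0 := by
      intro τ hτ
      have h4 := h3 τ w hτ
      have h5 := congrFun h0 τ
      rw [dblxPsi_v c (Or.inr hτ), Pi.zero_apply, map_sub] at h5
      rw [dblx_w hvw] at h4
      have h6 : - ((c τ).1 - Pr s v (c τ).1) - Pr s v (c τ).2 = (c τ).1 := congrArg Prod.fst h4
      have h7 : - Pr s v (c τ).1 + ((c τ).2 - Pr s v (c τ).2) = (c τ).2 := congrArg Prod.snd h4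
      have h8 : Pr s v (c τ).1 = Pr s v (c τ).2 := sub_eq_zero.1 h5
      have h9 : (2 : ℚ) • Pr s v (c τ).2 = 0 := by
        have : (c τ).2 - (2 : ℚ) • Pr s v (c τ).2 = (c τ).2 := by
          rw [h8] at h7
          refine Eq.trans ?_ h7
          module
        exact sub_eq_self.1 this
      have h10 : Pr s v (c τ).2 = 0 := by
        rcases smul_eq_zero.1 h9 with h | h
        · norm_num at h
        · exact h
      refine ⟨h10, ?_⟩
      rw [h8, h10, sub_zero, sub_zero] at h6
      have h11 : (2 : ℚ) • (c τ).1 = 0 := by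
        rw [two_smul]
        nth_rw 1 [← h6]
        exact neg_add_cancel _
      rcases smul_eq_zero.1 h11 with h | h
      · norm_num at h
      · exact h
    have kx : ∀ τ, v ∉ τ → w ∉ τ → (c τ).1 = (c τ).2 := by
      intro τ hv' hw'
      have h5 := congrFun h0 τ
      rw [dblxPsi_x c (fun h => h.elim hv' hw')] at h5
      exact sub_eq_zero.1 h5
    classical
    refine ⟨fun τ => if v ∈ τ then (c τ).1 else (c τ).2, ?_, ?_⟩
    · change _ ∈ CC (dblxF F v w) (Function.update (Function.update s v (- s v)) w (- s v)) d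
      rw [mem_CC]
      refine ⟨fun τ hτ => ?_, fun τ hτ => ?_, fun τ x hx => ?_⟩
      · by_cases hF : τ ∈ F
        · have hb : v ∈ τ ∧ w ∈ τ := by
            by_contra h4
            exact hτ ⟨hF, h4⟩
          simp only [if_pos hb.1]
          exact (kw τ hb.2).2
        · simp only [h1 τ hF]
          split_ifs <;> rfl
      · simp only [h2 τ hτ]
        split_ifs <;> rfl
      · by_cases hxv : x = v
        · subst hxv
          simp only [if_pos hx]
          rw [dblx_neg_v hvw, LinearMap.neg_apply, dblx_neg_Pr (kv τ hx).1, neg_neg]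
        · by_cases hxw : x = w
          · subst hxw
            by_cases hv' : v ∈ τ
            · simp only [if_pos hv', (kw τ hx).2, map_zero]
            · simp only [if_neg hv']
              rw [Function.update_self, LinearMap.neg_apply, dblx_neg_Pr (kw τ hx).1, neg_neg]
          · have h4 := h3 τ x hx
            rw [dblx_x hxv hxw] at h4
            have h5 : s x (c τ).1 = (c τ).1 := congrArg Prod.fst h4
            have h6 : s x (c τ).2 = (c τ).2 := congrArg Prod.snd h4
            rw [dblx_neg_x hxv hxw]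
            split_ifs
            · exact h5
            · exact h6
    · funext τ
      by_cases hv' : v ∈ τ
      · rw [dblxPhi_v _ hv']
        simp only [if_pos hv']
        ext
        · rfl
        · exact (kv τ hv').2.symm
      · by_cases hw' : w ∈ τ
        · rw [dblxPhi_w _ hv' hw']
          simp only [if_neg hv']
          ext
          · exact (kw τ hw').2.symm
          · rfl
        · rw [dblxPhi_x _ hv' hw']
          simp only [if_neg hv']
          ext
          · exact (kx τ hv' hw').symm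
          · rfl
  ΨΦ := by
    intro d c hc
    change c ∈ CC (dblxF F v w) (Function.update (Function.update s v (- s v)) w (- s v)) d at hc
    funext τ
    rw [Pi.zero_apply]
    by_cases hv' : v ∈ τ
    · rw [dblxPsi_v _ (Or.inl hv'), dblxPhi_v _ hv', sub_zero, dblx_Pr_CC hvw hc (Or.inl hv')]
    · by_cases hw' : w ∈ τ
      · rw [dblxPsi_v _ (Or.inr hw'), dblxPhi_w _ hv' hw', zero_sub, map_neg,
          dblx_Pr_CC hvw hc (Or.inr hw'), neg_zero]
      · rw [dblxPsi_x _ (fun h => h.elim hv' hw'), dblxPhi_x _ hv' hw', sub_self]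

theorem ex_dbl {v w : X} (hvw : v ≠ w) (hv : s v * s v = 1)
    (h : Ok F (Function.update s w (s v)))
    (e1 : ∀ d, ExAt F (Function.update s w (s v)) d)
    (e2 : ∀ d, ExAt {τ | τ ∈ F ∧ ¬ (v ∈ τ ∧ w ∈ τ)}
      (Function.update (Function.update s v (- s v)) w (- s v)) d) (d : ℤ) :
    ExAt F (dbl s v w) d :=
  (dblxSes hvw hv h).mid (e2 d) (e1 d)

/-- The transport of the doubled system by a linear involution up to a factor. -/
theorem dblx_tw {s' r : X → Module.End ℚ V} {v w : X} (T U : V × V →ₗ[ℚ] V × V)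
    (hTU : ∀ z, T (U z) = z) (hUT : ∀ z, U (T z) = z) (S : Set X) (hS : S ⊆ {v, w})
    (hv : ∀ z, T (dbl r v w v z) = tw S (dbl s' v w) v (T z))
    (hw : ∀ z, T (dbl r v w w z) = tw S (dbl s' v w) w (T z))
    (hx : ∀ x, x ≠ v → x ≠ w → ∀ z, T (r x z.1, r x z.2) = (s' x (T z).1, s' x (T z).2))
    (e : ExAt F (dbl r v w) d) : ExAt F (tw S (dbl s' v w)) d := by
  refine dblx_transport T U hTU hUT (fun x z => ?_) e
  by_cases h1 : x = v
  · rw [h1]; exact hv z
  · by_cases h2 : x = w
    · rw [h2]; exact hw z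
    · have h3 : x ∉ S := by
        intro h3
        rcases hS h3 with h4 | h4
        · exact h1 h4
        · exact h2 h4
      unfold tw
      rw [if_neg h3, dblx_x h1 h2, dblx_x h1 h2]
      exact hx x h1 h2 z

theorem tw_mem {V' : Type} [AddCommGroup V'] [Module ℚ V'] {s' : X → Module.End ℚ V'} {S : Set X}
    {x : X} (h : x ∈ S) (z : V') : tw S s' x z = - s' x z := by
  unfold tw
  rw [if_pos h]
  rfl

theorem tw_notMem {V' : Type} [AddCommGroup V'] [Module ℚ V'] {s' : X → Module.End ℚ V'}
    {S : Set X} {x : X} (h : x ∉ S) (z : V') : tw S s' x z = s' x z := by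
  unfold tw
  rw [if_neg h]

/-- The other sign patterns of v and w are the same up to a change of basis. -/
theorem ex_dbl_signs {v w : X} (hvw : v ≠ w) (hv : s v * s v = 1)
    (h : Ok F (Function.update s w (s v)))
    (e1 : ∀ d, ExAt F (Function.update s w (s v)) d)
    (e1' : ∀ d, ExAt F (Function.update (Function.update s v (- s v)) w (- s v)) d)
    (e2 : ∀ d, ExAt {τ | τ ∈ F ∧ ¬ (v ∈ τ ∧ w ∈ τ)}
      (Function.update (Function.update s v (- s v)) w (- s v)) d)
    (e2' : ∀ d, ExAt {τ | τ ∈ F ∧ ¬ (v ∈ τ ∧ w ∈ τ)} (Function.update s w (s v)) d)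
    (S : Set X) (hS : S ⊆ {v, w}) (d : ℤ) :
    ExAt F (tw S (dbl s v w)) d := by
  have hex := ex_dbl hvw hv h e1 e2 d
  -- the system with the sign of v changed
  set r : X → Module.End ℚ V := Function.update s v (- s v) with hr
  have hrv : r v = - s v := by rw [hr, Function.update_self]
  have hrx : ∀ x, x ≠ v → r x = s x := fun x hx => by rw [hr, Function.update_of_ne hx]
  have hr1 : Function.update r w (r v) = Function.update r w (- s v) := by rw [hrv]
  have hr2 : Function.update (Function.update r v (- r v)) w (- r v) =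
      Function.update s w (s v) := by
    rw [hrv, neg_neg, hr, Function.update_idem, Function.update_eq_self]
  have hexr : ExAt F (dbl r v w) d := by
    refine ex_dbl hvw (by rw [hrv, neg_mul_neg, hv]) ?_ ?_ ?_ d
    · rw [hr1]; exact dblx_ok_neg hvw hv h
    · rw [hr1]; exact e1'
    · rw [hr2]; exact e2'
  have hPr : ∀ z, Pr r v z = z - Pr s v z := by
    intro z
    rw [Pr_apply, Pr_apply, hrv, LinearMap.neg_apply]
    module
  -- the four cases
  by_cases hvS : v ∈ S
  · by_cases hwS : w ∈ S
    · refine dblx_tw (LinearMap.prod (- LinearMap.snd ℚ V V) (LinearMap.fst ℚ V V))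
        (LinearMap.prod (LinearMap.snd ℚ V V) (- LinearMap.fst ℚ V V)) ?_ ?_ S hS ?_ ?_ ?_ hex
      · intro z
        ext <;> simp
      · intro z
        ext <;> simp
      · intro z
        rw [tw_mem hvS, dblx_v, dblx_v]
        ext <;> simp <;> module
      · intro z
        rw [tw_mem hwS, dblx_w hvw, dblx_w hvw]
        ext <;> simp <;> module
      · intro x hx1 hx2 z
        simp
    · refine dblx_tw (LinearMap.prod (LinearMap.fst ℚ V V + LinearMap.snd ℚ V V)
        (LinearMap.fst ℚ V V - LinearMap.snd ℚ V V))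
        ((1 / 2 : ℚ) • LinearMap.prod (LinearMap.fst ℚ V V + LinearMap.snd ℚ V V)
        (LinearMap.fst ℚ V V - LinearMap.snd ℚ V V)) ?_ ?_ S hS ?_ ?_ ?_ hexr
      · intro z
        ext <;> simp <;> module
      · intro z
        ext <;> simp <;> module
      · intro z
        rw [tw_mem hvS, dblx_v, dblx_v]
        ext <;> simp [hPr] <;> module
      · intro z
        rw [tw_notMem hwS, dblx_w hvw, dblx_w hvw]
        ext <;> simp [hPr] <;> module
      · intro x hx1 hx2 z
        rw [hrx x hx1]
        ext <;> simp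
  · by_cases hwS : w ∈ S
    · refine dblx_tw (LinearMap.prod (LinearMap.fst ℚ V V - LinearMap.snd ℚ V V)
        (- LinearMap.fst ℚ V V - LinearMap.snd ℚ V V))
        ((1 / 2 : ℚ) • LinearMap.prod (LinearMap.fst ℚ V V - LinearMap.snd ℚ V V)
        (- LinearMap.fst ℚ V V - LinearMap.snd ℚ V V)) ?_ ?_ S hS ?_ ?_ ?_ hexr
      · intro z
        ext <;> simp <;> module
      · intro z
        ext <;> simp <;> module
      · intro z
        rw [tw_notMem hvS, dblx_v, dblx_v]
        ext <;> simp [hPr] <;> module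
      · intro z
        rw [tw_mem hwS, dblx_w hvw, dblx_w hvw]
        ext <;> simp [hPr] <;> module
      · intro x hx1 hx2 z
        rw [hrx x hx1]
        ext <;> simp
    · have : tw S (dbl s v w) = dbl s v w := by
        funext x
        unfold tw
        rw [if_neg]
        intro h3
        rcases hS h3 with h4 | h4
        · exact hvS (h4 ▸ h3)
        · exact hwS (h4 ▸ h3)
      rw [this]
      exact hex

end Pool.Agent.Helper51.CD
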