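import Pool.Agent.Helper51.CD.Euler

/-!
# CD5, relative form (helper16's proof)
-/

open Finset

namespace Pool.Agent.Helper51.CD

variable {X : Type} [LinearOrder X]
variable {V : Type} [AddCommGroup V] [Module ℚ V]
variable {F F1 : Set (Finset X)} {s : X → Module.End ℚ V} {d : ℤ}

/-- The identification of the cochains of degree `j`. -/
noncomputable def eurEquiv [Fintype X] (F : Set (Finset X)) (s : X → Module.End ℚ V) (j : ℕ)
    (K : Finset (Finset X)) (hK : ∀ τ, τ ∈ K ↔ τ ∈ F) :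
    CC F s (j : ℤ) ≃ₗ[ℚ]
      (∀ t : {t // t ∈ K.filter (fun t => t.card = j)}, eulFx s t.1) where
  toFun c := fun t => ⟨c.1 t.1, fun x hx => c.2.2.2 t.1 x hx⟩
  map_add' := by intro a b; rfl
  map_smul' := by intro r a; rfl
  invFun f := ⟨fun τ => if h : τ ∈ K.filter (fun t => t.card = j) then (f ⟨τ, h⟩ : V) else 0, by
    refine ⟨fun τ h => ?_, fun τ h => ?_, fun τ x hx => ?_⟩
    · dsimp only
      rw [dif_neg]
      intro h1
      rw [mem_filter] at h1
      exact h ((hK τ).1 h1.1)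
    · dsimp only
      rw [dif_neg]
      intro h1
      rw [mem_filter] at h1
      exact h (by exact_mod_cast h1.2)
    · by_cases h : τ ∈ K.filter (fun t => t.card = j)
      · simp only [dif_pos h]
        exact (f ⟨τ, h⟩).2 x hx
      · simp only [dif_neg h]
        exact map_zero _⟩
  left_inv := by
    intro c
    apply Subtype.ext
    funext τ
    by_cases h : τ ∈ K.filter (fun t => t.card = j)
    · simp only [dif_pos h]
    · simp only [dif_neg h]
      rw [mem_filter, not_and_or] at h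
      rcases h with h | h
      · refine (c.2.1 τ ?_).symm
        rw [← hK]
        exact h
      · refine (c.2.2.1 τ ?_).symm
        exact_mod_cast h
  right_inv := by
    intro f
    funext t
    apply Subtype.ext
    simp only [dif_pos t.2]

theorem eur_finrank_CC [Fintype X] [FiniteDimensional ℚ V] (F : Set (Finset X))
    (s : X → Module.End ℚ V) (j : ℕ)
    (K : Finset (Finset X)) (hK : ∀ τ, τ ∈ K ↔ τ ∈ F) :
    Module.finrank ℚ (CC F s (j : ℤ)) =
      ∑ t ∈ K.filter (fun t => t.card = j), Module.finrank ℚ (eulFx s t) := by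
  rw [(eurEquiv F s j K hK).finrank_eq, Module.finrank_pi_fintype]
  exact Finset.sum_coe_sort (K.filter (fun t => t.card = j))
    (fun t => Module.finrank ℚ (eulFx s t))

theorem eur_one [Fintype X] [FiniteDimensional ℚ V] {F : Set (Finset X)}
    {s : X → Module.End ℚ V} (hok : Ok F s) (n : ℕ)
    (hex : ∀ (d : ℤ), d ≠ n → ExAt F s d) (K : Finset (Finset X))
    (hK : ∀ τ, τ ∈ K ↔ τ ∈ F) :
    0 ≤ (-1 : ℤ) ^ n * ∑ τ ∈ K, (-1 : ℤ) ^ τ.card * (Module.finrank ℚ (eulFx s τ) : ℤ) := by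
  have h1 := eul_sum (fun j => (Module.finrank ℚ (eulZ F s (j : ℤ)) : ℤ))
    (fun j => (Module.finrank ℚ (eulB F s (j : ℤ)) : ℤ))
    (fun j => (Module.finrank ℚ (CC F s (j : ℤ)) : ℤ)) n ?_ ?_ ?_ (n + Fintype.card X + 2)
    (by omega)
  · have hbM : Module.finrank ℚ (eulB F s ((n + Fintype.card X + 2 : ℕ) : ℤ)) = 0 := by
      have h2 : (((n + Fintype.card X + 2 : ℕ) : ℤ) - 1) = ((n + Fintype.card X + 1 : ℕ) : ℤ) := by
        push_cast; ring
      have h3 : eulB F s ((n + Fintype.card X + 2 : ℕ) : ℤ) = ⊥ := by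
        unfold eulB
        rw [h2, eul_CC_big F s (by omega), Submodule.map_bot]
      rw [h3, finrank_bot]
    have h3 : ∑ τ ∈ K, (-1 : ℤ) ^ τ.card * (Module.finrank ℚ (eulFx s τ) : ℤ) =
        ∑ j ∈ range (n + Fintype.card X + 2),
          (-1 : ℤ) ^ j * (Module.finrank ℚ (CC F s (j : ℤ)) : ℤ) := by
      rw [← Finset.sum_fiberwise_of_maps_to (s := K) (t := range (n + Fintype.card X + 2))
        (g := fun τ => τ.card)]
      · refine Finset.sum_congr rfl fun j _ => ?_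
        rw [eur_finrank_CC F s j K hK]
        push_cast
        rw [Finset.mul_sum]
        refine Finset.sum_congr rfl fun τ hτ => ?_
        rw [(mem_filter.1 hτ).2]
      · intro τ _
        rw [mem_range]
        have := Finset.card_le_univ τ
        omega
    rw [h3, h1]
    simp only [hbM]
    have h4 : ((-1 : ℤ) ^ n) * (-1) ^ n = 1 := by
      rw [← mul_pow]; simp
    have h5 : Module.finrank ℚ (eulB F s (n : ℤ)) ≤ Module.finrank ℚ (eulZ F s (n : ℤ)) :=
      Submodule.finrank_mono (eul_B_le_Z hok)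
    have h6 : (Module.finrank ℚ (eulB F s (n : ℤ)) : ℤ) ≤ Module.finrank ℚ (eulZ F s (n : ℤ)) := by
      exact_mod_cast h5
    have h7 : (-1 : ℤ) ^ n * ((-1) ^ n * ((Module.finrank ℚ (eulZ F s (n : ℤ)) : ℤ) -
        Module.finrank ℚ (eulB F s (n : ℤ))) - (-1) ^ (n + Fintype.card X + 2) * ((0 : ℕ) : ℤ)) =
        ((-1 : ℤ) ^ n * (-1) ^ n) * ((Module.finrank ℚ (eulZ F s (n : ℤ)) : ℤ) -
        Module.finrank ℚ (eulB F s (n : ℤ))) := by
      push_cast; ring
    rw [h7, h4]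
    linarith
  · intro j
    have h8 := eul_rank F s (j : ℤ)
    rw [h8]
    push_cast
    rfl
  · intro j hj
    have hj2 : (j : ℤ) ≠ n := by exact_mod_cast hj
    rw [le_antisymm (eul_Z_le_B (hex j hj2)) (eul_B_le_Z hok)]
  · have h2 : (((0 : ℕ) : ℤ) - 1) = -1 := by norm_num
    have h3 : eulB F s ((0 : ℕ) : ℤ) = ⊥ := by
      unfold eulB
      rw [h2, eul_CC_neg, Submodule.map_bot]
    rw [h3, finrank_bot]
    rfl

theorem euler_rel [Fintype X] [FiniteDimensional ℚ V] [Nontrivial V] {G : SimpleGraph X}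
    {F : Set (Finset X)} (hF : ∀ τ ∈ F, G.IsClique (τ : Set X))
    (hok : ∀ S : Set X, Ok F (tw S s)) (hs : IsSys G s) (n : ℕ)
    (hex : ∀ (S : Set X) (d : ℤ), d ≠ n → ExAt F (tw S s) d) (K : Finset (Finset X))
    (hK : ∀ τ, τ ∈ K ↔ τ ∈ F) :
    0 ≤ (-1 : ℚ) ^ n * ∑ τ ∈ K, (-1 / 2 : ℚ) ^ τ.card := by
  have h1 : 0 ≤ ∑ S : Finset X, (-1 : ℤ) ^ n * ∑ τ ∈ K, (-1 : ℤ) ^ τ.card *
      (Module.finrank ℚ (eulFx (tw (S : Set X) s) τ) : ℤ) :=
    Finset.sum_nonneg fun S _ => eur_one (hok (S : Set X)) n (hex (S : Set X)) K hK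
  have h2 : ∑ S : Finset X, (-1 : ℤ) ^ n * ∑ τ ∈ K, (-1 : ℤ) ^ τ.card *
      (Module.finrank ℚ (eulFx (tw (S : Set X) s) τ) : ℤ) =
      (-1 : ℤ) ^ n * ∑ τ ∈ K, (-1 : ℤ) ^ τ.card *
        ((∑ S : Finset X, Module.finrank ℚ (eulFx (tw (S : Set X) s) τ) : ℕ) : ℤ) := by
    rw [← Finset.mul_sum, Finset.sum_comm]
    congr 1
    refine Finset.sum_congr rfl fun τ _ => ?_
    rw [← Finset.mul_sum]
    push_cast
    rfl
  rw [h2] at h1
  have h3 : (((-1 : ℤ) ^ n * ∑ τ ∈ K, (-1 : ℤ) ^ τ.card *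
        ((∑ S : Finset X, Module.finrank ℚ (eulFx (tw (S : Set X) s) τ) : ℕ) : ℤ) : ℤ) : ℚ) =
      (2 ^ Fintype.card X * Module.finrank ℚ V : ℚ) *
        ((-1 : ℚ) ^ n * ∑ τ ∈ K, (-1 / 2 : ℚ) ^ τ.card) := by
    push_cast
    rw [mul_left_comm]
    congr 1
    rw [Finset.mul_sum]
    refine Finset.sum_congr rfl fun τ hτ => ?_
    have h4 := eul_sumS hs τ (hF τ ((hK τ).1 hτ))
    have h5 : (2 : ℚ) ^ τ.card * ∑ S : Finset X,
        (Module.finrank ℚ (eulFx (tw (S : Set X) s) τ) : ℚ) =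
        2 ^ Fintype.card X * Module.finrank ℚ V := by exact_mod_cast h4
    rw [← h5, div_pow]
    have h6 : (2 : ℚ) ^ τ.card ≠ 0 := by positivity
    field_simp
  have h4 : (0 : ℚ) < 2 ^ Fintype.card X * Module.finrank ℚ V := by
    have : 0 < Module.finrank ℚ V := Module.finrank_pos
    positivity
  have h5 : (0 : ℚ) ≤ (2 ^ Fintype.card X * Module.finrank ℚ V : ℚ) *
        ((-1 : ℚ) ^ n * ∑ τ ∈ K, (-1 / 2 : ℚ) ^ τ.card) := by
    rw [← h3]
    exact_mod_cast h1
  exact nonneg_of_mul_nonneg_right h5 h4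

end Pool.Agent.Helper51.CD
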