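import Pool.Agent.Helper51.CD.Poly
import Pool.Agent.Helper51.CD.Contr

/-!
# CD10: families

restrict: new family: s t x for x in A, 1 otherwise (ex_congr for the goodness; the families
fam G ∅ A and fam G' ∅ A are equal; tw S of the restricted system agrees with tw S s on A).
Commutation for G'-adjacent pairs: both in A: G-adjacent; otherwise one of them is 1.

pair: V = Fin 2 → ℚ (or ℚ × ℚ), x acts as diag(1, -1), y as the involution
R t = [[1 - t^2, t], [t (2 - t^2), -(1 - t^2)]], all other vertices as 1. R 0 = diag(1, -1),
R 1 = [[0, 1], [1, 0]]. x and y are not adjacent, so there is nothing to check for commutation.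
Good at 1 on {x, y}: the members of fam are ∅, {x}, {y}. For all four choices of signs the fixed
lines of x and y are different and the map u to (P_x u, P_y u) is bijective onto the product of
the fixed lines: a cocycle in degree 0 is c ∅ = u with P_x u = P_y u = 0, so u = 0; degree 1:
c {x}, c {y} in the fixed lines, solve P_x u = c {x}, P_y u = c {y}; other degrees: no cochains.

contr: F : PFam (contr G v w) good at 1 on A.erase w and nbr2 G A v w (for contr G v w). First
replace s by the restriction... (not needed: Good (contr G v w) on nbr2 G A v w is the same as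
Good G on nbr2 G A v w, since v is not in nbr2). New family on F.V × F.V: x not v, w: prodMap (s t x)
(s t x); with P = Pr (s t) v, N = 1 - P, a = 1 - t^2, b = t, e = t (2 - t^2) (a^2 + b e = 1):
v: (p, q) to (a P p - b P q + N p, - e P p - a P q - N q)
w: (p, q) to (a P p - b P q - N p, - e P p - a P q + N q).
At t = 1 this is dbl (s 1) v w; at t = 0: v acts as (p, q) to (p, -q), w as
(p, q) to (s 0 v p, - s 0 v q): diagonal in the basis (b i, 0), (0, b i) (Basis.prod). Involutions,
commuting for G-adjacent pairs (G-adjacent to v or w implies contr-adjacent to v or equal v).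
good_dbl gives the goodness on A.
-/

open Finset

namespace Pool.Agent.Helper51.CD

variable {X : Type} [LinearOrder X]
variable {V : Type} [AddCommGroup V] [Module ℚ V]
variable {F F1 : Set (Finset X)} {s : X → Module.End ℚ V} {d : ℤ}

theorem HasGood.restrict [Fintype X] {G G' : SimpleGraph X} {A : Finset X}
    (h : HasGood G {A}) (hG : ∀ x ∈ A, ∀ y ∈ A, G.Adj x y ↔ G'.Adj x y) :
    HasGood G' {A} := by sorry

theorem hasGood_pair [Fintype X] (G : SimpleGraph X) (x y : X) (hxy : x ≠ y)
    (h : ¬ G.Adj x y) : HasGood G {{x, y}} := by sorry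

theorem HasGood.contr [Fintype X] {G : SimpleGraph X} {A : Finset X} {v w : X}
    (hv : v ∈ A) (hw : w ∈ A) (hvw : G.Adj v w)
    (h4 : ∀ x ∈ A, ∀ y ∈ A, x ≠ v → y ≠ w → G.Adj v y → G.Adj y x → G.Adj x w →
      G.Adj v x ∨ G.Adj y w)
    (h1 : HasGood (CD.contr G v w) {A.erase w, nbr2 G A v w}) : HasGood G {A} := by sorry

end Pool.Agent.Helper51.CD
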