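import Pool.Agent.Helper51.CD.Poly
import Pool.Agent.Helper51.CD.ContrK

/-!
# CDK3: families, simplicial complexes

Version of Fams.lean (task CD10) for complexes: fam G ∅ A is replaced by K.
restrict: s t x for the vertices x of K (members of some face), 1 otherwise.
pair: the complex {∅, {x}, {y}}. contr: as in Fams.lean with good_dblK.
-/

open Finset

namespace Pool.Agent.Helper51.CD

variable {X : Type} [LinearOrder X]
variable {V : Type} [AddCommGroup V] [Module ℚ V]
variable {F F1 : Set (Finset X)} {s : X → Module.End ℚ V} {d : ℤ}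

/-! ### restriction -/

open scoped Classical in
/-- The family with the vertices outside `K` acting trivially. -/
noncomputable def famsK_restr {G G' : SimpleGraph X} (K : Set (Finset X)) (F : PFam G)
    (hG : ∀ τ ∈ K, ∀ x ∈ τ, ∀ ρ ∈ K, ∀ y ∈ ρ, G'.Adj x y → G.Adj x y) : PFam G' where
  V := F.V
  s := fun t x => if ∃ τ ∈ K, x ∈ τ then F.s t x else 1
  ι := F.ι
  b := F.b
  sys := by
    intro t
    refine ⟨fun x => ?_, fun x y hxy => ?_⟩
    · by_cases hx : ∃ τ ∈ K, x ∈ τ
      · rw [if_pos hx, (F.sys t).inv]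
      · rw [if_neg hx, mul_one]
    · by_cases hx : ∃ τ ∈ K, x ∈ τ
      · by_cases hy : ∃ τ ∈ K, y ∈ τ
        · rw [if_pos hx, if_pos hy]
          obtain ⟨τ, hτ, hx⟩ := hx
          obtain ⟨ρ, hρ, hy⟩ := hy
          exact (F.sys t).comm x y (hG τ hτ x hx ρ hρ y hy hxy)
        · rw [if_neg hy, mul_one, one_mul]
      · rw [if_neg hx, mul_one, one_mul]
  poly := by
    intro x
    by_cases hx : ∃ τ ∈ K, x ∈ τ
    · simp only [if_pos hx]
      exact F.poly x
    · simp only [if_neg hx]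
      exact IsPoly.const 1
  diag := by
    intro x i
    by_cases hx : ∃ τ ∈ K, x ∈ τ
    · rw [if_pos hx]
      exact F.diag x i
    · rw [if_neg hx]
      exact Or.inl rfl

theorem HasK.restrict [Fintype X] {G G' : SimpleGraph X} {K : Set (Finset X)}
    (h : HasK G {K}) (hG : ∀ τ ∈ K, ∀ x ∈ τ, ∀ ρ ∈ K, ∀ y ∈ ρ, G'.Adj x y → G.Adj x y) :
    HasK G' {K} := by
  obtain ⟨F, hF⟩ := h
  refine ⟨famsK_restr K F hG, fun K' hK' => ?_⟩
  rw [Set.mem_singleton_iff] at hK'
  subst hK'
  intro S d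
  refine ex_congr (s := tw S (F.s 1)) ?_ (hF K' rfl S d)
  intro τ hτ x hx
  have h1 : (famsK_restr K' F hG).s 1 x = F.s 1 x := if_pos ⟨τ, hτ, hx⟩
  unfold tw
  rw [h1]
  rfl

/-! ### pairs -/

/-- The diagonal involution of `ℚ × ℚ`. -/
noncomputable def famsK_A : Module.End ℚ (ℚ × ℚ) :=
  LinearMap.prod (LinearMap.fst ℚ ℚ ℚ) (- LinearMap.snd ℚ ℚ ℚ)

/-- The family of involutions of `ℚ × ℚ` from the diagonal one to the exchange. -/
noncomputable def famsK_R (t : ℚ) : Module.End ℚ (ℚ × ℚ) :=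
  LinearMap.prod ((1 - t ^ 2) • LinearMap.fst ℚ ℚ ℚ + t • LinearMap.snd ℚ ℚ ℚ)
    ((t * (2 - t ^ 2)) • LinearMap.fst ℚ ℚ ℚ - (1 - t ^ 2) • LinearMap.snd ℚ ℚ ℚ)

theorem famsK_A_apply (p q : ℚ) : famsK_A (p, q) = (p, -q) := rfl

theorem famsK_R_apply (t p q : ℚ) : famsK_R t (p, q) =
    ((1 - t ^ 2) * p + t * q, t * (2 - t ^ 2) * p - (1 - t ^ 2) * q) := rfl

theorem famsK_A_sq : famsK_A * famsK_A = 1 := by
  refine LinearMap.ext fun ⟨p, q⟩ => ?_
  rw [Module.End.mul_apply, famsK_A_apply, famsK_A_apply, neg_neg, Module.End.one_apply]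

theorem famsK_R_sq (t : ℚ) : famsK_R t * famsK_R t = 1 := by
  refine LinearMap.ext fun ⟨p, q⟩ => ?_
  rw [Module.End.mul_apply, famsK_R_apply, famsK_R_apply, Module.End.one_apply]
  refine Prod.ext ?_ ?_
  · show _ = p
    simp only
    ring
  · show _ = q
    simp only
    ring

theorem famsK_smul_poly {M : Type} [AddCommGroup M] [Module ℚ M] (p : Polynomial ℚ) {f : ℚ → M}
    (hf : IsPoly f) : IsPoly (fun t => p.eval t • f t) :=
  IsPoly.bilin (LinearMap.lsmul ℚ M) (IsPoly.eval p) hf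

theorem famsK_R_poly : IsPoly famsK_R := by
  have h : famsK_R = fun t =>
      (1 - Polynomial.X ^ 2 : Polynomial ℚ).eval t •
        (LinearMap.inl ℚ ℚ ℚ ∘ₗ LinearMap.fst ℚ ℚ ℚ - LinearMap.inr ℚ ℚ ℚ ∘ₗ LinearMap.snd ℚ ℚ ℚ) +
      ((Polynomial.X : Polynomial ℚ).eval t • (LinearMap.inl ℚ ℚ ℚ ∘ₗ LinearMap.snd ℚ ℚ ℚ) +
      (Polynomial.X * (2 - Polynomial.X ^ 2) : Polynomial ℚ).eval t •
        (LinearMap.inr ℚ ℚ ℚ ∘ₗ LinearMap.fst ℚ ℚ ℚ)) := by
    funext t
    refine LinearMap.ext fun ⟨p, q⟩ => ?_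
    rw [famsK_R_apply]
    refine Prod.ext ?_ ?_
    · simp
    · simp
      ring
  rw [h]
  exact (famsK_smul_poly _ (IsPoly.const _)).add
    ((famsK_smul_poly _ (IsPoly.const _)).add (famsK_smul_poly _ (IsPoly.const _)))

open scoped Classical in
/-- The family for a pair of points. -/
noncomputable def famsK_pair (G : SimpleGraph X) (x y : X) (h : ¬ G.Adj x y) : PFam G where
  V := ℚ × ℚ
  s := fun t z => if z = x then famsK_A else if z = y then famsK_R t else 1
  ι := Fin 2
  b := Module.Basis.finTwoProd ℚ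
  sys := by
    intro t
    refine ⟨fun z => ?_, fun z z' hzz => ?_⟩
    · split_ifs
      · exact famsK_A_sq
      · exact famsK_R_sq t
      · exact mul_one 1
    · split_ifs with h1 h2 h3 h4 h5 h6 h7
      · rfl
      · exact absurd (by rw [← h1, ← h3]; exact hzz) h
      · rw [mul_one, one_mul]
      · exact absurd (by rw [← h5, ← h4]; exact hzz.symm) h
      · rfl
      · rw [mul_one, one_mul]
      · rw [mul_one, one_mul]
      · rw [mul_one, one_mul]
      · rfl
  poly := by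
    intro z
    split_ifs
    · exact IsPoly.const _
    · exact famsK_R_poly
    · exact IsPoly.const _
  diag := by
    intro z i
    split_ifs
    · fin_cases i
      · left
        simp [famsK_A_apply]
      · right
        simp [famsK_A_apply]
    · fin_cases i
      · left
        simp [famsK_R_apply]
      · right
        simp [famsK_R_apply]
    · exact Or.inl rfl

theorem famsK_sg_single (x : X) : sg x {x} = 1 := by
  have h : ({x} : Finset X).filter (fun y => y < x) = ∅ := by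
    rw [Finset.filter_eq_empty_iff]
    intro y hy
    rw [Finset.mem_singleton] at hy
    rw [hy]
    exact lt_irrefl x
  unfold sg
  rw [h, Finset.card_empty, pow_zero]

/-- Exactness for a pair of points from solvability. -/
theorem famsK_pair_ex {x y : X} (hxy : x ≠ y)
    (h1 : ∀ u, Pr s x u = 0 → Pr s y u = 0 → u = 0)
    (h2 : ∀ a b, s x a = a → s y b = b → ∃ u, Pr s x u = a ∧ Pr s y u = b) :
    ExAt ({∅, {x}, {y}} : Set (Finset X)) s d := by
  classical
  intro c hc hD
  rw [mem_CC] at hc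
  obtain ⟨hF, hd, hfix⟩ := hc
  have mx : ({x} : Finset X) ∈ ({∅, {x}, {y}} : Set (Finset X)) := by simp
  have my : ({y} : Finset X) ∈ ({∅, {x}, {y}} : Set (Finset X)) := by simp
  have m0 : (∅ : Finset X) ∈ ({∅, {x}, {y}} : Set (Finset X)) := by simp
  have key : ∀ (b : Finset X → V) (z : X), ({z} : Finset X) ∈ ({∅, {x}, {y}} : Set (Finset X)) →
      Di ({∅, {x}, {y}} : Set (Finset X)) s b {z} = Pr s z (b ∅) := by
    intro b z hz
    rw [Di_of_mem s b hz, Finset.sum_singleton, famsK_sg_single, one_smul]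
    simp
  have key0 : ∀ (b : Finset X → V),
      Di ({∅, {x}, {y}} : Set (Finset X)) s b ∅ = 0 := by
    intro b
    rw [Di_of_mem s b m0, Finset.sum_empty]
  by_cases h0 : d = 1
  · subst h0
    obtain ⟨u, hu1, hu2⟩ := h2 (c {x}) (c {y}) (hfix _ x (mem_singleton_self x))
      (hfix _ y (mem_singleton_self y))
    refine ⟨Pi.single ∅ u, ?_, ?_⟩
    · rw [mem_CC]
      refine ⟨fun τ hτ => ?_, fun τ hτ => ?_, fun τ z hz => ?_⟩
      · rw [Pi.single_apply, if_neg]
        rintro rfl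
        exact hτ m0
      · rw [Pi.single_apply, if_neg]
        rintro rfl
        exact hτ (by simp)
      · rw [Pi.single_apply, if_neg, map_zero]
        rintro rfl
        exact absurd hz (Finset.notMem_empty z)
    · funext τ
      by_cases hτ : τ ∈ ({∅, {x}, {y}} : Set (Finset X))
      · simp only [Set.mem_insert_iff, Set.mem_singleton_iff] at hτ
        rcases hτ with rfl | rfl | rfl
        · rw [key0, hd ∅ (by simp)]
        · rw [key _ x mx, Pi.single_eq_same, hu1]
        · rw [key _ y my, Pi.single_eq_same, hu2]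
      · rw [Di_of_notMem s _ hτ, hF τ hτ]
  · have hz : ∀ z, c {z} = 0 := fun z => hd _ (by
      rw [Finset.card_singleton]
      exact fun h => h0 h.symm)
    have he : c ∅ = 0 := by
      refine h1 _ ?_ ?_
      · rw [← key c x mx, hD]
        rfl
      · rw [← key c y my, hD]
        rfl
    have hc0 : c = 0 := by
      funext τ
      by_cases hτ : τ ∈ ({∅, {x}, {y}} : Set (Finset X))
      · simp only [Set.mem_insert_iff, Set.mem_singleton_iff] at hτ
        rcases hτ with rfl | rfl | rfl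
        · exact he
        · exact hz x
        · exact hz y
      · exact hF τ hτ
    refine ⟨0, Submodule.zero_mem _, ?_⟩
    rw [hc0, map_zero]

theorem famsK_pair_good {t : X → Module.End ℚ (ℚ × ℚ)} {x y : X} (hxy : x ≠ y)
    (hx : t x = famsK_A) (hy : t y = famsK_R 1) :
    GoodK ({∅, {x}, {y}} : Set (Finset X)) t := by
  intro S d
  have hx' : (∀ p q : ℚ, tw S t x (p, q) = (p, -q)) ∨
      (∀ p q : ℚ, tw S t x (p, q) = (-p, q)) := by
    unfold tw
    split_ifs
    · right
      intro p q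
      rw [hx, LinearMap.neg_apply, famsK_A_apply]
      simp
    · left
      intro p q
      rw [hx]
      rfl
  have hy' : (∀ p q : ℚ, tw S t y (p, q) = (q, p)) ∨
      (∀ p q : ℚ, tw S t y (p, q) = (-q, -p)) := by
    unfold tw
    split_ifs
    · right
      intro p q
      rw [hy, LinearMap.neg_apply, famsK_R_apply]
      refine Prod.ext ?_ ?_
      · show -_ = -q
        ring
      · show -_ = -p
        ring
    · left
      intro p q
      rw [hy, famsK_R_apply]
      refine Prod.ext ?_ ?_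
      · show _ = q
        ring
      · show _ = p
        ring
  refine famsK_pair_ex hxy ?_ ?_
  · rintro ⟨p, q⟩ h1 h2
    rw [Pr_apply] at h1 h2
    rcases hx' with hx' | hx' <;> rcases hy' with hy' | hy' <;> rw [hx'] at h1 <;>
      rw [hy'] at h2 <;> simp only [Prod.mk_add_mk, Prod.smul_mk, Prod.mk_eq_zero, smul_eq_mul]
        at h1 h2 <;> refine Prod.ext ?_ ?_ <;> simp only [Prod.fst_zero, Prod.snd_zero] <;>
      linarith [h1.1, h1.2, h2.1, h2.2]
  · rintro ⟨a1, a2⟩ ⟨b1, b2⟩ h1 h2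
    rcases hx' with hx' | hx' <;> rcases hy' with hy' | hy' <;> rw [hx'] at h1 <;>
      rw [hy'] at h2 <;> simp only [Prod.mk.injEq] at h1 h2
    · refine ⟨(a1, 2 * b1 - a1), ?_, ?_⟩
      · rw [Pr_apply, hx']
        simp only [Prod.mk_add_mk, Prod.smul_mk, smul_eq_mul, Prod.mk.injEq]
        constructor <;> linarith [h1.1, h1.2, h2.1, h2.2]
      · rw [Pr_apply, hy']
        simp only [Prod.mk_add_mk, Prod.smul_mk, smul_eq_mul, Prod.mk.injEq]
        constructor <;> linarith [h1.1, h1.2, h2.1, h2.2]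
    · refine ⟨(a1, a1 - 2 * b1), ?_, ?_⟩
      · rw [Pr_apply, hx']
        simp only [Prod.mk_add_mk, Prod.smul_mk, smul_eq_mul, Prod.mk.injEq]
        constructor <;> linarith [h1.1, h1.2, h2.1, h2.2]
      · rw [Pr_apply, hy']
        simp only [Prod.mk_add_mk, Prod.smul_mk, smul_eq_mul, Prod.mk.injEq]
        constructor <;> linarith [h1.1, h1.2, h2.1, h2.2]
    · refine ⟨(2 * b1 - a2, a2), ?_, ?_⟩
      · rw [Pr_apply, hx']
        simp only [Prod.mk_add_mk, Prod.smul_mk, smul_eq_mul, Prod.mk.injEq]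
        constructor <;> linarith [h1.1, h1.2, h2.1, h2.2]
      · rw [Pr_apply, hy']
        simp only [Prod.mk_add_mk, Prod.smul_mk, smul_eq_mul, Prod.mk.injEq]
        constructor <;> linarith [h1.1, h1.2, h2.1, h2.2]
    · refine ⟨(2 * b1 + a2, a2), ?_, ?_⟩
      · rw [Pr_apply, hx']
        simp only [Prod.mk_add_mk, Prod.smul_mk, smul_eq_mul, Prod.mk.injEq]
        constructor <;> linarith [h1.1, h1.2, h2.1, h2.2]
      · rw [Pr_apply, hy']
        simp only [Prod.mk_add_mk, Prod.smul_mk, smul_eq_mul, Prod.mk.injEq]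
        constructor <;> linarith [h1.1, h1.2, h2.1, h2.2]

theorem hasK_pair [Fintype X] (G : SimpleGraph X) (x y : X) (hxy : x ≠ y)
    (h : ¬ G.Adj x y) : HasK G {{∅, {x}, {y}}} := by
  refine ⟨famsK_pair G x y h, fun K hK => ?_⟩
  rw [Set.mem_singleton_iff] at hK
  subst hK
  have hx : (famsK_pair G x y h).s 1 x = famsK_A := if_pos rfl
  have hy : (famsK_pair G x y h).s 1 y = famsK_R 1 :=
    (if_neg fun e => hxy e.symm).trans (if_pos rfl)
  exact famsK_pair_good (t := (famsK_pair G x y h).s 1) hxy hx hy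

/-! ### contraction -/

/-- The involutions of `V × V` of the contraction family: `P` a projection. -/
noncomputable def famsK_Q (P : Module.End ℚ V) (a b e n : ℚ) : Module.End ℚ (V × V) :=
  LinearMap.prod
    (a • (P ∘ₗ LinearMap.fst ℚ V V) - b • (P ∘ₗ LinearMap.snd ℚ V V) +
      n • (LinearMap.fst ℚ V V - P ∘ₗ LinearMap.fst ℚ V V))
    (- (e • (P ∘ₗ LinearMap.fst ℚ V V)) - a • (P ∘ₗ LinearMap.snd ℚ V V) -
      n • (LinearMap.snd ℚ V V - P ∘ₗ LinearMap.snd ℚ V V))

theorem famsK_Q_apply (P : Module.End ℚ V) (a b e n : ℚ) (p q : V) :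
    famsK_Q P a b e n (p, q) = (a • P p - b • P q + n • (p - P p),
      - (e • P p) - a • P q - n • (q - P q)) := rfl

theorem famsK_Q_mul {P : Module.End ℚ V} (hP : ∀ u, P (P u) = P u) {a b e : ℚ}
    (h : a * a + b * e = 1) (n m : ℚ) (p q : V) :
    (famsK_Q P a b e n * famsK_Q P a b e m) (p, q) =
      (P p + (n * m) • (p - P p), P q + (n * m) • (q - P q)) := by
  have hp : P (a • P p - b • P q + m • (p - P p)) = a • P p - b • P q := by
    simp only [map_add, map_sub, map_smul, hP, sub_self, smul_zero, add_zero]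
  have hq : P (- (e • P p) - a • P q - m • (q - P q)) = - (e • P p) - a • P q := by
    simp only [map_neg, map_sub, map_smul, hP, sub_self, smul_zero, sub_zero]
  rw [Module.End.mul_apply, famsK_Q_apply, famsK_Q_apply, hp, hq]
  refine Prod.ext ?_ ?_
  · show a • (a • P p - b • P q) - b • (- (e • P p) - a • P q) +
      n • (a • P p - b • P q + m • (p - P p) - (a • P p - b • P q)) = P p + (n * m) • (p - P p)
    have hk : a • (a • P p - b • P q) - b • (- (e • P p) - a • P q) +
        n • (a • P p - b • P q + m • (p - P p) - (a • P p - b • P q)) =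
        (a * a + b * e) • P p + (n * m) • (p - P p) := by
      module
    rw [hk, h, one_smul]
  · show - (e • (a • P p - b • P q)) - a • (- (e • P p) - a • P q) -
      n • (- (e • P p) - a • P q - m • (q - P q) - (- (e • P p) - a • P q)) =
      P q + (n * m) • (q - P q)
    have hk : - (e • (a • P p - b • P q)) - a • (- (e • P p) - a • P q) -
        n • (- (e • P p) - a • P q - m • (q - P q) - (- (e • P p) - a • P q)) =
        (a * a + b * e) • P q + (n * m) • (q - P q) := by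
      module
    rw [hk, h, one_smul]

theorem famsK_Q_sq {P : Module.End ℚ V} (hP : ∀ u, P (P u) = P u) {a b e n : ℚ}
    (h : a * a + b * e = 1) (hn : n * n = 1) :
    famsK_Q P a b e n * famsK_Q P a b e n = 1 := by
  refine LinearMap.ext fun ⟨p, q⟩ => ?_
  rw [famsK_Q_mul hP h, hn, one_smul, one_smul, add_sub_cancel, add_sub_cancel,
    Module.End.one_apply]

theorem famsK_Q_comm {P : Module.End ℚ V} (hP : ∀ u, P (P u) = P u) {a b e : ℚ}
    (h : a * a + b * e = 1) (n m : ℚ) :
    famsK_Q P a b e n * famsK_Q P a b e m = famsK_Q P a b e m * famsK_Q P a b e n := by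
  refine LinearMap.ext fun ⟨p, q⟩ => ?_
  rw [famsK_Q_mul hP h, famsK_Q_mul hP h, mul_comm n m]

theorem famsK_Q_map {P T : Module.End ℚ V} (hT : ∀ u, P (T u) = T (P u)) (a b e n : ℚ) :
    famsK_Q P a b e n * LinearMap.prodMap T T = LinearMap.prodMap T T * famsK_Q P a b e n := by
  refine LinearMap.ext fun ⟨p, q⟩ => ?_
  rw [Module.End.mul_apply, Module.End.mul_apply, LinearMap.prodMap_apply, famsK_Q_apply,
    famsK_Q_apply, LinearMap.prodMap_apply]
  simp only [hT, map_add, map_sub, map_neg, map_smul]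

theorem famsK_Q_poly {P : ℚ → Module.End ℚ V} (hP : IsPoly P) (n : ℚ) :
    IsPoly (fun t => famsK_Q (P t) (1 - t ^ 2) t (t * (2 - t ^ 2)) n) := by
  have c1 : IsPoly (fun t => LinearMap.inl ℚ V V ∘ₗ (P t ∘ₗ LinearMap.fst ℚ V V)) :=
    IsPoly.comp (IsPoly.const _) (IsPoly.comp hP (IsPoly.const _))
  have c2 : IsPoly (fun t => LinearMap.inl ℚ V V ∘ₗ (P t ∘ₗ LinearMap.snd ℚ V V)) :=
    IsPoly.comp (IsPoly.const _) (IsPoly.comp hP (IsPoly.const _))
  have c3 : IsPoly (fun t => LinearMap.inr ℚ V V ∘ₗ (P t ∘ₗ LinearMap.fst ℚ V V)) :=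
    IsPoly.comp (IsPoly.const _) (IsPoly.comp hP (IsPoly.const _))
  have c4 : IsPoly (fun t => LinearMap.inr ℚ V V ∘ₗ (P t ∘ₗ LinearMap.snd ℚ V V)) :=
    IsPoly.comp (IsPoly.const _) (IsPoly.comp hP (IsPoly.const _))
  have c5 : IsPoly (fun _ : ℚ => n • (LinearMap.inl ℚ V V ∘ₗ LinearMap.fst ℚ V V -
      LinearMap.inr ℚ V V ∘ₗ LinearMap.snd ℚ V V)) := IsPoly.const _
  have h : (fun t => famsK_Q (P t) (1 - t ^ 2) t (t * (2 - t ^ 2)) n) = fun t =>
      (1 - Polynomial.X ^ 2 - Polynomial.C n : Polynomial ℚ).eval t •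
        (LinearMap.inl ℚ V V ∘ₗ (P t ∘ₗ LinearMap.fst ℚ V V)) +
      ((- Polynomial.X : Polynomial ℚ).eval t •
        (LinearMap.inl ℚ V V ∘ₗ (P t ∘ₗ LinearMap.snd ℚ V V)) +
      ((- (Polynomial.X * (2 - Polynomial.X ^ 2)) : Polynomial ℚ).eval t •
        (LinearMap.inr ℚ V V ∘ₗ (P t ∘ₗ LinearMap.fst ℚ V V)) +
      ((Polynomial.C n - (1 - Polynomial.X ^ 2) : Polynomial ℚ).eval t •
        (LinearMap.inr ℚ V V ∘ₗ (P t ∘ₗ LinearMap.snd ℚ V V)) +
      n • (LinearMap.inl ℚ V V ∘ₗ LinearMap.fst ℚ V V -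
      LinearMap.inr ℚ V V ∘ₗ LinearMap.snd ℚ V V)))) := by
    funext t
    refine LinearMap.ext fun ⟨p, q⟩ => ?_
    rw [famsK_Q_apply]
    refine Prod.ext ?_ ?_
    · simp
      module
    · simp
      module
  rw [h]
  exact (famsK_smul_poly _ c1).add ((famsK_smul_poly _ c2).add ((famsK_smul_poly _ c3).add
    ((famsK_smul_poly _ c4).add c5)))

theorem famsK_Q_diag {P : Module.End ℚ V} {u : V} (hu : P u = u ∨ P u = 0) {n : ℚ}
    (hn : n = 1 ∨ n = -1) :
    (famsK_Q P (1 - 0 ^ 2) 0 (0 * (2 - 0 ^ 2)) n (u, 0) = (u, 0) ∨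
      famsK_Q P (1 - 0 ^ 2) 0 (0 * (2 - 0 ^ 2)) n (u, 0) = - (u, 0)) ∧
    (famsK_Q P (1 - 0 ^ 2) 0 (0 * (2 - 0 ^ 2)) n (0, u) = (0, u) ∨
      famsK_Q P (1 - 0 ^ 2) 0 (0 * (2 - 0 ^ 2)) n (0, u) = - (0, u)) := by
  rw [famsK_Q_apply, famsK_Q_apply]
  rcases hu with hu | hu <;> rcases hn with rfl | rfl <;> simp [hu]

theorem famsK_Pr_poly {G : SimpleGraph X} (F : PFam G) (v : X) :
    IsPoly (fun t => Pr (F.s t) v) := by
  have h := IsPoly.map ((1 / 2 : ℚ) • LinearMap.id) ((IsPoly.const (1 : Module.End ℚ F.V)).add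
    (F.poly v))
  exact h

theorem famsK_Pr_diag {G : SimpleGraph X} (F : PFam G) (v : X) (i : F.ι) :
    Pr (F.s 0) v (F.b i) = F.b i ∨ Pr (F.s 0) v (F.b i) = 0 := by
  rcases F.diag v i with h | h
  · left
    exact Pr_of_fix h
  · right
    rw [Pr_apply, h, add_neg_cancel, smul_zero]

open scoped Classical in
/-- The contraction family. -/
noncomputable def famsK_contr {G : SimpleGraph X} {v w : X} (hvw : v ≠ w)
    (F : PFam (CD.contr G v w)) : PFam G where
  V := F.V × F.V
  s := fun t x =>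
    if x = v then famsK_Q (Pr (F.s t) v) (1 - t ^ 2) t (t * (2 - t ^ 2)) 1
    else if x = w then famsK_Q (Pr (F.s t) v) (1 - t ^ 2) t (t * (2 - t ^ 2)) (-1)
    else LinearMap.prodMap (F.s t x) (F.s t x)
  ι := F.ι ⊕ F.ι
  b := F.b.prod F.b
  sys := by
    intro t
    have hP : ∀ u, Pr (F.s t) v (Pr (F.s t) v u) = Pr (F.s t) v u := Pr_Pr ((F.sys t).inv v)
    have h1 : (1 - t ^ 2) * (1 - t ^ 2) + t * (t * (2 - t ^ 2)) = 1 := by ring
    have hT : ∀ y, (CD.contr G v w).Adj v y → ∀ u, Pr (F.s t) v (F.s t y u) =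
        F.s t y (Pr (F.s t) v u) := fun y hy u =>
      (s_Pr_comm ((F.sys t).comm v y hy).symm u).symm
    have a1 : ∀ y, y ≠ v → (G.Adj v y ∨ G.Adj w y) → (CD.contr G v w).Adj v y := by
      intro y hy h
      refine ⟨hy.symm, ?_⟩
      rcases h with h | h
      · exact Or.inl h
      · exact Or.inr (Or.inl ⟨rfl, h⟩)
    refine ⟨fun x => ?_, fun x y hxy => ?_⟩
    · split_ifs
      · exact famsK_Q_sq hP h1 (by norm_num)
      · exact famsK_Q_sq hP h1 (by norm_num)
      · refine LinearMap.ext fun ⟨p, q⟩ => ?_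
        have h := (F.sys t).inv x
        have h' : ∀ u, F.s t x (F.s t x u) = u := fun u => by
          rw [← Module.End.mul_apply, h, Module.End.one_apply]
        rw [Module.End.mul_apply, LinearMap.prodMap_apply, LinearMap.prodMap_apply, h', h',
          Module.End.one_apply]
    · split_ifs with hx1 hy1 hy2 hx2 hy3 hy4 hy5 hy6
      · rfl
      · exact famsK_Q_comm hP h1 _ _
      · exact famsK_Q_map (hT y (a1 y hy1 (Or.inl (by rw [← hx1]; exact hxy)))) _ _ _ _
      · exact famsK_Q_comm hP h1 _ _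
      · rfl
      · exact famsK_Q_map (hT y (a1 y hy3 (Or.inr (by rw [← hx2]; exact hxy)))) _ _ _ _
      · exact (famsK_Q_map (hT x (a1 x hx1 (Or.inl (by rw [← hy5]; exact hxy.symm)))) _ _ _ _).symm
      · exact (famsK_Q_map (hT x (a1 x hx1 (Or.inr (by rw [← hy6]; exact hxy.symm)))) _ _ _ _).symm
      · have h := (F.sys t).comm x y ⟨hxy.ne, Or.inl hxy⟩
        have h' : ∀ u, F.s t x (F.s t y u) = F.s t y (F.s t x u) := fun u => by
          rw [← Module.End.mul_apply, h, Module.End.mul_apply]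
        refine LinearMap.ext fun ⟨p, q⟩ => ?_
        rw [Module.End.mul_apply, Module.End.mul_apply, LinearMap.prodMap_apply,
          LinearMap.prodMap_apply, LinearMap.prodMap_apply, LinearMap.prodMap_apply, h', h']
  poly := by
    intro x
    split_ifs
    · exact famsK_Q_poly (famsK_Pr_poly F v) 1
    · exact famsK_Q_poly (famsK_Pr_poly F v) (-1)
    · have h : (fun t => LinearMap.prodMap (F.s t x) (F.s t x)) = fun t =>
          LinearMap.inl ℚ F.V F.V ∘ₗ (F.s t x ∘ₗ LinearMap.fst ℚ F.V F.V) +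
          LinearMap.inr ℚ F.V F.V ∘ₗ (F.s t x ∘ₗ LinearMap.snd ℚ F.V F.V) := by
        funext t
        refine LinearMap.ext fun ⟨p, q⟩ => ?_
        simp
      rw [h]
      exact (IsPoly.comp (IsPoly.const _) (IsPoly.comp (F.poly x) (IsPoly.const _))).add
        (IsPoly.comp (IsPoly.const _) (IsPoly.comp (F.poly x) (IsPoly.const _)))
  diag := by
    intro x i
    rcases i with i | i
    · have hb : (F.b.prod F.b) (Sum.inl i) = (F.b i, 0) := by
        simp
      rw [hb]
      split_ifs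
      · exact (famsK_Q_diag (famsK_Pr_diag F v i) (Or.inl rfl)).1
      · exact (famsK_Q_diag (famsK_Pr_diag F v i) (Or.inr rfl)).1
      · rw [LinearMap.prodMap_apply, map_zero]
        rcases F.diag x i with h | h
        · left
          rw [h]
        · right
          rw [h, Prod.neg_mk, neg_zero]
    · have hb : (F.b.prod F.b) (Sum.inr i) = (0, F.b i) := by
        simp
      rw [hb]
      split_ifs
      · exact (famsK_Q_diag (famsK_Pr_diag F v i) (Or.inl rfl)).2
      · exact (famsK_Q_diag (famsK_Pr_diag F v i) (Or.inr rfl)).2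
      · rw [LinearMap.prodMap_apply, map_zero]
        rcases F.diag x i with h | h
        · left
          rw [h]
        · right
          rw [h, Prod.neg_mk, neg_zero]

theorem famsK_Q_one (P : Module.End ℚ V) :
    famsK_Q P (1 - 1 ^ 2) 1 (1 * (2 - 1 ^ 2)) 1 = LinearMap.prod
      ((1 - P) ∘ₗ LinearMap.fst ℚ V V - P ∘ₗ LinearMap.snd ℚ V V)
      (- (P ∘ₗ LinearMap.fst ℚ V V) - (1 - P) ∘ₗ LinearMap.snd ℚ V V) := by
  refine LinearMap.ext fun ⟨p, q⟩ => ?_
  rw [famsK_Q_apply]
  refine Prod.ext ?_ ?_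
  · show ((1 : ℚ) - 1 ^ 2) • P p - (1 : ℚ) • P q + (1 : ℚ) • (p - P p) = (p - P p) - P q
    module
  · show - (((1 : ℚ) * (2 - 1 ^ 2)) • P p) - ((1 : ℚ) - 1 ^ 2) • P q - (1 : ℚ) • (q - P q) =
      - (P p) - (q - P q)
    module

theorem famsK_Q_neg_one (P : Module.End ℚ V) :
    famsK_Q P (1 - 1 ^ 2) 1 (1 * (2 - 1 ^ 2)) (-1) = LinearMap.prod
      (- ((1 - P) ∘ₗ LinearMap.fst ℚ V V) - P ∘ₗ LinearMap.snd ℚ V V)
      (- (P ∘ₗ LinearMap.fst ℚ V V) + (1 - P) ∘ₗ LinearMap.snd ℚ V V) := by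
  refine LinearMap.ext fun ⟨p, q⟩ => ?_
  rw [famsK_Q_apply]
  refine Prod.ext ?_ ?_
  · show ((1 : ℚ) - 1 ^ 2) • P p - (1 : ℚ) • P q + (-1 : ℚ) • (p - P p) = - (p - P p) - P q
    module
  · show - (((1 : ℚ) * (2 - 1 ^ 2)) • P p) - ((1 : ℚ) - 1 ^ 2) • P q - (-1 : ℚ) • (q - P q) =
      - (P p) + (q - P q)
    module

theorem famsK_contr_one {G : SimpleGraph X} {v w : X} (hvw : v ≠ w)
    (F : PFam (CD.contr G v w)) : (famsK_contr hvw F).s 1 = dbl (F.s 1) v w := by
  funext x
  by_cases hx : x = v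
  · refine (if_pos hx).trans ((famsK_Q_one _).trans ?_)
    unfold dbl
    rw [if_pos hx]
  · by_cases hy : x = w
    · refine ((if_neg hx).trans (if_pos hy)).trans ((famsK_Q_neg_one _).trans ?_)
      unfold dbl
      rw [if_neg hx, if_pos hy]
    · refine ((if_neg hx).trans (if_neg hy)).trans ?_
      unfold dbl
      rw [if_neg hx, if_neg hy]

theorem HasK.contr [Fintype X] {G : SimpleGraph X} {K : Set (Finset X)} {v w : X}
    (hvw : v ≠ w) (hK : IsCx G K) (he : {v, w} ∈ K)
    (hl : ∀ τ : Finset X, v ∉ τ → w ∉ τ → insert v τ ∈ K → insert w τ ∈ K →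
        insert v (insert w τ) ∈ K)
    (h1 : HasK (CD.contr G v w) {ctrK K v w, lkK K v w}) : HasK G {K} := by
  obtain ⟨F, hF⟩ := h1
  refine ⟨famsK_contr hvw F, fun K' hK' => ?_⟩
  rw [Set.mem_singleton_iff] at hK'
  subst hK'
  have h := good_dblK (F.sys 1) hvw hK he hl (hF _ (Or.inl rfl)) (hF _ (Or.inr rfl))
  rw [← famsK_contr_one hvw F] at h
  exact h

end Pool.Agent.Helper51.CD
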