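import Pool.Agent.Helper51.CD.Poly
import Pool.Agent.Helper51.CD.Basic

/-!
# CD8b: exactness is generic

generic_ex, degree by degree. Let W = (Finset X → V), let gnE F s d : W to W be
(gnE c) T = (product over x in T of Pr s x, in increasing order) (c T) for T in F of size d,
0 otherwise. It is a projection onto CC F s d, by commutativity on the members of F. For t0 exactness
in degree d gives linear maps h, k with h c in CC (d - 1), k c in CC d and
Di (h c) + k (Di c) = c for c in CC d. Then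
U t = E_d Di E_(d-1) h E_d + E_d k E_(d+1) Di E_d + (1 - E_d) is polynomial in t and U t0 = 1, so
p = det U t is a polynomial with p(t0) = 1. Let p(t) be nonzero. U t is injective and maps the
cocycles of degree d to the space B of the coboundaries; B is finite-dimensional, so U t B = B and
every cocycle is in B.

generic_good: apply generic_ex to tw S (s t), F = fam G ∅ A for the finitely many S and A; product.
-/

open Finset

namespace Pool.Agent.Helper51.CD

variable {X : Type} [LinearOrder X]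
variable {V : Type} [AddCommGroup V] [Module ℚ V]
variable {F F1 : Set (Finset X)} {s : X → Module.End ℚ V} {d : ℤ}

/-- The product of the projections `Pr s x`, `x ∈ T`. -/
noncomputable def gnP (s : X → Module.End ℚ V) (l : List X) : Module.End ℚ V :=
  (l.map (Pr s)).prod

theorem gn_pr_fix {s : X → Module.End ℚ V} {x : X} {v : V} (h : s x v = v) : Pr s x v = v := by
  rw [Pr, LinearMap.smul_apply, LinearMap.add_apply, Module.End.one_apply, h, ← two_smul ℚ v,
    smul_smul]
  norm_num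

theorem gnP_fix {s : X → Module.End ℚ V} (l : List X) {v : V} (h : ∀ x ∈ l, s x v = v) :
    gnP s l v = v := by
  induction l with
  | nil => simp [gnP]
  | cons y l ih =>
    rw [gnP, List.map_cons, List.prod_cons, Module.End.mul_apply]
    have h1 : gnP s l v = v := ih (fun x hx => h x (List.mem_cons_of_mem _ hx))
    rw [gnP] at h1
    rw [h1]
    exact gn_pr_fix (h y List.mem_cons_self)

theorem gnP_mul {s : X → Module.End ℚ V} (l : List X) (hi : ∀ x, s x * s x = 1) {x : X}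
    (hx : x ∈ l) (hc : ∀ y ∈ l, s x * s y = s y * s x) : s x * gnP s l = gnP s l := by
  induction l with
  | nil => simp at hx
  | cons y l ih =>
    have e1 : gnP s (y :: l) = Pr s y * gnP s l := by
      rw [gnP, List.map_cons, List.prod_cons]; rfl
    rw [e1, ← mul_assoc]
    by_cases hxy : x = y
    · subst hxy
      congr 1
      rw [Pr, mul_smul_comm, mul_add, mul_one, hi, add_comm]
    · have hxl : x ∈ l := (List.mem_cons.1 hx).resolve_left hxy
      have e2 : s x * Pr s y = Pr s y * s x := by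
        rw [Pr, mul_smul_comm, smul_mul_assoc, mul_add, add_mul, mul_one, one_mul,
          hc y List.mem_cons_self]
      rw [e2, mul_assoc, ih hxl (fun z hz => hc z (List.mem_cons_of_mem _ hz))]

open scoped Classical in
/-- The projection onto `CC F s d`. -/
noncomputable def gnE (F : Set (Finset X)) (s : X → Module.End ℚ V) (d : ℤ) :
    (Finset X → V) →ₗ[ℚ] (Finset X → V) :=
  LinearMap.pi (fun τ => if τ ∈ F ∧ (τ.card : ℤ) = d then
    (gnP s (τ.sort (· ≤ ·))) ∘ₗ (LinearMap.proj τ) else 0)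

open scoped Classical in
theorem gnE_apply (F : Set (Finset X)) (s : X → Module.End ℚ V) (d : ℤ) (c : Finset X → V)
    (τ : Finset X) : gnE F s d c τ =
      if τ ∈ F ∧ (τ.card : ℤ) = d then gnP s (τ.sort (· ≤ ·)) (c τ) else 0 := by
  rw [gnE, LinearMap.pi_apply]
  split_ifs with h
  · rfl
  · rfl

theorem gnE_mem (h : Ok F s) (d : ℤ) (c : Finset X → V) : gnE F s d c ∈ CC F s d := by
  refine ⟨fun τ hτ => ?_, fun τ hτ => ?_, fun τ x hx => ?_⟩
  · rw [gnE_apply, if_neg (fun hh => hτ hh.1)]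
  · rw [gnE_apply, if_neg (fun hh => hτ hh.2)]
  · rw [gnE_apply]
    split_ifs with hh
    · have e := gnP_mul (s := s) (τ.sort (· ≤ ·)) h.inv (x := x)
        ((Finset.mem_sort _).2 hx)
        (fun y hy => h.comm τ hh.1 x hx y ((Finset.mem_sort _).1 hy))
      rw [← Module.End.mul_apply, e]
    · rw [map_zero]

theorem gnE_fix {c : Finset X → V} (hc : c ∈ CC F s d) : gnE F s d c = c := by
  funext τ
  rw [gnE_apply]
  split_ifs with hh
  · exact gnP_fix _ (fun x hx => hc.2.2 τ x ((Finset.mem_sort _).1 hx))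
  · by_cases h1 : τ ∈ F
    · exact (hc.2.1 τ (fun h2 => hh ⟨h1, h2⟩)).symm
    · exact (hc.1 τ h1).symm

theorem gn_isPoly_pi [Fintype X] {W : Type} [AddCommGroup W] [Module ℚ W]
    {f : ℚ → Finset X → (W →ₗ[ℚ] V)} (hf : ∀ τ, IsPoly (fun t => f t τ)) :
    IsPoly (fun t => LinearMap.pi (f t)) := by
  have e : (fun t => LinearMap.pi (f t)) = fun t => ∑ τ ∈ (univ : Finset (Finset X)),
      (LinearMap.single ℚ (fun _ : Finset X => V) τ) ∘ₗ f t τ := by
    funext t
    ext w ρ
    rw [LinearMap.pi_apply, LinearMap.sum_apply, Finset.sum_apply,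
      Finset.sum_eq_single ρ]
    · simp
    · intro τ _ hτ
      simp [hτ.symm]
    · intro hρ
      exact absurd (Finset.mem_univ _) hρ
  rw [e]
  exact IsPoly.sum _ (fun τ _ => IsPoly.comp (IsPoly.const _) (hf τ))

theorem gn_isPoly_smul {M : Type} [AddCommGroup M] [Module ℚ M] (a : ℚ) {f : ℚ → M}
    (hf : IsPoly f) : IsPoly (fun t => a • f t) :=
  IsPoly.map (a • LinearMap.id) hf

theorem gn_isPoly_Pr {s : ℚ → X → Module.End ℚ V} (hp : ∀ x, IsPoly (fun t => s t x)) (x : X) :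
    IsPoly (fun t => Pr (s t) x) := by
  unfold Pr
  exact gn_isPoly_smul _ (IsPoly.add (IsPoly.const 1) (hp x))

theorem gn_isPoly_P {s : ℚ → X → Module.End ℚ V} (hp : ∀ x, IsPoly (fun t => s t x))
    (l : List X) : IsPoly (fun t => gnP (s t) l) := by
  induction l with
  | nil =>
    have : (fun t => gnP (s t) ([] : List X)) = fun _ => (1 : Module.End ℚ V) := by
      funext t; simp [gnP]
    rw [this]
    exact IsPoly.const 1
  | cons y l ih =>
    have : (fun t => gnP (s t) (y :: l)) = fun t => Pr (s t) y * gnP (s t) l := by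
      funext t; rw [gnP, List.map_cons, List.prod_cons]; rfl
    rw [this]
    exact IsPoly.mul (gn_isPoly_Pr hp y) ih

theorem gn_isPoly_E [Fintype X] {s : ℚ → X → Module.End ℚ V}
    (hp : ∀ x, IsPoly (fun t => s t x)) (F : Set (Finset X)) (d : ℤ) :
    IsPoly (fun t => gnE F (s t) d) := by
  unfold gnE
  refine gn_isPoly_pi (fun τ => ?_)
  split_ifs with h
  · exact IsPoly.comp (gn_isPoly_P hp _) (IsPoly.const _)
  · exact IsPoly.const 0

theorem gn_isPoly_Di [Fintype X] {s : ℚ → X → Module.End ℚ V}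
    (hp : ∀ x, IsPoly (fun t => s t x)) (F : Set (Finset X)) :
    IsPoly (fun t => Di F (s t)) := by
  unfold Di
  refine gn_isPoly_pi (fun τ => ?_)
  split_ifs with h
  · exact IsPoly.sum _ (fun x _ => gn_isPoly_smul _
      (IsPoly.comp (gn_isPoly_Pr hp x) (IsPoly.const _)))
  · exact IsPoly.const 0

theorem gn_sec {W : Type} [AddCommGroup W] [Module ℚ W] (D : W →ₗ[ℚ] W) (C : Submodule ℚ W) :
    ∃ g : W →ₗ[ℚ] W, (∀ w, g w ∈ C) ∧ ∀ c ∈ C, D (g (D c)) = D c := by
  set D' := (D.domRestrict C).rangeRestrict with hD'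
  obtain ⟨g1, hg1⟩ := D'.exists_rightInverse_of_surjective (LinearMap.range_rangeRestrict _)
  obtain ⟨g2, hg2⟩ := LinearMap.exists_extend g1
  refine ⟨C.subtype ∘ₗ g2, fun w => (g2 w).2, fun c hc => ?_⟩
  have hmem : D c ∈ LinearMap.range (D.domRestrict C) := ⟨⟨c, hc⟩, rfl⟩
  have e1 : g2 (D c) = g1 ⟨D c, hmem⟩ := by
    rw [← hg2]; rfl
  have e2 : D' (g1 ⟨D c, hmem⟩) = ⟨D c, hmem⟩ := by
    have := LinearMap.congr_fun hg1 ⟨D c, hmem⟩
    simpa using this
  have e3 : D ((g1 ⟨D c, hmem⟩ : C) : W) = D c := congrArg Subtype.val e2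
  rw [LinearMap.comp_apply, Submodule.subtype_apply, e1, e3]

theorem gn_one [Fintype X] [FiniteDimensional ℚ V] {s : ℚ → X → Module.End ℚ V}
    (hp : ∀ x, IsPoly (fun t => s t x)) (h : ∀ t, Ok F (s t)) (t₀ : ℚ) (d : ℤ)
    (e : ExAt F (s t₀) d) :
    ∃ p : Polynomial ℚ, p ≠ 0 ∧ ∀ t, p.eval t ≠ 0 → ExAt F (s t) d := by
  obtain ⟨g, hg1, hg2⟩ := gn_sec (Di F (s t₀)) (CC F (s t₀) (d - 1))
  obtain ⟨k, hk1, hk2⟩ := gn_sec (Di F (s t₀)) (CC F (s t₀) d)
  set h1 : Module.End ℚ (Finset X → V) := g ∘ₗ (LinearMap.id - k ∘ₗ Di F (s t₀)) with hh1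
  have key : ∀ c ∈ CC F (s t₀) d, Di F (s t₀) (h1 c) = c - k (Di F (s t₀) c) := by
    intro c hc
    have hz : c - k (Di F (s t₀) c) ∈ CC F (s t₀) d := Submodule.sub_mem _ hc (hk1 _)
    have hz2 : Di F (s t₀) (c - k (Di F (s t₀) c)) = 0 := by
      rw [map_sub, hk2 c hc, sub_self]
    obtain ⟨b, hb, hbe⟩ := e _ hz hz2
    have : h1 c = g (c - k (Di F (s t₀) c)) := rfl
    rw [this, ← hbe, hg2 b hb]
  set U : ℚ → Module.End ℚ (Finset X → V) := fun t =>
    gnE F (s t) d * (Di F (s t) * (gnE F (s t) (d - 1) * (h1 * gnE F (s t) d))) +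
    gnE F (s t) d * (k * (gnE F (s t) (d + 1) * (Di F (s t) * gnE F (s t) d))) +
    (1 + (-1 : ℚ) • gnE F (s t) d) with hU
  have hUp : IsPoly U := by
    have hE := fun d => gn_isPoly_E hp F d
    have hD := gn_isPoly_Di hp F
    refine IsPoly.add (IsPoly.add ?_ ?_) ?_
    · exact IsPoly.mul (hE _) (IsPoly.mul hD (IsPoly.mul (hE _)
        (IsPoly.mul (IsPoly.const _) (hE _))))
    · exact IsPoly.mul (hE _) (IsPoly.mul (IsPoly.const _) (IsPoly.mul (hE _)
        (IsPoly.mul hD (hE _))))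
    · exact IsPoly.add (IsPoly.const _) (gn_isPoly_smul _ (hE _))
  have hUa : ∀ t w, U t w =
      gnE F (s t) d (Di F (s t) (gnE F (s t) (d - 1) (h1 (gnE F (s t) d w)))) +
      gnE F (s t) d (k (gnE F (s t) (d + 1) (Di F (s t) (gnE F (s t) d w)))) +
      (w - gnE F (s t) d w) := by
    intro t w
    simp only [hU, LinearMap.add_apply, Module.End.mul_apply, LinearMap.smul_apply,
      Module.End.one_apply, neg_smul, one_smul, sub_eq_add_neg]
  have hU0 : U t₀ = 1 := by
    refine LinearMap.ext fun w => ?_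
    rw [hUa, Module.End.one_apply]
    have hc : gnE F (s t₀) d w ∈ CC F (s t₀) d := gnE_mem (h t₀) d w
    set c := gnE F (s t₀) d w with hcdef
    have e1 : gnE F (s t₀) (d - 1) (h1 c) = h1 c := gnE_fix (hg1 _)
    have e2 : gnE F (s t₀) (d + 1) (Di F (s t₀) c) = Di F (s t₀) c :=
      gnE_fix (Di_mem (h t₀) hc)
    have e3 : gnE F (s t₀) d (c - k (Di F (s t₀) c)) = c - k (Di F (s t₀) c) :=
      gnE_fix (Submodule.sub_mem _ hc (hk1 _))
    have e4 : gnE F (s t₀) d (k (Di F (s t₀) c)) = k (Di F (s t₀) c) := gnE_fix (hk1 _)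
    rw [e1, key c hc, e2, e3, e4]
    abel
  obtain ⟨p, hpdet⟩ := IsPoly.det hUp
  refine ⟨p, ?_, ?_⟩
  · rintro rfl
    have := hpdet t₀
    rw [hU0, map_one, Polynomial.eval_zero] at this
    exact one_ne_zero this
  · intro t ht c hc hc0
    have hinj : Function.Injective (U t) := by
      have hu : IsUnit (LinearMap.det (U t)) := by
        rw [hpdet t]; exact isUnit_iff_ne_zero.2 ht
      have hu2 := (LinearMap.isUnit_iff_isUnit_det (U t)).2 hu
      exact ((Module.End.isUnit_iff _).1 hu2).1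
    have hcyc : ∀ z ∈ CC F (s t) d, Di F (s t) z = 0 →
        ∃ b ∈ CC F (s t) (d - 1), Di F (s t) b = U t z := by
      intro z hz hz0
      refine ⟨gnE F (s t) (d - 1) (h1 z), gnE_mem (h t) _ _, ?_⟩
      have e1 : gnE F (s t) d z = z := gnE_fix hz
      have e2 : Di F (s t) (gnE F (s t) (d - 1) (h1 z)) ∈ CC F (s t) d := by
        have := Di_mem (h t) (gnE_mem (h t) (d - 1) (h1 z))
        rwa [sub_add_cancel] at this
      rw [hUa, e1, hz0, map_zero, map_zero, map_zero, gnE_fix e2, sub_self, add_zero, add_zero]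
    set B : Submodule ℚ (Finset X → V) := (CC F (s t) (d - 1)).map (Di F (s t)) with hB
    have hBU : ∀ z ∈ B, U t z ∈ B := by
      rintro z ⟨b, hb, rfl⟩
      have hz : Di F (s t) b ∈ CC F (s t) d := by
        have := Di_mem (h t) hb
        rwa [sub_add_cancel] at this
      obtain ⟨b', hb', he'⟩ := hcyc _ hz (Di_Di (h t) hb)
      exact ⟨b', hb', he'⟩
    have hsurj : Function.Surjective ((U t).restrict hBU) := by
      rw [← LinearMap.injective_iff_surjective]
      intro x y hxy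
      apply Subtype.ext
      apply hinj
      exact congrArg Subtype.val hxy
    obtain ⟨b0, hb0, hbe0⟩ := hcyc c hc hc0
    obtain ⟨y, hy⟩ := hsurj ⟨U t c, ⟨b0, hb0, hbe0⟩⟩
    have hyc : (y : Finset X → V) = c := hinj (congrArg Subtype.val hy)
    obtain ⟨b, hb, hbe⟩ := y.2
    exact ⟨b, hb, hbe.trans hyc⟩

theorem generic_ex [Fintype X] [FiniteDimensional ℚ V] {s : ℚ → X → Module.End ℚ V}
    (hp : ∀ x, IsPoly (fun t => s t x)) (h : ∀ t, Ok F (s t)) (t₀ : ℚ)
    (e : ∀ d, ExAt F (s t₀) d) :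
    ∃ p : Polynomial ℚ, p ≠ 0 ∧ ∀ t, p.eval t ≠ 0 → ∀ d, ExAt F (s t) d := by
  choose p hp0 hp1 using fun n : ℕ => gn_one hp h t₀ (n : ℤ) (e n)
  refine ⟨∏ n ∈ range (Fintype.card X + 1), p n,
    Finset.prod_ne_zero_iff.2 (fun n _ => hp0 n), ?_⟩
  intro t ht d
  rw [Polynomial.eval_prod, Finset.prod_ne_zero_iff] at ht
  by_cases hd : ∃ n : ℕ, n ∈ range (Fintype.card X + 1) ∧ (n : ℤ) = d
  · obtain ⟨n, hn, rfl⟩ := hd
    exact hp1 n t (ht n hn)
  · intro c hc _
    have hc0 : c = 0 := by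
      funext τ
      apply hc.2.1 τ
      intro h2
      exact hd ⟨τ.card, Finset.mem_range.2 (Nat.lt_succ_of_le (Finset.card_le_univ τ)), h2⟩
    refine ⟨0, Submodule.zero_mem _, ?_⟩
    rw [map_zero, hc0]

theorem gn_ok {G : SimpleGraph X} {s : X → Module.End ℚ V} (h : IsSys G s) (S : Set X)
    (A : Finset X) : Ok (fam G ∅ A) (tw S s) := by
  classical
  have hinv : ∀ x, s x * s x = 1 := h.inv
  refine ⟨?_, ?_, ?_⟩
  · rintro τ ⟨_, h2, h3⟩ ρ _ π _ hπτ
    refine ⟨Finset.empty_subset _, fun x hx => h2 x (hπτ hx), ?_⟩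
    exact h3.subset (Finset.coe_subset.2 hπτ)
  · intro x
    unfold tw
    split_ifs
    · rw [neg_mul_neg, hinv]
    · exact hinv x
  · rintro τ ⟨_, _, h3⟩ x hx y hy
    by_cases hxy : x = y
    · rw [hxy]
    · have hadj : G.Adj x y := h3 (Finset.mem_coe.2 hx) (Finset.mem_coe.2 hy) hxy
      have hcm := h.comm x y hadj
      unfold tw
      split_ifs
      · rw [neg_mul_neg, neg_mul_neg, hcm]
      · rw [neg_mul, mul_neg, hcm]
      · rw [neg_mul, mul_neg, hcm]
      · exact hcm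

theorem generic_good [Fintype X] [FiniteDimensional ℚ V] {G : SimpleGraph X}
    {s : ℚ → X → Module.End ℚ V}
    (hp : ∀ x, IsPoly (fun t => s t x)) (h : ∀ t, IsSys G (s t)) (t₀ : ℚ)
    (𝒮 : Set (Finset X)) (e : ∀ A ∈ 𝒮, Good G A (s t₀)) :
    ∃ p : Polynomial ℚ, p ≠ 0 ∧ ∀ t, p.eval t ≠ 0 → ∀ A ∈ 𝒮, Good G A (s t) := by
  classical
  have key : ∀ (S : Set X) (A : Finset X), ∃ p : Polynomial ℚ, p ≠ 0 ∧
      (A ∈ 𝒮 → ∀ t, p.eval t ≠ 0 → ∀ d, ExAt (fam G ∅ A) (tw S (s t)) d) := by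
    intro S A
    by_cases hA : A ∈ 𝒮
    · have hp' : ∀ x, IsPoly (fun t => tw S (s t) x) := by
        intro x
        unfold tw
        split_ifs with hx
        · exact IsPoly.map (-LinearMap.id) (hp x)
        · exact hp x
      obtain ⟨p, hp0, hp1⟩ := generic_ex hp' (fun t => gn_ok (h t) S A) t₀ (e A hA S)
      exact ⟨p, hp0, fun _ => hp1⟩
    · exact ⟨1, one_ne_zero, fun hh => absurd hh hA⟩
  choose p hp0 hp1 using key
  refine ⟨∏ S ∈ (univ : Finset (Set X)), ∏ A ∈ (univ : Finset (Finset X)), p S A, ?_, ?_⟩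
  · exact Finset.prod_ne_zero_iff.2 (fun S _ => Finset.prod_ne_zero_iff.2 (fun A _ => hp0 S A))
  · intro t ht A hA S
    rw [Polynomial.eval_prod, Finset.prod_ne_zero_iff] at ht
    have h1 := ht S (Finset.mem_univ _)
    rw [Polynomial.eval_prod, Finset.prod_ne_zero_iff] at h1
    exact hp1 S A hA t (h1 A (Finset.mem_univ _))

end Pool.Agent.Helper51.CD
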