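import Pool.Agent.Helper51.CD.Defs

/-!
# CD8a: polynomial functions of a rational variable

IsPoly.bilin: index type the product, products of the polynomials. IsPoly.comp_affine:
(q i).comp (C a * X + C b). IsPoly.det: matrix entries in a basis are polynomials; the determinant
of the matrix of polynomials (RingHom.map_det).
-/

open Finset

namespace Pool.Agent.Helper51.CD

variable {M N L : Type} [AddCommGroup M] [Module ℚ M] [AddCommGroup N] [Module ℚ N]
  [AddCommGroup L] [Module ℚ L]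

theorem IsPoly.const (a : M) : IsPoly (fun _ => a) := by
  refine ⟨Unit, inferInstance, fun _ => 1, fun _ => a, fun t => ?_⟩
  simp

theorem IsPoly.eval (p : Polynomial ℚ) : IsPoly (fun t => p.eval t) := by
  refine ⟨Unit, inferInstance, fun _ => p, fun _ => 1, fun t => ?_⟩
  simp

theorem IsPoly.add {f g : ℚ → M} (hf : IsPoly f) (hg : IsPoly g) :
    IsPoly (fun t => f t + g t) := by
  obtain ⟨ι, _, q, a, h1⟩ := hf
  obtain ⟨κ, _, r, b, h2⟩ := hg
  refine ⟨ι ⊕ κ, inferInstance, Sum.elim q r, Sum.elim a b, fun t => ?_⟩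
  beta_reduce
  rw [Fintype.sum_sum_type, h1 t, h2 t]
  rfl

theorem IsPoly.sum {κ : Type} (J : Finset κ) {f : κ → ℚ → M} (hf : ∀ i ∈ J, IsPoly (f i)) :
    IsPoly (fun t => ∑ i ∈ J, f i t) := by
  classical
  induction J using Finset.induction_on with
  | empty =>
    simp only [Finset.sum_empty]
    exact IsPoly.const 0
  | insert i J hi ih =>
    simp only [Finset.sum_insert hi]
    exact (hf i (mem_insert_self i J)).add (ih fun j hj => hf j (mem_insert_of_mem hj))

theorem IsPoly.map (l : M →ₗ[ℚ] N) {f : ℚ → M} (hf : IsPoly f) :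
    IsPoly (fun t => l (f t)) := by
  obtain ⟨ι, _, q, a, h1⟩ := hf
  refine ⟨ι, inferInstance, q, fun i => l (a i), fun t => ?_⟩
  beta_reduce
  rw [h1 t, map_sum]
  exact Finset.sum_congr rfl fun i _ => map_smul l _ _

theorem IsPoly.bilin (l : M →ₗ[ℚ] N →ₗ[ℚ] L) {f : ℚ → M} {g : ℚ → N} (hf : IsPoly f)
    (hg : IsPoly g) : IsPoly (fun t => l (f t) (g t)) := by
  obtain ⟨ι, _, q, a, h1⟩ := hf
  obtain ⟨κ, _, r, b, h2⟩ := hg
  refine ⟨ι × κ, inferInstance, fun x => q x.1 * r x.2, fun x => l (a x.1) (b x.2), fun t => ?_⟩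
  beta_reduce
  rw [h1 t, h2 t, map_sum l, LinearMap.sum_apply, Fintype.sum_prod_type]
  refine Finset.sum_congr rfl fun i _ => ?_
  rw [map_sum]
  refine Finset.sum_congr rfl fun j _ => ?_
  rw [map_smul, map_smul, LinearMap.smul_apply, smul_smul, Polynomial.eval_mul, mul_comm]

theorem IsPoly.comp_affine (a b : ℚ) {f : ℚ → M} (hf : IsPoly f) :
    IsPoly (fun t => f (a * t + b)) := by
  obtain ⟨ι, _, q, c, h1⟩ := hf
  refine ⟨ι, inferInstance, fun i => (q i).comp (Polynomial.C a * Polynomial.X + Polynomial.C b),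
    c, fun t => ?_⟩
  beta_reduce
  rw [h1]
  refine Finset.sum_congr rfl fun i _ => ?_
  simp [Polynomial.eval_comp]

theorem IsPoly.mul {f g : ℚ → Module.End ℚ M} (hf : IsPoly f) (hg : IsPoly g) :
    IsPoly (fun t => f t * g t) := by
  exact IsPoly.bilin (LinearMap.mul ℚ (Module.End ℚ M)) hf hg

theorem IsPoly.comp {f : ℚ → (M →ₗ[ℚ] N)} {g : ℚ → (L →ₗ[ℚ] M)} (hf : IsPoly f)
    (hg : IsPoly g) : IsPoly (fun t => (f t) ∘ₗ (g t)) := by
  exact IsPoly.bilin (LinearMap.llcomp ℚ L M N) hf hg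

theorem IsPoly.det {W : Type} [AddCommGroup W] [Module ℚ W] [FiniteDimensional ℚ W]
    {f : ℚ → Module.End ℚ W} (hf : IsPoly f) :
    ∃ p : Polynomial ℚ, ∀ t, LinearMap.det (f t) = p.eval t := by
  classical
  obtain ⟨ι, _, q, a, h1⟩ := hf
  let b := Module.finBasis ℚ W
  let P : Matrix (Fin (Module.finrank ℚ W)) (Fin (Module.finrank ℚ W)) (Polynomial ℚ) :=
    Matrix.of fun i j => ∑ k, q k * Polynomial.C (LinearMap.toMatrix b b (a k) i j)
  refine ⟨P.det, fun t => ?_⟩
  have h2 : LinearMap.toMatrix b b (f t) = (Polynomial.evalRingHom t).mapMatrix P := by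
    ext i j
    rw [h1 t, map_sum, Matrix.sum_apply, RingHom.mapMatrix_apply, Matrix.map_apply]
    show _ = Polynomial.evalRingHom t (∑ k, q k * Polynomial.C (LinearMap.toMatrix b b (a k) i j))
    rw [map_sum]
    refine Finset.sum_congr rfl fun k _ => ?_
    rw [map_smul, Matrix.smul_apply, map_mul]
    simp
  rw [← LinearMap.det_toMatrix b, h2, ← RingHom.map_det]
  rfl

end Pool.Agent.Helper51.CD
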