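import Pool.Agent.Helper51.CD.Fams
import Pool.Agent.Helper51.CD.Combine
import Pool.Agent.Helper51.CD.Seq

/-!
# CD11: tame graphs are good

Induction on Tame. pair: hasGood_pair. add: by HasGood.union a family good on A and nbr G A u;
for every sign pattern ex_glue with F = fam G ∅ (insert u A), F1 = fam G ∅ A, the rest = cliques
containing u = family of ex_shift for fam G ∅ (nbr G A u). remove: ex_low with the same sets.
glue: family good on A, B, A ∩ B: ex_glue with F = fam G ∅ (A ∪ B), F1 = fam G ∅ A, the rest =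
fam G ∅ B minus fam G ∅ (A ∩ B), exact by ex_high. contract: HasGood.restrict for nbr2
(G and contr G v w agree on it, as v is not in it), HasGood.union, HasGood.contr.
-/

open Finset

namespace Pool.Agent.Helper51.CD

variable {X : Type} [LinearOrder X]
variable {V : Type} [AddCommGroup V] [Module ℚ V]
variable {F F1 : Set (Finset X)} {s : X → Module.End ℚ V} {d : ℤ}

open scoped Classical in
omit [LinearOrder X] in
theorem tg_mem_nbr {G : SimpleGraph X} {A : Finset X} {u x : X} :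
    x ∈ nbr G A u ↔ x ∈ A ∧ G.Adj u x := by
  unfold nbr
  exact Finset.mem_filter

open scoped Classical in
omit [LinearOrder X] in
theorem tg_mem_nbr2 {G : SimpleGraph X} {A : Finset X} {v w x : X} :
    x ∈ nbr2 G A v w ↔ x ∈ A ∧ (G.Adj v x ∧ G.Adj w x) := by
  unfold nbr2
  exact Finset.mem_filter

omit [LinearOrder X] in
theorem tg_mem_fam {G : SimpleGraph X} {A τ : Finset X} :
    τ ∈ fam G ∅ A ↔ (∀ x ∈ τ, x ∈ A) ∧ G.IsClique (τ : Set X) := by
  constructor
  · rintro ⟨_, h2, h3⟩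
    refine ⟨fun x hx => ?_, h3⟩
    rcases h2 x hx with h | h
    · exact absurd h (Finset.notMem_empty x)
    · exact h
  · rintro ⟨h2, h3⟩
    exact ⟨Finset.empty_subset _, fun x hx => Or.inr (h2 x hx), h3⟩

omit [LinearOrder X] in
theorem tg_tw_inv {G : SimpleGraph X} (hs : IsSys G s) (S : Set X) (x : X) :
    tw S s x * tw S s x = 1 := by
  unfold tw
  split_ifs
  · rw [neg_mul_neg]
    exact hs.inv x
  · exact hs.inv x

omit [LinearOrder X] in
theorem tg_tw_comm {G : SimpleGraph X} (hs : IsSys G s) (S : Set X) {x y : X}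
    (h : G.Adj x y) : tw S s x * tw S s y = tw S s y * tw S s x := by
  have h1 := hs.comm x y h
  unfold tw
  split_ifs <;> simp [h1]

theorem tg_ok {G : SimpleGraph X} (hs : IsSys G s) (S : Set X) (A : Finset X) :
    Ok (fam G ∅ A) (tw S s) where
  conv := by
    intro τ hτ ρ _ π _ h2
    rw [tg_mem_fam] at hτ ⊢
    exact ⟨fun x hx => hτ.1 x (h2 hx), hτ.2.subset (Finset.coe_subset.2 h2)⟩
  inv := tg_tw_inv hs S
  comm := by
    intro τ hτ x hx y hy
    rw [tg_mem_fam] at hτ
    by_cases h : x = y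
    · rw [h]
    · exact tg_tw_comm hs S (hτ.2 (Finset.mem_coe.2 hx) (Finset.mem_coe.2 hy) h)

omit [LinearOrder X] in
theorem tg_down {G : SimpleGraph X} {A B : Finset X} :
    ∀ τ ∈ fam G ∅ A, ∀ ρ ∈ fam G ∅ B, ρ ⊆ τ → ρ ∈ fam G ∅ A := by
  intro τ hτ ρ _ h
  rw [tg_mem_fam] at hτ ⊢
  exact ⟨fun x hx => hτ.1 x (h hx), hτ.2.subset (Finset.coe_subset.2 h)⟩

omit [LinearOrder X] in
theorem tg_mono {G : SimpleGraph X} {A B : Finset X} (h : A ⊆ B) : fam G ∅ A ⊆ fam G ∅ B := by
  intro τ hτ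
  rw [tg_mem_fam] at hτ ⊢
  exact ⟨fun x hx => h (hτ.1 x hx), hτ.2⟩

theorem tg_diff_insert {G : SimpleGraph X} {A : Finset X} {u : X} (hu : u ∉ A) :
    fam G ∅ (insert u A) \ fam G ∅ A =
      {τ | u ∈ τ ∧ τ.erase u ∈ fam G ∅ (nbr G A u)} := by
  ext τ
  rw [Set.mem_sdiff, Set.mem_ofPred_eq, tg_mem_fam, tg_mem_fam, tg_mem_fam]
  constructor
  · rintro ⟨⟨h1, h2⟩, h3⟩
    have hu' : u ∈ τ := by
      by_contra h
      apply h3
      refine ⟨fun x hx => ?_, h2⟩
      rcases Finset.mem_insert.1 (h1 x hx) with h' | h'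
      · exact absurd (h' ▸ hx) h
      · exact h'
    refine ⟨hu', fun x hx => ?_, h2.subset (Finset.coe_subset.2 (Finset.erase_subset _ _))⟩
    have hne := Finset.ne_of_mem_erase hx
    have hx' := Finset.mem_of_mem_erase hx
    rw [tg_mem_nbr]
    refine ⟨?_, h2 (Finset.mem_coe.2 hu') (Finset.mem_coe.2 hx') (Ne.symm hne)⟩
    rcases Finset.mem_insert.1 (h1 x hx') with h' | h'
    · exact absurd h' hne
    · exact h'
  · rintro ⟨hu', h1, h2⟩
    have key : ∀ x ∈ τ, x ≠ u → x ∈ A ∧ G.Adj u x := by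
      intro x hx hne
      have := h1 x (Finset.mem_erase.2 ⟨hne, hx⟩)
      rw [tg_mem_nbr] at this
      exact this
    refine ⟨⟨fun x hx => ?_, ?_⟩, fun h => hu (h.1 u hu')⟩
    · by_cases h : x = u
      · exact Finset.mem_insert.2 (Or.inl h)
      · exact Finset.mem_insert.2 (Or.inr (key x hx h).1)
    · intro x hx y hy hxy
      rw [Finset.mem_coe] at hx hy
      by_cases h : x = u
      · subst h
        exact (key y hy (Ne.symm hxy)).2
      · by_cases h' : y = u
        · subst h'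
          exact (key x hx h).2.symm
        · exact h2 (Finset.mem_coe.2 (Finset.mem_erase.2 ⟨h, hx⟩))
            (Finset.mem_coe.2 (Finset.mem_erase.2 ⟨h', hy⟩)) hxy

theorem tg_shift {G : SimpleGraph X} (hs : IsSys G s) (S : Set X) {A : Finset X} {u : X}
    (hu : u ∉ A) (h : Good G (nbr G A u) s) (d : ℤ) :
    ExAt (fam G ∅ (insert u A) \ fam G ∅ A) (tw S s) (d + 1) := by
  rw [tg_diff_insert hu]
  have hadj : ∀ τ ∈ fam G ∅ (nbr G A u), ∀ x ∈ τ, G.Adj u x := by
    intro τ hτ x hx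
    rw [tg_mem_fam] at hτ
    have := hτ.1 x hx
    rw [tg_mem_nbr] at this
    exact this.2
  refine ex_shift u (fun τ hτ hx => ?_) (tg_tw_inv hs S u) (fun τ hτ x hx => ?_) (h S d)
  · exact (hadj τ hτ u hx).ne rfl
  · exact tg_tw_comm hs S (hadj τ hτ x hx)

theorem tg_add {G : SimpleGraph X} (hs : IsSys G s) {A : Finset X} {u : X} (hu : u ∉ A)
    (h1 : Good G A s) (h2 : Good G (nbr G A u) s) : Good G (insert u A) s := by
  intro S d
  refine ex_glue (tg_ok hs S _) (tg_mono (Finset.subset_insert u A)) tg_down (h1 S d) ?_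
  have := tg_shift hs S hu h2 (d - 1)
  rwa [sub_add_cancel] at this

theorem tg_remove {G : SimpleGraph X} (hs : IsSys G s) {A : Finset X} {u : X} (hu : u ∉ A)
    (h1 : Good G (insert u A) s) (h2 : Good G (nbr G A u) s) : Good G A s := by
  intro S d
  exact ex_low (tg_ok hs S _) (tg_mono (Finset.subset_insert u A)) tg_down (h1 S d)
    (tg_shift hs S hu h2 d)

theorem tg_glue {G : SimpleGraph X} (hs : IsSys G s) {A B : Finset X}
    (h : ∀ x ∈ A, ∀ y ∈ B, G.Adj x y → x ∈ B ∨ y ∈ A)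
    (h1 : Good G A s) (h2 : Good G B s) (h3 : Good G (A ∩ B) s) : Good G (A ∪ B) s := by
  intro S d
  refine ex_glue (tg_ok hs S _) (tg_mono Finset.subset_union_left) tg_down (h1 S d) ?_
  have hset : fam G ∅ (A ∪ B) \ fam G ∅ A = fam G ∅ B \ fam G ∅ (A ∩ B) := by
    ext τ
    rw [Set.mem_sdiff, Set.mem_sdiff, tg_mem_fam, tg_mem_fam, tg_mem_fam, tg_mem_fam]
    constructor
    · rintro ⟨⟨k1, k2⟩, k3⟩
      have : ∃ b ∈ τ, b ∉ A := by
        by_contra hc
        push Not at hc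
        exact k3 ⟨hc, k2⟩
      obtain ⟨b, hb, hbA⟩ := this
      have hbB : b ∈ B := (Finset.mem_union.1 (k1 b hb)).resolve_left hbA
      refine ⟨⟨fun x hx => ?_, k2⟩, fun hc => hbA (Finset.mem_inter.1 (hc.1 b hb)).1⟩
      by_contra hxB
      have hxA : x ∈ A := (Finset.mem_union.1 (k1 x hx)).resolve_right hxB
      have hne : x ≠ b := fun e => hbA (e ▸ hxA)
      rcases h x hxA b hbB (k2 (Finset.mem_coe.2 hx) (Finset.mem_coe.2 hb) hne) with h' | h'
      · exact hxB h'
      · exact hbA h'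
    · rintro ⟨⟨k1, k2⟩, k3⟩
      refine ⟨⟨fun x hx => Finset.mem_union.2 (Or.inr (k1 x hx)), k2⟩, fun hc => k3 ?_⟩
      exact ⟨fun x hx => Finset.mem_inter.2 ⟨hc.1 x hx, k1 x hx⟩, k2⟩
  rw [hset]
  exact ex_high (tg_ok hs S _) (tg_mono Finset.inter_subset_right) tg_down (h2 S d)
    (h3 S (d - 1))

theorem hasGood_of_tame [Fintype X] {G : SimpleGraph X} {A : Finset X} (h : Tame G A) :
    HasGood G {A} := by
  induction h with
  | pair G x y hxy h => exact hasGood_pair G x y hxy h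
  | add G A u hu _ _ ih1 ih2 =>
    obtain ⟨F, hF⟩ := ih1.union ih2
    refine ⟨F, fun B hB => ?_⟩
    rw [Set.mem_singleton_iff.1 hB]
    exact tg_add (F.sys 1) hu (hF A (Or.inl rfl)) (hF _ (Or.inr rfl))
  | remove G A u hu _ _ ih1 ih2 =>
    obtain ⟨F, hF⟩ := ih1.union ih2
    refine ⟨F, fun B hB => ?_⟩
    rw [Set.mem_singleton_iff.1 hB]
    exact tg_remove (F.sys 1) hu (hF _ (Or.inl rfl)) (hF _ (Or.inr rfl))
  | glue G A B h _ _ _ ih1 ih2 ih3 =>
    obtain ⟨F, hF⟩ := (ih1.union ih2).union ih3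
    refine ⟨F, fun C hC => ?_⟩
    rw [Set.mem_singleton_iff.1 hC]
    exact tg_glue (F.sys 1) h (hF A (Or.inl (Or.inl rfl))) (hF B (Or.inl (Or.inr rfl)))
      (hF _ (Or.inr rfl))
  | contract G A v w hv hw hvw h4 _ _ ih1 ih2 =>
    refine HasGood.contr hv hw hvw h4 ?_
    have h2 : HasGood (CD.contr G v w) {nbr2 G A v w} := by
      refine ih2.restrict fun x hx y hy => ?_
      rw [tg_mem_nbr2] at hx hy
      have hxv : x ≠ v := fun e => hx.2.1.ne e.symm
      have hyv : y ≠ v := fun e => hy.2.1.ne e.symm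
      constructor
      · intro h
        exact ⟨h.ne, Or.inl h⟩
      · rintro ⟨_, h | h | h⟩
        · exact h
        · exact absurd h.1 hxv
        · exact absurd h.1 hyv
    have := ih1.union h2
    rwa [Set.singleton_union] at this

end Pool.Agent.Helper51.CD
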