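import Pool.Agent.Helper51.CD.Seq

/-!
# CD2b: replacing one involution by the identity

Let s' = s with s' u = 1, s- = s with - s u at u, Fu = the members of F containing u.
Short exact sequence 0 to C(Fu, s-) to C(F, s') to C(F, s) to 0 (SES of Seq.lean):
Phi = id; Psi c t = P_u (c t) if u in t, c t otherwise (P_u = Pr s u).
(An element of C(F, s') has value at t fixed by s x, x in t, x not u. Kernel of P_u = vectors v
with s u v = - v. Surjective: CC F s d is contained in CC F s' d and Psi is the identity there.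
Phi commutes with the differential: for t in F without u both are 0 as c is supported on Fu; for
t containing u the term x = u has t minus u not in Fu so c = 0 there.
Psi commutes: for t containing u: P_u (sum over x in t of sg P'_x c(t - x)), terms x not u: P_u P_x
= P_x P_u and u in t - x; the term x = u: P'_u = 1 (Pr of the identity), P_u (c (t-u)), and
Psi c (t-u) = c (t-u).) Here Ok F s gives that s u commutes with s x for x in t, t in Fu.
Then triv_down = SES.right and triv_up = SES.mid.
-/

open Finset

namespace Pool.Agent.Helper51.CD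

variable {X : Type} [LinearOrder X]
variable {V : Type} [AddCommGroup V] [Module ℚ V]
variable {F F1 : Set (Finset X)} {s : X → Module.End ℚ V} {d : ℤ}

theorem tw_self (s : X → Module.End ℚ V) (u : X) : tw {u} s u = - s u := by
  unfold tw
  exact if_pos rfl

theorem tw_ne (s : X → Module.End ℚ V) {u x : X} (hx : x ≠ u) : tw {u} s x = s x := by
  unfold tw
  exact if_neg (fun e => hx e)

theorem Pr_congr {s s1 : X → Module.End ℚ V} {x : X} (h : s x = s1 x) : Pr s x = Pr s1 x := by
  unfold Pr
  rw [h]

theorem Pr_of_neg {x : X} {v : V} (h : - s x v = v) : Pr s x v = 0 := by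
  rw [Pr_apply]
  have : s x v = - v := by rw [← h, neg_neg, h]
  rw [this, add_neg_cancel, smul_zero]

theorem neg_of_Pr {x : X} {v : V} (h : Pr s x v = 0) : - s x v = v := by
  rw [Pr_apply] at h
  have h1 : v + s x v = 0 := by
    rcases smul_eq_zero.1 h with h2 | h2
    · norm_num at h2
    · exact h2
  rw [eq_comm, ← sub_eq_zero, sub_neg_eq_add]
  exact h1

theorem ok_tw (h : Ok F s) (u : X) : Ok {τ | τ ∈ F ∧ u ∈ τ} (tw {u} s) := by
  refine ⟨fun τ hτ ρ hρ π h1 h2 => ⟨h.conv τ hτ.1 ρ hρ.1 π h1 h2, h1 hρ.2⟩, fun x => ?_,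
    fun τ hτ x hx y hy => ?_⟩
  · by_cases hx : x = u
    · subst hx
      rw [tw_self, neg_mul_neg, h.inv]
    · rw [tw_ne s hx, h.inv]
  · have hc := h.comm τ hτ.1 x hx y hy
    by_cases hxu : x = u
    · subst hxu
      by_cases hyx : y = x
      · subst hyx; rfl
      · rw [tw_self, tw_ne s hyx, neg_mul, mul_neg, hc]
    · by_cases hyu : y = u
      · subst hyu
        rw [tw_self, tw_ne s hxu, neg_mul, mul_neg, hc]
      · rw [tw_ne s hxu, tw_ne s hyu, hc]

theorem ok_upd (h : Ok F s) (u : X) : Ok F (Function.update s u 1) := by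
  refine ⟨h.conv, fun x => ?_, fun τ hτ x hx y hy => ?_⟩
  · by_cases hx : x = u
    · subst hx
      rw [Function.update_self, mul_one]
    · rw [Function.update_of_ne hx, h.inv]
  · by_cases hxu : x = u
    · subst hxu
      rw [Function.update_self, one_mul, mul_one]
    · by_cases hyu : y = u
      · subst hyu
        rw [Function.update_self, one_mul, mul_one]
      · rw [Function.update_of_ne hxu, Function.update_of_ne hyu, h.comm τ hτ x hx y hy]

/-- The map applying the projection of `u` at the sets containing `u`. -/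
noncomputable def prAt (s : X → Module.End ℚ V) (u : X) :
    (Finset X → V) →ₗ[ℚ] (Finset X → V) :=
  LinearMap.pi (fun τ => if u ∈ τ then (Pr s u) ∘ₗ (LinearMap.proj τ) else LinearMap.proj τ)

theorem prAt_mem (s : X → Module.End ℚ V) {u : X} (c : Finset X → V) {τ : Finset X}
    (h : u ∈ τ) : prAt s u c τ = Pr s u (c τ) := by
  unfold prAt
  rw [LinearMap.pi_apply, if_pos h]
  rfl

theorem prAt_notMem (s : X → Module.End ℚ V) {u : X} (c : Finset X → V) {τ : Finset X}
    (h : u ∉ τ) : prAt s u c τ = c τ := by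
  unfold prAt
  rw [LinearMap.pi_apply, if_neg h]
  rfl

/-- The short exact sequence of the replacement of an involution by the identity. -/
noncomputable def sesTriv (h : Ok F s) (u : X) :
    SES (cx {τ | τ ∈ F ∧ u ∈ τ} (tw {u} s) (ok_tw h u)) (cx F (Function.update s u 1) (ok_upd h u))
      (cx F s h) where
  Φ := LinearMap.id
  Ψ := prAt s u
  hΦ := by
    intro d c hc
    change c ∈ CC {τ | τ ∈ F ∧ u ∈ τ} (tw {u} s) d at hc
    change c ∈ CC F (Function.update s u 1) d
    rw [mem_CC] at hc ⊢
    refine ⟨fun τ hτ => hc.1 τ (fun h1 => hτ h1.1), hc.2.1, fun τ x hx => ?_⟩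
    by_cases hxu : x = u
    · subst hxu
      rw [Function.update_self, Module.End.one_apply]
    · rw [Function.update_of_ne hxu]
      have := hc.2.2 τ x hx
      rwa [tw_ne s hxu] at this
  hΨ := by
    intro d c hc
    change c ∈ CC F (Function.update s u 1) d at hc
    change prAt s u c ∈ CC F s d
    rw [mem_CC] at hc ⊢
    have hfix : ∀ τ : Finset X, ∀ x ∈ τ, x ≠ u → s x (c τ) = c τ := by
      intro τ x hx hxu
      have := hc.2.2 τ x hx
      rwa [Function.update_of_ne hxu] at this
    refine ⟨fun τ hτ => ?_, fun τ hτ => ?_, fun τ x hx => ?_⟩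
    · by_cases h1 : u ∈ τ
      · rw [prAt_mem s c h1, hc.1 τ hτ, map_zero]
      · rw [prAt_notMem s c h1, hc.1 τ hτ]
    · by_cases h1 : u ∈ τ
      · rw [prAt_mem s c h1, hc.2.1 τ hτ, map_zero]
      · rw [prAt_notMem s c h1, hc.2.1 τ hτ]
    · by_cases h1 : u ∈ τ
      · rw [prAt_mem s c h1]
        by_cases hxu : x = u
        · subst hxu
          exact s_Pr (h.inv x) _
        · by_cases hF : τ ∈ F
          · rw [s_Pr_comm (h.comm τ hF x hx u h1), hfix τ x hx hxu]
          · rw [hc.1 τ hF, map_zero, map_zero]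
      · rw [prAt_notMem s c h1]
        exact hfix τ x hx (fun e => h1 (e ▸ hx))
  cΦ := by
    intro d c hc
    change c ∈ CC {τ | τ ∈ F ∧ u ∈ τ} (tw {u} s) d at hc
    change Di {τ | τ ∈ F ∧ u ∈ τ} (tw {u} s) c = Di F (Function.update s u 1) c
    rw [mem_CC] at hc
    funext τ
    by_cases hτ : τ ∈ F
    · rw [Di_of_mem _ c hτ]
      by_cases h1 : u ∈ τ
      · rw [Di_of_mem _ c (show τ ∈ {τ | τ ∈ F ∧ u ∈ τ} from ⟨hτ, h1⟩)]
        refine Finset.sum_congr rfl (fun x _ => ?_)
        by_cases hxu : x = u
        · subst hxu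
          rw [hc.1 (τ.erase x) (fun h2 => (mem_erase.1 h2.2).1 rfl), map_zero, map_zero]
        · rw [Pr_congr (s := tw {u} s) (s1 := Function.update s u 1) (x := x)
            (by rw [tw_ne s hxu, Function.update_of_ne hxu])]
      · rw [Di_of_notMem _ c (fun h2 => h1 h2.2)]
        symm
        refine Finset.sum_eq_zero (fun x _ => ?_)
        rw [hc.1 (τ.erase x) (fun h2 => h1 (Finset.mem_of_mem_erase h2.2)), map_zero, smul_zero]
    · rw [Di_of_notMem _ c hτ, Di_of_notMem _ c (fun h2 => hτ h2.1)]
  cΨ := by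
    intro d c hc
    change c ∈ CC F (Function.update s u 1) d at hc
    change prAt s u (Di F (Function.update s u 1) c) = Di F s (prAt s u c)
    funext τ
    by_cases hτ : τ ∈ F
    · rw [Di_of_mem s _ hτ]
      by_cases h1 : u ∈ τ
      · rw [prAt_mem s _ h1, Di_of_mem _ c hτ, map_sum]
        refine Finset.sum_congr rfl (fun x hx => ?_)
        rw [map_smul]
        by_cases hxu : x = u
        · subst hxu
          rw [prAt_notMem s c (Finset.notMem_erase x τ),
            Pr_of_fix (s := Function.update s x 1) (x := x)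
              (by rw [Function.update_self, Module.End.one_apply])]
        · rw [prAt_mem s c (mem_erase.2 ⟨fun e => hxu e.symm, h1⟩),
            Pr_congr (s := Function.update s u 1) (s1 := s) (x := x)
              (by rw [Function.update_of_ne hxu]),
            Pr_Pr_comm (h.comm τ hτ u h1 x hx)]
      · rw [prAt_notMem s _ h1, Di_of_mem _ c hτ]
        refine Finset.sum_congr rfl (fun x hx => ?_)
        have hxu : x ≠ u := fun e => h1 (e ▸ hx)
        rw [prAt_notMem s c (fun h2 => h1 (Finset.mem_of_mem_erase h2)),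
          Pr_congr (s := Function.update s u 1) (s1 := s) (x := x)
            (by rw [Function.update_of_ne hxu])]
    · rw [Di_of_notMem s _ hτ]
      by_cases h1 : u ∈ τ
      · rw [prAt_mem s _ h1, Di_of_notMem _ c hτ, map_zero]
      · rw [prAt_notMem s _ h1, Di_of_notMem _ c hτ]
  inj := fun d c _ h => h
  lift := by
    intro d c hc
    change c ∈ CC F s d at hc
    rw [mem_CC] at hc
    refine ⟨c, ?_, ?_⟩
    · change c ∈ CC F (Function.update s u 1) d
      rw [mem_CC]
      refine ⟨hc.1, hc.2.1, fun τ x hx => ?_⟩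
      by_cases hxu : x = u
      · subst hxu
        rw [Function.update_self, Module.End.one_apply]
      · rw [Function.update_of_ne hxu, hc.2.2 τ x hx]
    · funext τ
      by_cases h1 : u ∈ τ
      · rw [prAt_mem s c h1, Pr_of_fix (hc.2.2 τ u h1)]
      · rw [prAt_notMem s c h1]
  ker := by
    intro d c hc h0
    change c ∈ CC F (Function.update s u 1) d at hc
    refine ⟨c, ?_, rfl⟩
    change c ∈ CC {τ | τ ∈ F ∧ u ∈ τ} (tw {u} s) d
    rw [mem_CC] at hc ⊢
    refine ⟨fun τ hτ => ?_, hc.2.1, fun τ x hx => ?_⟩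
    · by_cases h1 : u ∈ τ
      · exact hc.1 τ (fun h2 => hτ ⟨h2, h1⟩)
      · have := congrFun h0 τ
        rwa [prAt_notMem s c h1] at this
    · by_cases hxu : x = u
      · subst hxu
        have := congrFun h0 τ
        rw [prAt_mem s c hx] at this
        rw [tw_self, LinearMap.neg_apply]
        exact neg_of_Pr this
      · have := hc.2.2 τ x hx
        rw [Function.update_of_ne hxu] at this
        rw [tw_ne s hxu, this]
  ΨΦ := by
    intro d c hc
    change c ∈ CC {τ | τ ∈ F ∧ u ∈ τ} (tw {u} s) d at hc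
    change prAt s u c = 0
    rw [mem_CC] at hc
    funext τ
    rw [Pi.zero_apply]
    by_cases h1 : u ∈ τ
    · rw [prAt_mem s c h1]
      apply Pr_of_neg
      have := hc.2.2 τ u h1
      rwa [tw_self, LinearMap.neg_apply] at this
    · rw [prAt_notMem s c h1, hc.1 τ (fun h2 => h1 h2.2)]

theorem triv_down (h : Ok F s) (u : X) (e : ExAt F (Function.update s u 1) d)
    (e2 : ExAt {τ | τ ∈ F ∧ u ∈ τ} (tw {u} s) (d + 1)) : ExAt F s d :=
  (sesTriv h u).right e e2

theorem triv_up (h : Ok F s) (u : X) (e : ExAt F s d)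
    (e2 : ExAt {τ | τ ∈ F ∧ u ∈ τ} (tw {u} s) d) : ExAt F (Function.update s u 1) d :=
  (sesTriv h u).mid e2 e

end Pool.Agent.Helper51.CD
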