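import Pool.Agent.Helper51.CD.Triv
import Pool.Agent.Helper51.CD.Cone

/-!
# CD4: vanishing above and below the middle degree

upper: downward induction on |ρ| (if |ρ| > 2n there is nothing to prove, no clique). For u not in
A and not in ρ: with F = fam G ρ (insert u A), F1 = fam G ρ A one has
F minus F1 = fam G (insert u ρ) A (empty if insert u ρ is no clique). (If u is in ρ then
fam G ρ (insert u A) = fam G ρ A.)
|ρ| even: induction on A with ex_glue; A empty: the only member of fam G ρ ∅ is ρ, and |ρ| is not d
since 2 d > 2 n + |ρ| and |ρ| ≤ 2 n, so all cochains of degree d vanish. The part F minus F1 is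
covered by the induction hypothesis for insert u ρ (2 d > 2 n + |ρ| + 1 by parity).
|ρ| odd: remove vertices, starting from A = univ (hg), with ex_low: needs fam G (insert u ρ) A in
degree d+1: 2 (d+1) > 2 n + |ρ| + 1. All signs S are treated at once.

lower: for a finite set T disjoint from ρ put sysT x = 1 if x in T, tw S s x otherwise.
Claim: for all cliques ρ, all T disjoint from ρ, all S and d with 2 d < 2 n + |ρ|:
ExAt (fam G ρ univ) sysT d. Downward induction on |ρ|. For u not in T, not in ρ:
Function.update sysT u 1 = sysT for insert u T; tw {u} sysT = sysT for the set S with the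
membership of u changed; the members of fam G ρ univ containing u form fam G (insert u ρ) univ.
|ρ| odd: induction on T from T empty (hg), with triv_up (needs insert u ρ, degree d,
2 d < 2 n + |ρ| + 1).
|ρ| even: induction downwards from T = complement of ρ (hb), with triv_down (needs insert u ρ,
degree d + 1, 2 (d+1) < 2 n + |ρ| + 1 by parity).
If insert u ρ is no clique then fam G (insert u ρ) univ is empty and ExAt is trivial.
-/

open Finset

namespace Pool.Agent.Helper51.CD

variable {X : Type} [LinearOrder X]
variable {V : Type} [AddCommGroup V] [Module ℚ V]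
variable {F F1 : Set (Finset X)} {s : X → Module.End ℚ V} {d : ℤ}

omit [LinearOrder X] in
theorem van_isSys_tw {G : SimpleGraph X} (hs : IsSys G s) (S : Set X) : IsSys G (tw S s) := by
  constructor
  · intro x
    unfold tw
    split_ifs
    · rw [neg_mul_neg]
      exact hs.inv x
    · exact hs.inv x
  · intro x y h
    have h1 := hs.comm x y h
    unfold tw
    split_ifs
    · rw [neg_mul_neg, neg_mul_neg, h1]
    · rw [neg_mul, mul_neg, h1]
    · rw [neg_mul, mul_neg, h1]
    · exact h1

omit [LinearOrder X] in
theorem van_ok {G : SimpleGraph X} (hs : IsSys G s) (ρ A : Finset X) : Ok (fam G ρ A) s := by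
  refine ⟨?_, hs.inv, ?_⟩
  · rintro τ ⟨h1, h2, h3⟩ σ ⟨h4, h5, h6⟩ π h7 h8
    refine ⟨h4.trans h7, fun x hx => h2 x (h8 hx), ?_⟩
    intro x hx y hy hxy
    exact h3 (h8 hx) (h8 hy) hxy
  · rintro τ ⟨h1, h2, h3⟩ x hx y hy
    by_cases hxy : x = y
    · rw [hxy]
    · exact hs.comm x y (h3 hx hy hxy)

omit [LinearOrder X] in
theorem van_fam_empty {G : SimpleGraph X} {ρ A : Finset X} (h : ¬ G.IsClique (ρ : Set X)) :
    fam G ρ A = ∅ := by
  ext τ
  constructor
  · rintro ⟨h1, h2, h3⟩
    exact absurd (fun x hx y hy hxy => h3 (h1 hx) (h1 hy) hxy) h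
  · intro h1
    exact absurd h1 (Set.notMem_empty τ)

theorem van_ex_zero (h : ∀ c ∈ CC F s d, c = 0) : ExAt F s d := by
  intro c hc _
  refine ⟨0, Submodule.zero_mem _, ?_⟩
  rw [map_zero, h c hc]

theorem van_ex_empty : ExAt (∅ : Set (Finset X)) s d := by
  apply van_ex_zero
  intro c hc
  funext τ
  exact hc.1 τ (Set.notMem_empty τ)

omit [LinearOrder X] in
theorem van_fam_insert_mem [DecidableEq X] {G : SimpleGraph X} {ρ A : Finset X} {u : X}
    (hu : u ∈ ρ) : fam G ρ (insert u A) = fam G ρ A := by
  ext τ
  constructor
  · rintro ⟨h1, h2, h3⟩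
    refine ⟨h1, fun x hx => ?_, h3⟩
    rcases h2 x hx with h4 | h4
    · exact Or.inl h4
    · rcases mem_insert.1 h4 with h5 | h5
      · exact Or.inl (h5 ▸ hu)
      · exact Or.inr h5
  · rintro ⟨h1, h2, h3⟩
    refine ⟨h1, fun x hx => ?_, h3⟩
    rcases h2 x hx with h4 | h4
    · exact Or.inl h4
    · exact Or.inr (mem_insert_of_mem h4)

omit [LinearOrder X] in
theorem van_fam_sub [DecidableEq X] {G : SimpleGraph X} {ρ A : Finset X} {u : X} :
    fam G ρ A ⊆ fam G ρ (insert u A) := by
  rintro τ ⟨h1, h2, h3⟩
  refine ⟨h1, fun x hx => ?_, h3⟩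
  rcases h2 x hx with h4 | h4
  · exact Or.inl h4
  · exact Or.inr (mem_insert_of_mem h4)

omit [LinearOrder X] in
theorem van_fam_down [DecidableEq X] {G : SimpleGraph X} {ρ A : Finset X} {u : X} :
    ∀ τ ∈ fam G ρ A, ∀ σ ∈ fam G ρ (insert u A), σ ⊆ τ → σ ∈ fam G ρ A := by
  rintro τ ⟨h1, h2, h3⟩ σ ⟨h4, h5, h6⟩ h7
  exact ⟨h4, fun x hx => h2 x (h7 hx), h6⟩

omit [LinearOrder X] in
theorem van_fam_diff [DecidableEq X] {G : SimpleGraph X} {ρ A : Finset X} {u : X}
    (hu : u ∉ ρ) (hA : u ∉ A) :
    fam G ρ (insert u A) \ fam G ρ A = fam G (insert u ρ) A := by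
  ext τ
  constructor
  · rintro ⟨⟨h1, h2, h3⟩, h4⟩
    have h5 : u ∈ τ := by
      by_contra h6
      apply h4
      refine ⟨h1, fun x hx => ?_, h3⟩
      rcases h2 x hx with h7 | h7
      · exact Or.inl h7
      · rcases mem_insert.1 h7 with h8 | h8
        · exact absurd (h8 ▸ hx) h6
        · exact Or.inr h8
    refine ⟨insert_subset_iff.2 ⟨h5, h1⟩, fun x hx => ?_, h3⟩
    rcases h2 x hx with h7 | h7
    · exact Or.inl (mem_insert_of_mem h7)
    · rcases mem_insert.1 h7 with h8 | h8
      · exact Or.inl (mem_insert.2 (Or.inl h8))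
      · exact Or.inr h8
  · rintro ⟨h1, h2, h3⟩
    obtain ⟨h5, h6⟩ := insert_subset_iff.1 h1
    refine ⟨⟨h6, fun x hx => ?_, h3⟩, ?_⟩
    · rcases h2 x hx with h7 | h7
      · rcases mem_insert.1 h7 with h8 | h8
        · exact Or.inr (mem_insert.2 (Or.inl h8))
        · exact Or.inl h8
      · exact Or.inr (mem_insert_of_mem h7)
    · rintro ⟨_, h7, _⟩
      rcases h7 u h5 with h8 | h8
      · exact hu h8
      · exact hA h8

omit [LinearOrder X] in
theorem van_fam_mem [DecidableEq X] [Fintype X] {G : SimpleGraph X} {ρ : Finset X} {u : X} :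
    {τ | τ ∈ fam G ρ univ ∧ u ∈ τ} = fam G (insert u ρ) univ := by
  ext τ
  constructor
  · rintro ⟨⟨h1, h2, h3⟩, h4⟩
    exact ⟨insert_subset_iff.2 ⟨h4, h1⟩, fun x _ => Or.inr (mem_univ x), h3⟩
  · rintro ⟨h1, h2, h3⟩
    obtain ⟨h5, h6⟩ := insert_subset_iff.1 h1
    exact ⟨⟨h6, fun x _ => Or.inr (mem_univ x), h3⟩, h5⟩

theorem upper [Fintype X] {G : SimpleGraph X} (hs : IsSys G s) (n : ℕ)
    (hdim : ∀ τ : Finset X, G.IsClique (τ : Set X) → τ.card ≤ 2 * n)
    (hg : ∀ ρ : Finset X, G.IsClique (ρ : Set X) → Odd ρ.card → ∀ (S : Set X) (d : ℤ),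
      ExAt (fam G ρ univ) (tw S s) d) :
    ∀ ρ : Finset X, G.IsClique (ρ : Set X) → ∀ (A : Finset X) (S : Set X) (d : ℤ),
      2 * n + ρ.card < 2 * d → ExAt (fam G ρ A) (tw S s) d := by
  have main : ∀ m : ℕ, ∀ ρ : Finset X, 2 * n - ρ.card = m → G.IsClique (ρ : Set X) →
      ∀ (A : Finset X) (S : Set X) (d : ℤ),
      2 * n + ρ.card < 2 * d → ExAt (fam G ρ A) (tw S s) d := by
    intro m
    induction m using Nat.strong_induction_on with
    | _ m ih =>
    intro ρ hm hρ A S d hd
    have hcard := hdim ρ hρ
    -- the part containing a new vertex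
    have hnew : ∀ (u : X), u ∉ ρ → ∀ (B : Finset X) (e : ℤ), 2 * n + (ρ.card + 1) < 2 * e →
        ExAt (fam G (insert u ρ) B) (tw S s) e := by
      intro u hu B e he
      by_cases hc : G.IsClique ((insert u ρ : Finset X) : Set X)
      · have h1 : (insert u ρ).card = ρ.card + 1 := card_insert_of_notMem hu
        have h2 := hdim _ hc
        refine ih (2 * n - (insert u ρ).card) (by omega) (insert u ρ) rfl hc B S e ?_
        rw [h1]
        push_cast
        linarith
      · rw [van_fam_empty hc]
        exact van_ex_empty
    have hsys := van_isSys_tw hs S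
    rcases Nat.even_or_odd ρ.card with hev | hod
    · -- even: induction on A
      obtain ⟨q, hq⟩ := hev
      induction A using Finset.induction_on with
      | empty =>
        apply van_ex_zero
        intro c hc
        funext τ
        by_cases h1 : τ ∈ fam G ρ ∅
        · apply hc.2.1
          have h2 : τ = ρ := by
            apply subset_antisymm _ h1.1
            intro x hx
            rcases h1.2.1 x hx with h3 | h3
            · exact h3
            · exact absurd h3 (notMem_empty x)
          rw [h2]
          intro h3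
          rw [← h3] at hd
          have h4 : (ρ.card : ℤ) ≤ 2 * n := by exact_mod_cast hcard
          linarith
        · exact hc.1 τ h1
      | insert u A huA ihA =>
        by_cases hu : u ∈ ρ
        · rw [van_fam_insert_mem hu]
          exact ihA
        · refine ex_glue (F1 := fam G ρ A) (van_ok hsys ρ _) van_fam_sub van_fam_down ihA ?_
          rw [van_fam_diff hu huA]
          apply hnew u hu
          have h5 : (ρ.card : ℤ) = q + q := by exact_mod_cast hq
          rw [h5] at hd ⊢
          omega
    · -- odd: remove vertices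
      have hall : ∀ B : Finset X, ExAt (fam G ρ Bᶜ) (tw S s) d := by
        intro B
        induction B using Finset.induction_on with
        | empty =>
          rw [compl_empty]
          exact hg ρ hρ hod S d
        | insert u B huB ihB =>
          have h1 : insert u (insert u B)ᶜ = Bᶜ := by
            ext x
            simp only [mem_insert, mem_compl]
            constructor
            · rintro (h2 | h2)
              · rw [h2]
                exact huB
              · exact fun h3 => h2 (Or.inr h3)
            · intro h2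
              by_cases h3 : x = u
              · exact Or.inl h3
              · exact Or.inr (fun h4 => h4.elim h3 h2)
          have h2 : u ∉ (insert u B)ᶜ := by
            rw [mem_compl, not_not]
            exact mem_insert_self u B
          rw [← h1] at ihB
          by_cases hu : u ∈ ρ
          · rw [van_fam_insert_mem hu] at ihB
            exact ihB
          · refine ex_low (F := fam G ρ (insert u (insert u B)ᶜ)) (van_ok hsys ρ _) van_fam_sub
              van_fam_down ihB ?_
            rw [van_fam_diff hu h2]
            apply hnew u hu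
            linarith
      have h3 := hall Aᶜ
      rw [compl_compl] at h3
      exact h3
  intro ρ hρ A S d hd
  exact main _ ρ rfl hρ A S d hd

open scoped Classical in
/-- The system that is trivial on `T`. -/
noncomputable def vanSys (T : Finset X) (S : Set X) (s : X → Module.End ℚ V) (x : X) :
    Module.End ℚ V :=
  if x ∈ T then 1 else tw S s x

theorem vanSys_isSys {G : SimpleGraph X} (hs : IsSys G s) (T : Finset X) (S : Set X) :
    IsSys G (vanSys T S s) := by
  have h := van_isSys_tw hs S
  constructor
  · intro x
    unfold vanSys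
    split_ifs
    · exact one_mul 1
    · exact h.inv x
  · intro x y hxy
    unfold vanSys
    split_ifs
    · rfl
    · rw [one_mul, mul_one]
    · rw [one_mul, mul_one]
    · exact h.comm x y hxy

theorem vanSys_update (T : Finset X) (S : Set X) (u : X) :
    Function.update (vanSys T S s) u 1 = vanSys (insert u T) S s := by
  funext x
  by_cases hx : x = u
  · rw [hx, Function.update_self]
    unfold vanSys
    rw [if_pos (mem_insert_self u T)]
  · rw [Function.update_of_ne hx]
    unfold vanSys
    by_cases h : x ∈ T
    · rw [if_pos h, if_pos (mem_insert_of_mem h)]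
    · rw [if_neg h, if_neg (fun h1 => (mem_insert.1 h1).elim hx h)]

theorem vanSys_tw (T : Finset X) (S : Set X) {u : X} (hu : u ∉ T) :
    ∃ S' : Set X, tw {u} (vanSys T S s) = vanSys T S' s := by
  by_cases hS : u ∈ S
  · refine ⟨S \ {u}, ?_⟩
    funext x
    by_cases hx : x = u
    · rw [hx]
      unfold tw vanSys
      rw [if_pos (Set.mem_singleton u), if_neg hu, if_neg hu]
      unfold tw
      rw [if_pos hS, if_neg (fun h => h.2 (Set.mem_singleton u)), neg_neg]
    · unfold tw
      rw [if_neg (fun h => hx (Set.mem_singleton_iff.1 h))]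
      unfold vanSys
      by_cases h : x ∈ T
      · rw [if_pos h, if_pos h]
      · rw [if_neg h, if_neg h]
        unfold tw
        by_cases h1 : x ∈ S
        · rw [if_pos h1, if_pos ⟨h1, fun h2 => hx (Set.mem_singleton_iff.1 h2)⟩]
        · rw [if_neg h1, if_neg (fun h2 => h1 h2.1)]
  · refine ⟨insert u S, ?_⟩
    funext x
    by_cases hx : x = u
    · rw [hx]
      unfold tw vanSys
      rw [if_pos (Set.mem_singleton u), if_neg hu, if_neg hu]
      unfold tw
      rw [if_neg hS, if_pos (Set.mem_insert u S)]
    · unfold tw
      rw [if_neg (fun h => hx (Set.mem_singleton_iff.1 h))]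
      unfold vanSys
      by_cases h : x ∈ T
      · rw [if_pos h, if_pos h]
      · rw [if_neg h, if_neg h]
        unfold tw
        by_cases h1 : x ∈ S
        · rw [if_pos h1, if_pos (Set.mem_insert_of_mem u h1)]
        · rw [if_neg h1, if_neg (fun h2 => (Set.mem_insert_iff.1 h2).elim hx h1)]

theorem vanSys_empty (S : Set X) : vanSys ∅ S s = tw S s := by
  funext x
  unfold vanSys
  rw [if_neg (notMem_empty x)]

theorem lower [Fintype X] {G : SimpleGraph X} (hs : IsSys G s) (n : ℕ)
    (hdim : ∀ τ : Finset X, G.IsClique (τ : Set X) → τ.card ≤ 2 * n)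
    (hg : ∀ ρ : Finset X, G.IsClique (ρ : Set X) → Odd ρ.card → ∀ (S : Set X) (d : ℤ),
      ExAt (fam G ρ univ) (tw S s) d)
    (hb : ∀ ρ : Finset X, G.IsClique (ρ : Set X) → Even ρ.card → ∀ (t : X → Module.End ℚ V),
      IsSys G t → (∀ x, x ∉ ρ → t x = 1) → ∀ d : ℤ, 2 * d < 2 * n + ρ.card →
      ExAt (fam G ρ univ) t d) :
    ∀ ρ : Finset X, G.IsClique (ρ : Set X) → ∀ (S : Set X) (d : ℤ),
      2 * d < 2 * n + ρ.card → ExAt (fam G ρ univ) (tw S s) d := by
  have main : ∀ m : ℕ, ∀ ρ : Finset X, 2 * n - ρ.card = m → G.IsClique (ρ : Set X) →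
      ∀ (T : Finset X), Disjoint T ρ → ∀ (S : Set X) (d : ℤ),
      2 * d < 2 * n + ρ.card → ExAt (fam G ρ univ) (vanSys T S s) d := by
    intro m
    induction m using Nat.strong_induction_on with
    | _ m ih =>
    intro ρ hm hρ
    have hcard := hdim ρ hρ
    have hnew : ∀ (u : X), u ∉ ρ → ∀ (T : Finset X), Disjoint T ρ → u ∉ T → ∀ (S : Set X)
        (e : ℤ), 2 * e < 2 * n + (ρ.card + 1) →
        ExAt {τ | τ ∈ fam G ρ univ ∧ u ∈ τ} (tw {u} (vanSys T S s)) e := by
      intro u hu T hT huT S e he
      rw [van_fam_mem]
      obtain ⟨S', hS'⟩ := vanSys_tw (s := s) T S huT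
      rw [hS']
      by_cases hc : G.IsClique ((insert u ρ : Finset X) : Set X)
      · have h1 : (insert u ρ).card = ρ.card + 1 := card_insert_of_notMem hu
        have h2 := hdim _ hc
        refine ih (2 * n - (insert u ρ).card) (by omega) (insert u ρ) rfl hc T ?_ S' e ?_
        · rw [disjoint_insert_right]
          exact ⟨huT, hT⟩
        · rw [h1]
          push_cast
          linarith
      · rw [van_fam_empty hc]
        exact van_ex_empty
    rcases Nat.even_or_odd ρ.card with hev | hod
    · -- even: start from the complement of ρ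
      have hall : ∀ B : Finset X, Disjoint B ρ → ∀ (S : Set X) (d : ℤ),
          2 * d < 2 * n + ρ.card → ExAt (fam G ρ univ) (vanSys (ρᶜ \ B) S s) d := by
        intro B
        induction B using Finset.induction_on with
        | empty =>
          intro _ S d hd
          rw [sdiff_empty]
          refine hb ρ hρ hev _ (vanSys_isSys hs _ S) (fun x hx => ?_) d hd
          unfold vanSys
          rw [if_pos (mem_compl.2 hx)]
        | insert u B huB ihB =>
          intro hB S d hd
          obtain ⟨hu, hB'⟩ := disjoint_insert_left.1 hB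
          have hI := ihB hB' S d hd
          have h1 : insert u (ρᶜ \ insert u B) = ρᶜ \ B := by
            ext x
            simp only [mem_insert, mem_compl, mem_sdiff]
            constructor
            · rintro (h2 | h2)
              · rw [h2]
                exact ⟨hu, huB⟩
              · exact ⟨h2.1, fun h3 => h2.2 (Or.inr h3)⟩
            · intro h2
              by_cases h3 : x = u
              · exact Or.inl h3
              · exact Or.inr ⟨h2.1, fun h4 => h4.elim h3 h2.2⟩
          have h2 : u ∉ ρᶜ \ insert u B := by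
            intro h3
            exact (mem_sdiff.1 h3).2 (mem_insert_self u B)
          rw [← h1, ← vanSys_update] at hI
          refine triv_down (van_ok (vanSys_isSys hs _ S) ρ univ) u hI ?_
          refine hnew u hu _ ?_ h2 S (d + 1) ?_
          · exact Disjoint.mono_left sdiff_subset disjoint_compl_left
          · obtain ⟨q, hq⟩ := hev
            have h5 : (ρ.card : ℤ) = q + q := by exact_mod_cast hq
            rw [h5] at hd ⊢
            omega
      intro T hT S d hd
      have h1 : ρᶜ \ (ρᶜ \ T) = T := by
        rw [sdiff_sdiff_right_self]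
        apply inf_eq_right.2
        intro x hx
        rw [mem_compl]
        exact fun h => (disjoint_left.1 hT hx h)
      have h2 := hall (ρᶜ \ T) (Disjoint.mono_left sdiff_subset disjoint_compl_left) S d hd
      rw [h1] at h2
      exact h2
    · -- odd: start from the empty set
      intro T
      induction T using Finset.induction_on with
      | empty =>
        intro _ S d _
        rw [vanSys_empty]
        exact hg ρ hρ hod S d
      | insert u T huT ihT =>
        intro hT S d hd
        obtain ⟨hu, hT'⟩ := disjoint_insert_left.1 hT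
        rw [← vanSys_update]
        refine triv_up (van_ok (vanSys_isSys hs _ S) ρ univ) u (ihT hT' S d hd) ?_
        refine hnew u hu T hT' huT S d ?_
        linarith
  intro ρ hρ S d hd
  have h := main _ ρ rfl hρ ∅ (disjoint_empty_left ρ) S d hd
  rw [vanSys_empty] at h
  exact h

end Pool.Agent.Helper51.CD
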